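import Pool.Agent.K4H54.BJ.Pure

/-!
# From pure motives to all motives
-/

set_option autoImplicit false
set_option linter.unusedSectionVars false

open CategoryTheory Limits Pretriangulated ZeroObject

universe v u v' u' v'' u''

namespace Pool.Agent.K4H54.BJ

variable {T : Type u} [Category.{v} T] [Preadditive T] [HasZeroObject T] [HasShift T ℤ]
  [∀ n : ℤ, (shiftFunctor T n).Additive] [Pretriangulated T]
  {D : Type u'} [Category.{v'} D] [Preadditive D] [HasZeroObject D] [HasShift D ℤ]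
  [∀ n : ℤ, (shiftFunctor D n).Additive] [Pretriangulated D]
  {A : Type u''} [Category.{v''} A] [Abelian A]
  (R : T ⥤ D) [R.CommShift ℤ] [R.IsTriangulated]
  (H : D ⥤ A) [H.ShiftSequence ℤ] [H.IsHomological]

/-- The (unconditional) properties of the class `C` of Chow motives: direct summands of Chow
motives are Chow motives, and the cohomology in degree `i` is semisimple and pure of weight `i`
(there are no non-zero morphisms between the cohomologies of different degrees). -/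
structure Chow (C : T → Prop) : Prop where
  ret : ∀ {X Y : T} (i : X ⟶ Y) (p : Y ⟶ X), i ≫ p = 𝟙 X → C Y → C X
  weight : ∀ {X Y : T}, C X → C Y → ∀ i j : ℤ, i ≠ j → ∀ f : Ho R H i X ⟶ Ho R H j Y, f = 0
  semisimple : ∀ {X : T}, C X → ∀ i : ℤ, Ssp (Ho R H i X)

/-- pure objects placed in degree `0` -/
def Pu (C : T → Prop) (X : T) : Prop := (∃ n : ℤ, C (X⟦n⟧)) ∧ Conc H (R.obj X)

/-- finite sums -/
inductive SumP (P : T → Prop) : T → Prop
  | zero {X : T} (h : IsZero X) : SumP P X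
  | add {X p Y : T} (hp : P p) (hY : SumP P Y) (e : X ≅ p ⊞ Y) : SumP P X

/-- direct summands of finite sums -/
def PP (P : T → Prop) (X : T) : Prop :=
  ∃ (Y : T) (i : X ⟶ Y) (p : Y ⟶ X), SumP P Y ∧ i ≫ p = 𝟙 X

variable {R H} {C : T → Prop}

theorem SumP.of_iso {P : T → Prop} {X Y : T} (e : X ≅ Y) (h : SumP P X) : SumP P Y := by
  cases h with
  | zero h => exact SumP.zero (h.of_iso e.symm)
  | add hp hY e' => exact SumP.add hp hY (e.symm ≪≫ e')

theorem SumP.sum {P : T → Prop} {X Y : T} (hX : SumP P X) (hY : SumP P Y) : SumP P (X ⊞ Y) := by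
  induction hX with
  | zero h => exact SumP.of_iso (zero_biprod h).some hY
  | add hp _ e ih =>
    exact SumP.add hp ih (biprod.mapIso e (Iso.refl _) ≪≫ biprod.associator _ _ _)

theorem PP.of {P : T → Prop} {X : T} (h : P X) : PP P X :=
  ⟨X ⊞ 0, biprod.inl, biprod.fst, SumP.add h (SumP.zero (isZero_zero T)) (Iso.refl _),
    biprod.inl_fst⟩

/-- A property stable under sums, direct summands and zero objects. -/
theorem PP.induct {P : T → Prop} (Φ : T → Prop) (h0 : ∀ X, IsZero X → Φ X) (hP : ∀ X, P X → Φ X)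
    (hs : ∀ X X₁ X₂ (f : X₁ ⟶ X) (g : X ⟶ X₂), Dist f g → Φ X₁ → Φ X₂ → Φ X)
    (hr : ∀ (X Y : T) (i : X ⟶ Y) (p : Y ⟶ X), i ≫ p = 𝟙 X → Φ Y → Φ X) {X : T}
    (hX : PP P X) : Φ X := by
  obtain ⟨Y, i, p, hY, hip⟩ := hX
  refine hr X Y i p hip ?_
  clear hip i p
  induction hY with
  | zero h => exact h0 _ h
  | @add X p Y hp _ e ih =>
    exact hs X p Y (biprod.inl ≫ e.inv) (e.hom ≫ biprod.snd)
      ((Dist.biprod p Y).of_iso (Iso.refl _) e.symm (Iso.refl _) (by simp) (by simp)) (hP _ hp) ih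

theorem isZero_of_retract {B : Type*} [Category* B] [HasZeroMorphisms B] {X Y : B} (i : X ⟶ Y)
    (p : Y ⟶ X) (h : i ≫ p = 𝟙 X) (hY : IsZero Y) : IsZero X := by
  rw [IsZero.iff_id_eq_zero, ← h, hY.eq_of_tgt i 0, zero_comp]

theorem conc_retract {X Y : T} (i : X ⟶ Y) (p : Y ⟶ X) (h : i ≫ p = 𝟙 X)
    (hY : Conc H (R.obj Y)) : Conc H (R.obj X) := fun n hn =>
  isZero_of_retract (ho R H n i) (ho R H n p) (by rw [← ho_comp, h, ho_id]) (hY n hn)

theorem PP.conc {X : T} (hX : PP (Pu R H C) X) : Conc H (R.obj X) := by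
  refine PP.induct (fun X => Conc H (R.obj X)) ?_ ?_ ?_ ?_ hX
  · exact fun X h n _ => (H.shift n).map_isZero (R.map_isZero h)
  · exact fun X h => h.2
  · exact fun X X₁ X₂ f g hd h1 h2 n hn => isZero_of_dist H (hd.map R) n (h1 n hn) (h2 n hn)
  · exact fun X Y i p hip hY => conc_retract i p hip hY

theorem FF.retract_left {X X' Y : T} (i : X' ⟶ X) (p : X ⟶ X') (h : i ≫ p = 𝟙 X')
    (hf : FF R X Y) : FF R X' Y := by
  refine ⟨?_, ?_, ?_⟩
  · intro f h0
    rw [← Category.id_comp f, ← h, Category.assoc,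
      hf.1 (p ≫ f) (by rw [R.map_comp, h0, comp_zero]), comp_zero]
  · intro φ
    obtain ⟨g, hg⟩ := hf.2.1 (R.map p ≫ φ)
    refine ⟨i ≫ g, ?_⟩
    rw [R.map_comp, hg, ← Category.assoc, ← R.map_comp, h, R.map_id, Category.id_comp]
  · intro f h0
    rw [← Category.id_comp f, ← h, Category.assoc,
      hf.2.2 (p ≫ f) (by rw [R.map_comp, h0, comp_zero]), comp_zero]

theorem FF.retract_right {X Y Y' : T} (i : Y' ⟶ Y) (p : Y ⟶ Y') (h : i ≫ p = 𝟙 Y')
    (hf : FF R X Y) : FF R X Y' := by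
  refine ⟨?_, ?_, ?_⟩
  · intro f h0
    rw [← Category.comp_id f, ← h, ← Category.assoc,
      hf.1 (f ≫ i) (by rw [R.map_comp, h0, zero_comp]), zero_comp]
  · intro φ
    obtain ⟨g, hg⟩ := hf.2.1 (φ ≫ R.map i)
    refine ⟨g ≫ p, ?_⟩
    rw [R.map_comp, hg, Category.assoc, ← R.map_comp, h, R.map_id, Category.comp_id]
  · intro f h0
    have h1 : i⟦(1 : ℤ)⟧' ≫ p⟦(1 : ℤ)⟧' = 𝟙 _ := by
      rw [← Functor.map_comp, h, CategoryTheory.Functor.map_id]
    rw [← Category.comp_id f, ← h1, ← Category.assoc,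
      hf.2.2 (f ≫ i⟦(1 : ℤ)⟧') (by rw [R.map_comp, h0, zero_comp]), zero_comp]

theorem neg_one_zero (hH : Hereditary H) {X Y : D} (hX : Conc H X) (hY : Conc H Y) :
    ∀ ψ : X⟦(1 : ℤ)⟧ ⟶ Y, ψ = 0 := by
  intro ψ
  have h2 := hH.van.shift hX hY 1 0 (by omega)
  rw [← cancel_mono ((shiftFunctorZero D ℤ).inv.app Y), zero_comp]
  exact h2 _

theorem PP.ff (hH : Hereditary H) (hff : ∀ X Y, Pu R H C X → Pu R H C Y → FF R X Y) {X Y : T}
    (hX : PP (Pu R H C) X) (hY : PP (Pu R H C) Y) : FF R X Y := by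
  have h1 : ∀ {p : T}, Pu R H C p → FF R p Y := by
    intro p hp
    have h2 := PP.induct (P := Pu R H C) (fun Y => FF R p Y ∧ Conc H (R.obj Y))
      (fun Y h => ⟨FF.zero_right h, fun n _ => (H.shift n).map_isZero (R.map_isZero h)⟩)
      (fun Y h => ⟨hff _ _ hp h, h.2⟩)
      (fun Y Y₁ Y₂ f g hd h1 h2 => ⟨FF.ext_right hd h1.1 h2.1 (hH.van _ _ hp.2 h2.2 (-1) (by omega)),
        fun n hn => isZero_of_dist H (hd.map R) n (h1.2 n hn) (h2.2 n hn)⟩)
      (fun X Y i p hip h => ⟨FF.retract_right i p hip h.1, conc_retract i p hip h.2⟩) hY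
    exact h2.1
  have h3 := PP.induct (P := Pu R H C) (fun X => FF R X Y ∧ Conc H (R.obj X))
      (fun X h => ⟨FF.zero_left h, fun n _ => (H.shift n).map_isZero (R.map_isZero h)⟩)
      (fun X h => ⟨h1 h, h.2⟩)
      (fun X X₁ X₂ f g hd h1 h2 => ⟨FF.ext_left hd h1.1 h2.1 (neg_one_zero hH h1.2 hY.conc),
        fun n hn => isZero_of_dist H (hd.map R) n (h1.2 n hn) (h2.2 n hn)⟩)
      (fun X Y i p hip h => ⟨FF.retract_left i p hip h.1, conc_retract i p hip h.2⟩) hX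
  exact h3.1

theorem PP.van (hv : Van (Pu R H C)) : Van (PP (Pu R H C)) := by
  intro X Y hX hY n hn
  have h1 : ∀ {p : T}, Pu R H C p → ∀ f : p ⟶ Y⟦n⟧, f = 0 := by
    intro p hp
    refine PP.induct (P := Pu R H C) (fun Y => ∀ f : p ⟶ Y⟦n⟧, f = 0) ?_ ?_ ?_ ?_ hY
    · exact fun Y h f => ((shiftFunctor T n).map_isZero h).eq_of_tgt _ _
    · exact fun Y h f => hv _ _ hp h n hn f
    · intro Y Y₁ Y₂ f g hd h1 h2 k
      obtain ⟨ψ, rfl⟩ := (hd.shift n).lift k (h2 _)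
      rw [h1 ψ, zero_comp]
    · intro X Y i p hip h f
      have h2 : i⟦n⟧' ≫ p⟦n⟧' = 𝟙 _ := by
        rw [← Functor.map_comp, hip, CategoryTheory.Functor.map_id]
      rw [← Category.comp_id f, ← h2, ← Category.assoc, h (f ≫ i⟦n⟧'), zero_comp]
  refine PP.induct (P := Pu R H C) (fun X => ∀ f : X ⟶ Y⟦n⟧, f = 0) ?_ ?_ ?_ ?_ hX
  · exact fun X h f => h.eq_of_src _ _
  · exact fun X h f => h1 h f
  · intro X X₁ X₂ f g hd h1 h2 k
    obtain ⟨ψ, rfl⟩ := hd.desc k (h1 _)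
    rw [h2 ψ, comp_zero]
  · intro X Y i p hip h f
    rw [← Category.id_comp f, ← hip, Category.assoc, h (p ≫ f), comp_zero]

theorem PP.ssp (hC : Chow R H C) {X : T} (hX : PP (Pu R H C) X) : Ssp (Ho R H 0 X) := by
  obtain ⟨Y, i, p, hY, hip⟩ := hX
  refine Ssp.retract (ho R H 0 i) (ho R H 0 p) (by rw [← ho_comp, hip, ho_id]) ?_
  clear hip i p
  induction hY with
  | zero h => exact Ssp.zero ((H.shift (0 : ℤ)).map_isZero (R.map_isZero h))
  | @add X p Y hp _ e ih =>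
    obtain ⟨⟨n, hn⟩, -⟩ := hp
    obtain ⟨γ, -⟩ := exists_gsh R H n (-n) 0 (by omega)
    have h1 : Ssp (Ho R H 0 p) :=
      Ssp.retract (γ p).inv (γ p).hom (by simp) (hC.semisimple hn (-n))
    refine Ssp.retract (W := Ho R H 0 p ⊞ Ho R H 0 Y)
      (biprod.lift (ho R H 0 (e.hom ≫ biprod.fst)) (ho R H 0 (e.hom ≫ biprod.snd)))
      (biprod.desc (ho R H 0 (biprod.inl ≫ e.inv)) (ho R H 0 (biprod.inr ≫ e.inv))) ?_
      (Ssp.biprod h1 ih)
    rw [biprod.lift_desc, ← ho_comp, ← ho_comp, ← ho_add, total_iso, ho_id]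

/-- The class of pure objects is semisimple. -/
theorem PP.semi [IsIdempotentComplete T] (hH : Hereditary H) (hC : Chow R H C)
    (hff : ∀ X Y, Pu R H C X → Pu R H C Y → FF R X Y) (hv : Van (Pu R H C)) :
    Semi (PP (Pu R H C)) where
  ret := by
    rintro X Y i p hip ⟨Z, j, q, hZ, hjq⟩
    exact ⟨Z, i ≫ j, q ≫ p, hZ, by rw [Category.assoc, ← Category.assoc j, hjq,
      Category.id_comp, hip]⟩
  sum := by
    rintro X Y ⟨Z, j, q, hZ, hjq⟩ ⟨Z', j', q', hZ', hjq'⟩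
    refine ⟨Z ⊞ Z', biprod.map j j', biprod.map q q', hZ.sum hZ', ?_⟩
    apply biprod.hom_ext'
    · simp [reassoc_of% hjq]
    · simp [reassoc_of% hjq']
  zero := fun {X} h => ⟨X, 𝟙 X, 𝟙 X, SumP.zero h, Category.id_comp _⟩
  neg := by
    intro X Y hX hY ψ
    have h2 := (PP.van hv).shift hX hY 1 0 (by omega)
    rw [← cancel_mono ((shiftFunctorZero T ℤ).inv.app Y), zero_comp]
    exact h2 _
  fac := by
    intro X Y hX hY γ
    have cX := hX.conc
    have cY := hY.conc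
    obtain ⟨η, hη⟩ := Ssp.regular (hX.ssp hC) (hY.ssp hC) (ho R H 0 γ)
    obtain ⟨h, rfl⟩ := FF.lift hH cY cX (PP.ff hH hff hY hX) η
    have hid : γ ≫ h ≫ γ = γ := by
      apply FF.ext_of hH cX cY (PP.ff hH hff hX hY)
      rw [ho_comp, ho_comp, hη]
    obtain ⟨r, c, a, hca, hac⟩ := IsIdempotentComplete.idempotents_split X (γ ≫ h) (by
      calc (γ ≫ h) ≫ (γ ≫ h) = (γ ≫ h ≫ γ) ≫ h := by simp only [Category.assoc]
        _ = γ ≫ h := by rw [hid])
    refine ⟨r, a, c ≫ γ, c, h ≫ a, ?_, hca, ?_⟩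
    · rw [← Category.assoc, hac, Category.assoc, hid]
    · calc (c ≫ γ) ≫ h ≫ a = c ≫ (γ ≫ h) ≫ a := by simp only [Category.assoc]
        _ = (c ≫ a) ≫ (c ≫ a) := by rw [← hac]; simp only [Category.assoc]
        _ = 𝟙 r := by rw [hca, Category.id_comp]

end Pool.Agent.K4H54.BJ
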