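import Pool.Agent.K4H54.BJ.Real

/-!
# Morphisms on cohomology
-/

set_option autoImplicit false

open CategoryTheory Limits Pretriangulated ZeroObject

universe v u v' u' v'' u''

namespace Pool.Agent.K4H54.BJ

/-- Semisimple objects: every subobject is a direct summand. -/
def Ssp {A : Type u''} [Category.{v''} A] [Preadditive A] (V : A) : Prop :=
  ∀ (Z : A) (m : Z ⟶ V), Mono m → ∃ r : V ⟶ Z, m ≫ r = 𝟙 Z

section Ssp

variable {A : Type u''} [Category.{v''} A] [Abelian A]

theorem Ssp.retract {V W : A} (i : V ⟶ W) (p : W ⟶ V) (hip : i ≫ p = 𝟙 V) (h : Ssp W) : Ssp V := by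
  intro Z m hm
  have : IsSplitMono i := ⟨⟨p, hip⟩⟩
  obtain ⟨r, hr⟩ := h Z (m ≫ i) inferInstance
  exact ⟨i ≫ r, by rw [← Category.assoc, hr]⟩

theorem Ssp.zero {V : A} (h : IsZero V) : Ssp V := by
  intro Z m hm
  refine ⟨0, ?_⟩
  rw [← cancel_mono m]
  exact h.eq_of_tgt _ _

/-- the splitting of an epimorphism with split kernel -/
theorem exists_section {Z I K : A} (π : Z ⟶ I) [Epi π] (k : K ⟶ Z) (hk : k ≫ π = 0)
    (hker : ∀ {W : A} (φ : Z ⟶ W), k ≫ φ = 0 → ∃ ψ : I ⟶ W, π ≫ ψ = φ) (r : Z ⟶ K)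
    (hr : k ≫ r = 𝟙 K) : ∃ s : I ⟶ Z, s ≫ π = 𝟙 I ∧ s ≫ r = 0 ∧ r ≫ k + π ≫ s = 𝟙 Z := by
  obtain ⟨s, hs⟩ := hker (𝟙 Z - r ≫ k) (by
    rw [Preadditive.comp_sub, Category.comp_id, ← Category.assoc, hr, Category.id_comp, sub_self])
  refine ⟨s, ?_, ?_, ?_⟩
  · rw [← cancel_epi π, ← Category.assoc, hs, Preadditive.sub_comp, Category.assoc, hk,
      comp_zero, sub_zero, Category.id_comp, Category.comp_id]
  · rw [← cancel_epi π, ← Category.assoc, hs, Preadditive.sub_comp, Category.assoc, hr,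
      Category.id_comp, Category.comp_id, sub_self, comp_zero]
  · rw [hs]
    abel

theorem desc_of_epi {Z I : A} (π : Z ⟶ I) [Epi π] {W : A} (φ : Z ⟶ W)
    (h : kernel.ι π ≫ φ = 0) : ∃ ψ : I ⟶ W, π ≫ ψ = φ :=
  ⟨(Abelian.epiIsCokernelOfKernel _ (kernelIsKernel π)).desc (CokernelCofork.ofπ φ h),
    (Abelian.epiIsCokernelOfKernel _ (kernelIsKernel π)).fac
      (CokernelCofork.ofπ φ h) WalkingParallelPair.one⟩

theorem exists_image {Z W : A} (f : Z ⟶ W) :
    ∃ (I : A) (π : Z ⟶ I) (ι : I ⟶ W), Epi π ∧ Mono ι ∧ π ≫ ι = f :=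
  ⟨_, factorThruImage f, image.ι f, inferInstance, inferInstance, image.fac f⟩

theorem Ssp.biprod {V W : A} (hV : Ssp V) (hW : Ssp W) : Ssp (V ⊞ W) := by
  intro Z m hm
  obtain ⟨I, π, ι, hπ, hι, h1⟩ := exists_image (m ≫ biprod.snd)
  have hks : kernel.ι π ≫ m ≫ biprod.snd = 0 := by
    rw [← h1, ← Category.assoc, kernel.condition, zero_comp]
  have hmono : Mono (kernel.ι π ≫ m ≫ biprod.fst) := by
    rw [Preadditive.mono_iff_cancel_zero]
    intro W' x hx
    have h2 : (x ≫ kernel.ι π) ≫ m = 0 := by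
      apply biprod.hom_ext
      · simpa using hx
      · simp only [Category.assoc, zero_comp]
        rw [hks, comp_zero]
    rw [← cancel_mono (kernel.ι π), ← cancel_mono m, h2]
    simp
  obtain ⟨ρ, hρ⟩ := hV _ _ hmono
  obtain ⟨δ, hδ⟩ := hW _ ι hι
  obtain ⟨s, hs1, hs2, hs3⟩ := exists_section π (kernel.ι π) (kernel.condition π)
    (fun φ hφ => desc_of_epi π φ hφ)
    (m ≫ biprod.fst ≫ ρ) (by simpa [Category.assoc] using hρ)
  refine ⟨biprod.fst ≫ ρ ≫ kernel.ι π + biprod.snd ≫ δ ≫ s, ?_⟩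
  rw [Preadditive.comp_add]
  have h3 : m ≫ biprod.snd ≫ δ ≫ s = π ≫ s := by
    rw [← Category.assoc, ← h1, Category.assoc, ← Category.assoc ι, hδ, Category.id_comp]
  rw [h3, ← hs3]
  simp only [Category.assoc]

/-- Morphisms between semisimple objects are von Neumann regular. -/
theorem Ssp.regular {V W : A} (hV : Ssp V) (hW : Ssp W) (f : V ⟶ W) :
    ∃ η : W ⟶ V, f ≫ η ≫ f = f := by
  obtain ⟨I, π, ι, hπ, hι, h1⟩ := exists_image f
  obtain ⟨r, hr⟩ := hV _ (kernel.ι π) inferInstance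
  obtain ⟨δ, hδ⟩ := hW _ ι hι
  obtain ⟨s, hs1, -, -⟩ := exists_section π (kernel.ι π) (kernel.condition π)
    (fun φ hφ => desc_of_epi π φ hφ) r hr
  refine ⟨δ ≫ s, ?_⟩
  have h2 : f ≫ δ = π := by rw [← h1, Category.assoc, hδ, Category.comp_id]
  calc f ≫ (δ ≫ s) ≫ f = (f ≫ δ) ≫ s ≫ f := by simp only [Category.assoc]
    _ = π ≫ s ≫ π ≫ ι := by rw [h2, h1]
    _ = π ≫ (s ≫ π) ≫ ι := by simp only [Category.assoc]
    _ = f := by rw [hs1, Category.id_comp, h1]

end Ssp

section Target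

variable {D : Type u'} [Category.{v'} D] [Preadditive D] [HasZeroObject D] [HasShift D ℤ]
  [∀ n : ℤ, (shiftFunctor D n).Additive] [Pretriangulated D]
  {A : Type u''} [Category.{v''} A] [Abelian A] (H : D ⥤ A) [H.ShiftSequence ℤ]
  [H.IsHomological]

/-- The properties of the bounded derived category of a hereditary abelian category `A` which are
used: on objects with cohomology in degree `0` only, `Hom` is computed in `A`, and there are no
morphisms of degree `n < 0` or `n ≥ 2`. -/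
structure Hereditary : Prop where
  bij : ∀ X Y : D, Conc H X → Conc H Y →
    Function.Bijective (fun f : X ⟶ Y => (H.shift (0 : ℤ)).map f)
  van : Van (Conc H)

variable {H}

theorem Hereditary.eq_zero (hH : Hereditary H) {X Y : D} (hX : Conc H X) (hY : Conc H Y)
    (f : X ⟶ Y) (hf : (H.shift (0 : ℤ)).map f = 0) : f = 0 :=
  (hH.bij X Y hX hY).1 (by
    change (H.shift (0 : ℤ)).map f = (H.shift (0 : ℤ)).map 0
    rw [hf, Functor.map_zero])

theorem Hereditary.eq_zero_shift (hH : Hereditary H) {X Y : D} (hX : Conc H X) (hY : Conc H Y)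
    (n : ℤ) (f : X⟦n⟧ ⟶ Y⟦n⟧) (hf : ∀ k : ℤ, (H.shift k).map f = 0) : f = 0 := by
  obtain ⟨g, rfl⟩ := (shiftFunctor D n).map_surjective f
  have h1 := H.shiftIso_hom_naturality n (-n) 0 (by omega) g
  rw [hf, zero_comp] at h1
  have h2 : (H.shift (0 : ℤ)).map g = 0 := by
    rw [← cancel_epi ((H.shiftIso n (-n) 0 (by omega)).hom.app X), ← h1, comp_zero]
  rw [hH.eq_zero hX hY g h2, Functor.map_zero]

/-- Two composable morphisms which are zero on cohomology have composition zero. -/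
theorem Hereditary.comp_eq_zero (hH : Hereditary H) {X Y Z : D}
    (hX : SS (Conc H) (fun _ => True) X) (hY : SS (Conc H) (fun _ => True) Y)
    (hZ : SS (Conc H) (fun _ => True) Z) : ∀ (f : X ⟶ Y) (g : Y ⟶ Z)
      (_ : ∀ n : ℤ, (H.shift n).map f = 0) (_ : ∀ n : ℤ, (H.shift n).map g = 0), f ≫ g = 0 := by
  have base : ∀ (A' C : D) (n m : ℤ), Conc H A' → Conc H C → ∀ (f : A'⟦n⟧ ⟶ Y) (g : Y ⟶ C⟦m⟧)
      (_ : ∀ n : ℤ, (H.shift n).map f = 0) (_ : ∀ n : ℤ, (H.shift n).map g = 0), f ≫ g = 0 := by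
    intro A' C n m hA hC
    induction hY with
    | zero h => intro f g _ _; rw [h.eq_of_tgt f 0, zero_comp]
    | @add Y B Y₁ k _ hB _ e ih =>
      intro f g hf hg
      have h1 : (f ≫ e.hom ≫ biprod.snd) ≫ (biprod.inr ≫ e.inv ≫ g) = 0 := by
        apply ih
        · intro n; rw [Functor.map_comp, hf, zero_comp]
        · intro n; rw [Functor.map_comp, Functor.map_comp, hg, comp_zero, comp_zero]
      have h2 : (f ≫ e.hom ≫ biprod.fst) ≫ (biprod.inl ≫ e.inv ≫ g) = 0 := by
        have hf' : ∀ l : ℤ, (H.shift l).map (f ≫ e.hom ≫ biprod.fst) = 0 := by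
          intro n; rw [Functor.map_comp, hf, zero_comp]
        have hg' : ∀ l : ℤ, (H.shift l).map (biprod.inl ≫ e.inv ≫ g) = 0 := by
          intro n; rw [Functor.map_comp, Functor.map_comp, hg, comp_zero, comp_zero]
        by_cases h1 : k = n
        · subst h1
          rw [hH.eq_zero_shift hA hB _ _ hf', zero_comp]
        by_cases h2 : m = k
        · subst h2
          rw [hH.eq_zero_shift hB hC _ _ hg', comp_zero]
        by_cases h3 : k - n = 1
        · by_cases h4 : m - k = 1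
          · exact hH.van.shift hA hC n m (by omega) _
          · rw [hH.van.shift hB hC k m (by omega) (biprod.inl ≫ e.inv ≫ g), comp_zero]
        · rw [hH.van.shift hA hB n k (by omega) (f ≫ e.hom ≫ biprod.fst), zero_comp]
      have h3 : f ≫ g = (f ≫ e.hom ≫ biprod.fst) ≫ (biprod.inl ≫ e.inv ≫ g) +
          (f ≫ e.hom ≫ biprod.snd) ≫ (biprod.inr ≫ e.inv ≫ g) := by
        have h4 : (biprod.fst ≫ biprod.inl + biprod.snd ≫ biprod.inr :
            (B⟦k⟧) ⊞ Y₁ ⟶ (B⟦k⟧) ⊞ Y₁) = 𝟙 _ := biprod.total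
        calc f ≫ g = f ≫ e.hom ≫ (biprod.fst ≫ biprod.inl + biprod.snd ≫ biprod.inr) ≫
              e.inv ≫ g := by rw [h4]; simp
          _ = _ := by
            simp only [Preadditive.add_comp, Preadditive.comp_add, Category.assoc]
      rw [h3, h1, h2, add_zero]
  have step : ∀ (C : D) (m : ℤ), Conc H C → ∀ (f : X ⟶ Y) (g : Y ⟶ C⟦m⟧)
      (_ : ∀ n : ℤ, (H.shift n).map f = 0) (_ : ∀ n : ℤ, (H.shift n).map g = 0), f ≫ g = 0 := by
    intro C m hC
    induction hX with
    | zero h => intro f g _ _; rw [h.eq_of_src f 0, zero_comp]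
    | @add X B X₁ k _ hB _ e ih =>
      intro f g hf hg
      rw [← cancel_epi e.inv, comp_zero]
      apply biprod.hom_ext'
      · rw [comp_zero, ← Category.assoc, ← Category.assoc]
        apply base B C k m hB hC _ _ _ hg
        intro n; rw [Functor.map_comp, hf, comp_zero]
      · rw [comp_zero, ← Category.assoc, ← Category.assoc]
        apply ih _ _ _ hg
        intro n; rw [Functor.map_comp, hf, comp_zero]
  induction hZ with
  | zero h => intro f g _ _; exact h.eq_of_tgt _ _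
  | @add Z B Z₁ k _ hB _ e ih =>
    intro f g hf hg
    rw [← cancel_mono e.hom, zero_comp]
    apply biprod.hom_ext
    · rw [zero_comp, Category.assoc, Category.assoc]
      apply step B k hB _ _ hf
      intro n; rw [Functor.map_comp, hg, zero_comp]
    · rw [zero_comp, Category.assoc, Category.assoc]
      apply ih _ _ hf
      intro n; rw [Functor.map_comp, hg, zero_comp]

omit [HasZeroObject D] [∀ n : ℤ, (shiftFunctor D n).Additive] [Pretriangulated D] [Abelian A]
  [H.IsHomological] in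
theorem Conc.shift_isZero {X : D} (hX : Conc H X) (m n : ℤ) (h : n ≠ -m) :
    IsZero ((H.shift n).obj (X⟦m⟧)) :=
  (hX (m + n) (by omega)).of_iso ((H.shiftIso m n (m + n) rfl).app X)

/-- Finite sums of shifts have finitely many cohomology objects. -/
theorem SS.support {X : D} (hX : SS (Conc H) (fun _ => True) X) :
    ∃ s : Finset ℤ, ∀ n ∉ s, IsZero ((H.shift n).obj X) := by
  induction hX with
  | zero h => exact ⟨∅, fun n _ => (H.shift n).map_isZero h⟩
  | @add X B X₁ k _ hB _ e ih =>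
    obtain ⟨s, hs⟩ := ih
    refine ⟨insert (-k) s, fun n hn => ?_⟩
    rw [Finset.mem_insert, not_or] at hn
    exact isZero_of_dist H ((Dist.biprod (B⟦k⟧) X₁).of_iso (Iso.refl _) e.symm (Iso.refl _)
      (f' := biprod.inl ≫ e.inv) (g' := e.hom ≫ biprod.snd) (by simp) (by simp)) n
      (hB.shift_isZero k n hn.1) (hs n hn.2)

end Target

end Pool.Agent.K4H54.BJ
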