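import Pool.Agent.K4H54.BJ.Eqv

/-!
# Density of the regulators
-/

set_option autoImplicit false
set_option linter.unusedSectionVars false

open CategoryTheory Limits Pretriangulated ZeroObject MonoidalCategory

universe v u v' u' v'' u''

namespace Pool.Agent.K4H54.BJ

section Top

variable {D : Type u'} [Category.{v'} D] [Preadditive D] [HasZeroObject D] [HasShift D ℤ]
  [∀ n : ℤ, (shiftFunctor D n).Additive] [Pretriangulated D]
  {A : Type u''} [Category.{v''} A] [Abelian A]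
  (H : D ⥤ A) [H.ShiftSequence ℤ]

/-- The properties of the topology of absolute Hodge cohomology `Hom(E, Z)`, `E = ℚ(0)`. The
subgroup `J(Z)` consists of the morphisms which are zero on `H⁰`. -/
structure AbsTop (E : D) (τ : ∀ Z : D, TopologicalSpace (E ⟶ Z)) : Prop where
  /-- `Hom(E, Z)` is a topological group -/
  group : ∀ Z : D, @IsTopologicalAddGroup (E ⟶ Z) (τ Z) _
  /-- morphisms `Z ⟶ Z'` induce continuous maps -/
  cont : ∀ {Z Z' : D} (g : Z ⟶ Z'), @Continuous _ _ (τ Z) (τ Z') (fun f : E ⟶ Z => f ≫ g)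
  /-- the subgroup `J(Z)` is open -/
  openJ : ∀ Z : D, @IsOpen _ (τ Z) {f : E ⟶ Z | (H.shift (0 : ℤ)).map f = 0}
  /-- if `H⁻¹(Z) ⟶ H⁻¹(Z')` is an epimorphism, `J(Z) ⟶ J(Z')` is open -/
  quot : ∀ {Z Z' : D} (g : Z ⟶ Z'), Epi ((H.shift (-1 : ℤ)).map g) →
    ∀ U : Set (E ⟶ Z), @IsOpen _ (τ Z) U → (∀ f ∈ U, (H.shift (0 : ℤ)).map f = 0) →
      @IsOpen _ (τ Z') ((fun f : E ⟶ Z => f ≫ g) '' U)

end Top

/-- The closure of a subgroup which contains the kernel of an open surjective homomorphism and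
maps onto a dense subgroup. -/
theorem dense_of_open {G G' : Type*} [AddCommGroup G] [AddCommGroup G'] [TopologicalSpace G]
    [TopologicalSpace G'] [IsTopologicalAddGroup G] (q : G →+ G') (ho : IsOpenMap q)
    (S : AddSubgroup G) (hker : ∀ x, q x = 0 → x ∈ S.topologicalClosure)
    (hd : ∀ y : G', y ∈ closure (q '' (S : Set G))) (x : G) : x ∈ closure (S : Set G) := by
  by_contra hx
  have hU : IsOpen ((S.topologicalClosure : Set G)ᶜ) := S.isClosed_topologicalClosure.isOpen_compl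
  have h1 := ho _ hU
  have h2 : q x ∈ q '' ((S.topologicalClosure : Set G)ᶜ) := ⟨x, hx, rfl⟩
  obtain ⟨y, ⟨z, hz, hzy⟩, ⟨s, hs, hsy⟩⟩ := mem_closure_iff.1 (hd (q x)) _ h1 h2
  apply hz
  have h3 : z - s ∈ S.topologicalClosure := hker _ (by rw [map_sub, hzy, hsy, sub_self])
  have h4 : s ∈ S.topologicalClosure := subset_closure hs
  have h5 := S.topologicalClosure.add_mem h3 h4
  rwa [sub_add_cancel] at h5

section Dens

variable {T : Type u} [Category.{v} T] [Preadditive T] [HasZeroObject T] [HasShift T ℤ]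
  [∀ n : ℤ, (shiftFunctor T n).Additive] [Pretriangulated T]
  [MonoidalCategory T] [MonoidalPreadditive T]
  {D : Type u'} [Category.{v'} D] [Preadditive D] [HasZeroObject D] [HasShift D ℤ]
  [∀ n : ℤ, (shiftFunctor D n).Additive] [Pretriangulated D]
  [MonoidalCategory D] [MonoidalPreadditive D]
  {A : Type u''} [Category.{v''} A] [Abelian A]
  (R : T ⥤ D) [R.CommShift ℤ] [R.IsTriangulated] [R.Monoidal]
  (H : D ⥤ A) [H.ShiftSequence ℤ] [H.IsHomological]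
  (τ : ∀ Z : D, TopologicalSpace (R.obj (𝟙_ T) ⟶ Z))

/-- The regulator `Hom(𝟙, Y) ⟶ Hom(R 𝟙, R Y)` has dense image. -/
def RegDense (Y : T) : Prop :=
  ∀ g : R.obj (𝟙_ T) ⟶ R.obj Y,
    g ∈ @closure _ (τ (R.obj Y)) (Set.range (fun f : 𝟙_ T ⟶ Y => R.map f))

/-- the image of the regulator as a subgroup -/
def regRange (Y : T) : AddSubgroup (R.obj (𝟙_ T) ⟶ R.obj Y) where
  carrier := Set.range (fun f : 𝟙_ T ⟶ Y => R.map f)
  zero_mem' := ⟨0, R.map_zero _ _⟩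
  add_mem' := by
    rintro _ _ ⟨f, rfl⟩ ⟨g, rfl⟩
    exact ⟨f + g, R.map_add⟩
  neg_mem' := by
    rintro _ ⟨f, rfl⟩
    exact ⟨-f, R.map_neg⟩

variable {R H τ}

theorem closure_comp (hτ : AbsTop H (R.obj (𝟙_ T)) τ) {X Y : T} (k : X ⟶ Y)
    (g : R.obj (𝟙_ T) ⟶ R.obj X)
    (hg : g ∈ @closure _ (τ (R.obj X)) (Set.range (fun f : 𝟙_ T ⟶ X => R.map f))) :
    g ≫ R.map k ∈ @closure _ (τ (R.obj Y)) (Set.range (fun f : 𝟙_ T ⟶ Y => R.map f)) := by
  let _ := τ (R.obj X)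
  let _ := τ (R.obj Y)
  have h1 : (fun f : R.obj (𝟙_ T) ⟶ R.obj X => f ≫ R.map k) g ∈
      (fun f : R.obj (𝟙_ T) ⟶ R.obj X => f ≫ R.map k) ''
        closure (Set.range (fun f : 𝟙_ T ⟶ X => R.map f)) := ⟨g, hg, rfl⟩
  have h2 := image_closure_subset_closure_image (hτ.cont (R.map k)) h1
  refine closure_mono ?_ h2
  rintro _ ⟨_, ⟨f, rfl⟩, rfl⟩
  exact ⟨f ≫ k, R.map_comp _ _⟩

theorem RegDense.retract (hτ : AbsTop H (R.obj (𝟙_ T)) τ) {X Y : T} (i : X ⟶ Y) (p : Y ⟶ X)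
    (h : i ≫ p = 𝟙 X) (hY : RegDense R τ Y) : RegDense R τ X := by
  intro g
  have h1 := closure_comp hτ p _ (hY (g ≫ R.map i))
  rwa [Category.assoc, ← R.map_comp, h, R.map_id, Category.comp_id] at h1

theorem RegDense.sum (hτ : AbsTop H (R.obj (𝟙_ T)) τ) {X X₁ X₂ : T} (e : X ≅ X₁ ⊞ X₂)
    (h₁ : RegDense R τ X₁) (h₂ : RegDense R τ X₂) : RegDense R τ X := by
  intro g
  let _ := τ (R.obj X)
  have := hτ.group (R.obj X)
  have h1 := closure_comp hτ (biprod.inl ≫ e.inv) _ (h₁ (g ≫ R.map (e.hom ≫ biprod.fst)))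
  have h2 := closure_comp hτ (biprod.inr ≫ e.inv) _ (h₂ (g ≫ R.map (e.hom ≫ biprod.snd)))
  have h3 := (regRange R X).topologicalClosure.add_mem (show _ ∈ _ from h1) (show _ ∈ _ from h2)
  rw [Category.assoc, Category.assoc, ← Preadditive.comp_add, ← R.map_comp, ← R.map_comp,
    ← R.map_add, total_iso, R.map_id, Category.comp_id] at h3
  exact h3

theorem RegDense.of_zero {X : T} (h : ∀ g : R.obj (𝟙_ T) ⟶ R.obj X, g = 0) : RegDense R τ X := by
  intro g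
  let _ := τ (R.obj X)
  rw [h g]
  exact subset_closure ⟨0, R.map_zero _ _⟩

/-- Density implies surjectivity onto the Hodge classes. -/
theorem RegDense.hodgeSurj (hτ : AbsTop H (R.obj (𝟙_ T)) τ) (hD : DbHer H) {Y : T}
    (h : RegDense R τ Y) : HodgeSurj R H Y := by
  intro φ
  let _ := τ (R.obj Y)
  have := hτ.group (R.obj Y)
  obtain ⟨ψ, hψ⟩ := lifts_target hD.her (hD.dec (R.obj (𝟙_ T))) (hD.dec (R.obj Y))
    (Function.update (fun _ => 0) 0 φ)
  have h1 : IsOpen ((fun g : R.obj (𝟙_ T) ⟶ R.obj Y => g - ψ) ⁻¹'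
      {f | (H.shift (0 : ℤ)).map f = 0}) :=
    (hτ.openJ (R.obj Y)).preimage (continuous_id.sub continuous_const)
  obtain ⟨g, hg, ⟨f, rfl⟩⟩ := mem_closure_iff.1 (h ψ) _ h1 (by simp)
  refine ⟨f, ?_⟩
  have : (H.shift (0 : ℤ)).Additive := inferInstance
  simp only [Set.mem_preimage, Set.mem_ofPred_eq, Functor.map_sub, sub_eq_zero] at hg
  rw [hψ, Function.update_self] at hg
  exact hg

/-- Extensions. -/
theorem RegDense.ext (hτ : AbsTop H (R.obj (𝟙_ T)) τ) {X Y P : T} {f : X ⟶ Y} {g : Y ⟶ P}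
    (hd : Dist f g) (hX : Conc H (R.obj X)) (hP : Conc H (R.obj P))
    (hv : ∀ h : 𝟙_ T ⟶ (X⟦(1 : ℤ)⟧)⟦(1 : ℤ)⟧, h = 0) (h₁ : RegDense R τ (X⟦(1 : ℤ)⟧))
    (h₂ : RegDense R τ (P⟦(1 : ℤ)⟧)) : RegDense R τ (Y⟦(1 : ℤ)⟧) := by
  intro x
  let _ := τ (R.obj (Y⟦(1 : ℤ)⟧))
  let _ := τ (R.obj (P⟦(1 : ℤ)⟧))
  have := hτ.group (R.obj (Y⟦(1 : ℤ)⟧))
  have hYc : Conc H (R.obj Y) := fun n hn => isZero_of_dist H (hd.map R) n (hX n hn) (hP n hn)
  have hd1 := hd.shift 1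
  have hz : ∀ k : R.obj (𝟙_ T) ⟶ R.obj (Y⟦(1 : ℤ)⟧), (H.shift (0 : ℤ)).map k = 0 :=
    fun k => (isZero_shift hYc 1 0 (by omega)).eq_of_tgt _ _
  have hepi : Epi ((H.shift (-1 : ℤ)).map (R.map (g⟦(1 : ℤ)⟧'))) := by
    obtain ⟨h, hh⟩ := hd1.map R
    have h1 := H.homologySequence_epi_shift_map_mor₂_iff _ hh (-1) 0 (by omega)
    exact h1.2 ((isZero_shift hX 1 0 (by omega)).eq_of_tgt _ _)
  refine dense_of_open (((Preadditive.rightComp (R.obj (𝟙_ T)) (R.map (g⟦(1 : ℤ)⟧'))) :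
    (R.obj (𝟙_ T) ⟶ R.obj (Y⟦(1 : ℤ)⟧)) →+ (R.obj (𝟙_ T) ⟶ R.obj (P⟦(1 : ℤ)⟧)))) ?_
    (regRange R (Y⟦(1 : ℤ)⟧)) ?_ ?_ x
  · intro U hU
    exact hτ.quot (R.map (g⟦(1 : ℤ)⟧')) hepi U hU (fun k _ => hz k)
  · intro y hy
    obtain ⟨z, hz⟩ := (hd1.map R).lift y hy
    have h3 := closure_comp hτ (f⟦(1 : ℤ)⟧') z (h₁ z)
    rw [hz] at h3
    exact h3
  · intro y
    refine closure_mono ?_ (h₂ y)
    rintro _ ⟨k, rfl⟩
    obtain ⟨w, hw⟩ := hd1
    have h4 : Dist (g⟦(1 : ℤ)⟧') w := ⟨_, rot_of_distTriang _ hw⟩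
    obtain ⟨l, hl⟩ := h4.lift k (hv _)
    exact ⟨R.map l, ⟨l, rfl⟩, by
      change R.map l ≫ R.map (g⟦(1 : ℤ)⟧') = R.map k
      rw [← R.map_comp, hl]⟩

/-- Density in degree `1` for sums of pure objects. -/
theorem PP.dense {C : T → Prop} (hτ : AbsTop H (R.obj (𝟙_ T)) τ) (hD : DbHer H)
    (ht : Tens R H) (hinj : ∀ (N : T) (x : 𝟙_ T ⟶ N), R.map x = 0 → x = 0)
    (hd : ∀ Y : T, C Y → ∀ n : ℤ, RegDense R τ (Y⟦n⟧)) {X : T} (hX : PP (Pu R H C) X) :
    RegDense R τ (X⟦(1 : ℤ)⟧) := by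
  have hv : ∀ X : T, Conc H (R.obj X) → ∀ h : 𝟙_ T ⟶ (X⟦(1 : ℤ)⟧)⟦(1 : ℤ)⟧, h = 0 := by
    intro X hX h
    apply hinj
    rw [← cancel_mono ((R.mapIso ((shiftFunctorAdd' T 1 1 2 (by omega)).app X).symm).hom ≫
      (R.commShiftIso (2 : ℤ)).hom.app X), zero_comp]
    exact hD.her.van _ _ ht.unit_conc hX 2 (by omega) _
  have h1 := PP.induct (P := Pu R H C)
    (fun X => RegDense R τ (X⟦(1 : ℤ)⟧) ∧ Conc H (R.obj X))
    (fun X h => ⟨RegDense.of_zero (fun g =>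
      (R.map_isZero ((shiftFunctor T (1 : ℤ)).map_isZero h)).eq_of_tgt _ _),
      fun n _ => (H.shift n).map_isZero (R.map_isZero h)⟩)
    (fun X h => ?_)
    (fun X X₁ X₂ f g hd h1 h2 => ⟨RegDense.ext hτ hd h1.2 h2.2 (hv _ h1.2) h1.1 h2.1,
        fun n hn => isZero_of_dist H (hd.map R) n (h1.2 n hn) (h2.2 n hn)⟩)
    (fun X Y i p hip h => ⟨RegDense.retract hτ (i⟦(1 : ℤ)⟧') (p⟦(1 : ℤ)⟧') (by
      rw [← Functor.map_comp, hip, CategoryTheory.Functor.map_id]) h.1,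
      conc_retract i p hip h.2⟩) hX
  · exact h1.1
  · refine ⟨?_, h.2⟩
    obtain ⟨⟨n, hn⟩, -⟩ := h
    let e := (shiftFunctorAdd' T n (1 - n) 1 (by omega)).app X
    exact RegDense.retract hτ e.hom e.inv e.hom_inv_id (hd _ hn (1 - n))

/-- Density in degree `1` for iterated extensions. -/
theorem MM.dense {C : T → Prop} (hτ : AbsTop H (R.obj (𝟙_ T)) τ) (hD : DbHer H)
    (ht : Tens R H) (hinj : ∀ (N : T) (x : 𝟙_ T ⟶ N), R.map x = 0 → x = 0)
    (hd : ∀ Y : T, C Y → ∀ n : ℤ, RegDense R τ (Y⟦n⟧)) {X : T} (hX : MM (PP (Pu R H C)) X) :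
    RegDense R τ (X⟦(1 : ℤ)⟧) := by
  have hv : ∀ X : T, Conc H (R.obj X) → ∀ h : 𝟙_ T ⟶ (X⟦(1 : ℤ)⟧)⟦(1 : ℤ)⟧, h = 0 := by
    intro X hX h
    apply hinj
    rw [← cancel_mono ((R.mapIso ((shiftFunctorAdd' T 1 1 2 (by omega)).app X).symm).hom ≫
      (R.commShiftIso (2 : ℤ)).hom.app X), zero_comp]
    exact hD.her.van _ _ ht.unit_conc hX 2 (by omega) _
  induction hX with
  | zero h =>
    exact RegDense.of_zero (fun g =>
      (R.map_isZero ((shiftFunctor T (1 : ℤ)).map_isZero h)).eq_of_tgt _ _)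
  | @ext X Y P f g hdi hX hP ih =>
    have hXc : Conc H (R.obj X) := MM.conc (fun X h => PP.conc h) hX
    exact RegDense.ext hτ hdi hXc hP.conc (hv _ hXc) ih (PP.dense hτ hD ht hinj hd hP)

/-- Density for all finite sums of shifts of iterated extensions. -/
theorem SS.dense {C : T → Prop} (hτ : AbsTop H (R.obj (𝟙_ T)) τ) (hD : DbHer H)
    (ht : Tens R H) (hs : ∀ Y : T, HodgeSurj R H Y)
    (hd : ∀ Y : T, C Y → ∀ n : ℤ, RegDense R τ (Y⟦n⟧)) {X : T}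
    (hX : SS (MM (PP (Pu R H C))) (fun _ => True) X) : RegDense R τ X := by
  have hinj : ∀ (N : T) (x : 𝟙_ T ⟶ N), R.map x = 0 → x = 0 :=
    fun N x => regInj_of_surj ht.unit_end hs N x
  induction hX with
  | zero h => exact RegDense.of_zero (fun g => (R.map_isZero h).eq_of_tgt _ _)
  | @add X B X₁ n _ hB _ e ih =>
    refine RegDense.sum hτ e ?_ ih
    have hBc : Conc H (R.obj B) := MM.conc (fun X h => PP.conc h) hB
    by_cases h1 : n = 1
    · subst h1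
      exact MM.dense hτ hD ht hinj hd hB
    by_cases h0 : n = 0
    · subst h0
      have hB0 : Conc H (R.obj (B⟦(0 : ℤ)⟧)) := fun n hn => isZero_shift hBc 0 n (by omega)
      intro g
      obtain ⟨f, hf⟩ := hs _ ((H.shift (0 : ℤ)).map g)
      have h2 : R.map f = g := by
        rw [← sub_eq_zero]
        apply hD.her.eq_zero ht.unit_conc hB0
        have : (H.shift (0 : ℤ)).Additive := inferInstance
        rw [Functor.map_sub]
        exact sub_eq_zero.mpr hf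
      let _ := τ (R.obj (B⟦(0 : ℤ)⟧))
      exact subset_closure ⟨f, h2⟩
    · apply RegDense.of_zero
      intro g
      rw [← cancel_mono ((R.commShiftIso n).hom.app B), zero_comp]
      exact hD.her.van _ _ ht.unit_conc hBc n (by omega) _

variable [IsTriangulated T] [IsIdempotentComplete T]

/-- The density conjecture for all motives is equivalent to the density and the injectivity of the
regulators of pure motives. -/
theorem dense_iff {C : T → Prop} (hτ : AbsTop H (R.obj (𝟙_ T)) τ) (hD : DbHer H)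
    (ht : Tens R H) (hC : ChowClass R H C) :
    (∀ Y : T, RegDense R τ Y) ↔
      ∀ Y : T, C Y → RegInj R Y ∧ ∀ n : ℤ, RegDense R τ (Y⟦n⟧) := by
  constructor
  · intro h Y _
    exact ⟨fun n f hf => regInj_of_surj ht.unit_end (fun Y => (h Y).hodgeSurj hτ hD) _ f hf,
      fun n => h _⟩
  · intro h Y
    have h0 : ∀ Y, C Y → HodgeSurj R H Y := by
      intro Y hY
      refine RegDense.hodgeSurj hτ hD (RegDense.retract hτ
        ((shiftFunctorZero T ℤ).inv.app Y) ((shiftFunctorZero T ℤ).hom.app Y) ?_ ((h Y hY).2 0))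
      rw [Iso.inv_hom_id_app]
      rfl
    have hs := (surj_iff hD ht hC).2 (fun Y hY => ⟨h0 Y hY, (h Y hY).1⟩)
    obtain ⟨Y', i, p, hY, hip⟩ := hC.gen Y
    refine RegDense.retract hτ i p hip (SS.dense hτ hD ht hs (fun Y hY => (h Y hY).2)
      (gen_ss hD.her hC.chow (fun X Y hX hY => hC.lifts hD ht h0 hX hY)
        (fun X Y hX hY => hC.faith ht (fun Y hY => (h Y hY).1) hX hY)
        (fun X _ => hD.dec _) hY))

end Dens

end Pool.Agent.K4H54.BJ
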