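import Pool.Agent.K4H54.BJ.Dens

/-!
# The bounded derived category of a hereditary abelian category
-/

set_option autoImplicit false
set_option linter.unusedSectionVars false

open CategoryTheory Limits Pretriangulated ZeroObject Triangulated

universe w v'' u''

namespace Pool.Agent.K4H54.BJ

variable (A : Type u'') [Category.{v''} A] [Abelian A] [HasDerivedCategory.{w} A]

/-- The cohomology functor in degree `0` on the bounded derived category. -/
noncomputable abbrev Hb : DerivedCategory.Bounded A ⥤ A :=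
  DerivedCategory.Bounded.ι ⋙ DerivedCategory.homologyFunctor A 0

/-- `Extⁿ(X, Y) = 0` for all `n ≥ 2` and all objects `X`, `Y` of the abelian category. -/
def ExtVan : Prop := ∀ (X Y : A) (n : ℤ), 2 ≤ n →
  ∀ f : (DerivedCategory.singleFunctor A 0).obj X ⟶
    ((DerivedCategory.singleFunctor A 0).obj Y)⟦n⟧, f = 0

variable {A}

theorem conc_ge {X : DerivedCategory.Bounded A} (hX : Conc (Hb A) X) :
    DerivedCategory.IsGE X.obj 0 := by
  rw [DerivedCategory.isGE_iff]
  exact fun i hi => hX i (by omega)

theorem conc_le {X : DerivedCategory.Bounded A} (hX : Conc (Hb A) X) :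
    DerivedCategory.IsLE X.obj 0 := by
  rw [DerivedCategory.isLE_iff]
  exact fun i hi => hX i (by omega)

theorem conc_of {X : DerivedCategory.Bounded A} (h1 : DerivedCategory.IsGE X.obj 0)
    (h2 : DerivedCategory.IsLE X.obj 0) : Conc (Hb A) X := by
  rw [DerivedCategory.isGE_iff] at h1
  rw [DerivedCategory.isLE_iff] at h2
  intro n hn
  rcases lt_or_gt_of_ne hn with h | h
  · exact h1 n h
  · exact h2 n h

theorem conc_single {X : DerivedCategory.Bounded A} (hX : Conc (Hb A) X) :
    ∃ V : A, Nonempty (X.obj ≅ (DerivedCategory.singleFunctor A 0).obj V) := by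
  have := conc_ge hX
  have := conc_le hX
  exact DerivedCategory.exists_iso_singleFunctor_obj_of_isGE_of_isLE X.obj 0

theorem single_bij (V W : A) : Function.Bijective
    (fun f : (DerivedCategory.singleFunctor A 0).obj V ⟶
      (DerivedCategory.singleFunctor A 0).obj W => (DerivedCategory.homologyFunctor A 0).map f) := by
  let η := DerivedCategory.singleFunctorCompHomologyFunctorIso A 0
  have hη : ∀ g : V ⟶ W, (DerivedCategory.homologyFunctor A 0).map
      ((DerivedCategory.singleFunctor A 0).map g) ≫ η.hom.app W = η.hom.app V ≫ g :=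
    fun g => η.hom.naturality g
  constructor
  · intro f₁ f₂ h
    obtain ⟨g₁, rfl⟩ := (DerivedCategory.singleFunctor A 0).map_surjective f₁
    obtain ⟨g₂, rfl⟩ := (DerivedCategory.singleFunctor A 0).map_surjective f₂
    have h' : (DerivedCategory.homologyFunctor A 0).map
        ((DerivedCategory.singleFunctor A 0).map g₁) = (DerivedCategory.homologyFunctor A 0).map
        ((DerivedCategory.singleFunctor A 0).map g₂) := h
    have h1 : η.hom.app V ≫ g₁ = η.hom.app V ≫ g₂ := by rw [← hη, ← hη, h']
    rw [(cancel_epi (η.hom.app V)).1 h1]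
  · intro θ
    refine ⟨(DerivedCategory.singleFunctor A 0).map (η.inv.app V ≫ θ ≫ η.hom.app W), ?_⟩
    change (DerivedCategory.homologyFunctor A 0).map
      ((DerivedCategory.singleFunctor A 0).map (η.inv.app V ≫ θ ≫ η.hom.app W)) = θ
    rw [← cancel_mono (η.hom.app W), hη, Iso.hom_inv_id_app_assoc]

theorem bij_of_iso {X Y : DerivedCategory A} {V W : A}
    (eX : X ≅ (DerivedCategory.singleFunctor A 0).obj V)
    (eY : Y ≅ (DerivedCategory.singleFunctor A 0).obj W) :
    Function.Bijective (fun f : X ⟶ Y => (DerivedCategory.homologyFunctor A 0).map f) := by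
  obtain ⟨h1, h2⟩ := single_bij V W
  constructor
  · intro f g hfg
    have hfg' : (DerivedCategory.homologyFunctor A 0).map f =
      (DerivedCategory.homologyFunctor A 0).map g := hfg
    rw [← cancel_epi eX.inv, ← cancel_mono eY.hom]
    apply h1
    simp only [Functor.map_comp, hfg']
  · intro θ
    obtain ⟨f, hf⟩ := h2 ((DerivedCategory.homologyFunctor A 0).map eX.inv ≫ θ ≫
      (DerivedCategory.homologyFunctor A 0).map eY.hom)
    have hf' : (DerivedCategory.homologyFunctor A 0).map f =
      (DerivedCategory.homologyFunctor A 0).map eX.inv ≫ θ ≫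
      (DerivedCategory.homologyFunctor A 0).map eY.hom := hf
    refine ⟨eX.hom ≫ f ≫ eY.inv, ?_⟩
    change (DerivedCategory.homologyFunctor A 0).map (eX.hom ≫ f ≫ eY.inv) = θ
    rw [Functor.map_comp, Functor.map_comp, hf']
    simp only [Category.assoc]
    rw [← Functor.map_comp, eY.hom_inv_id, ← Functor.map_comp_assoc, eX.hom_inv_id]
    simp

theorem her_bij (X Y : DerivedCategory.Bounded A) (hX : Conc (Hb A) X) (hY : Conc (Hb A) Y) :
    Function.Bijective (fun f : X ⟶ Y => ((Hb A).shift (0 : ℤ)).map f) := by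
  obtain ⟨V, ⟨eX⟩⟩ := conc_single hX
  obtain ⟨W, ⟨eY⟩⟩ := conc_single hY
  have h1 : Function.Bijective (fun f : X ⟶ Y => DerivedCategory.Bounded.ι.map f) :=
    ⟨DerivedCategory.Bounded.ι.map_injective, DerivedCategory.Bounded.ι.map_surjective⟩
  obtain ⟨h2, h3⟩ := Function.Bijective.comp (bij_of_iso eX eY) h1
  exact ⟨fun f g h => h2 h, fun θ => h3 θ⟩

theorem her_van (hA : ExtVan A) : Van (Conc (Hb A)) := by
  intro X Y hX hY n hn f
  obtain ⟨V, ⟨eX⟩⟩ := conc_single hX
  obtain ⟨W, ⟨eY⟩⟩ := conc_single hY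
  apply DerivedCategory.Bounded.ι.map_injective
  rw [Functor.map_zero, ← cancel_epi eX.inv,
    ← cancel_mono ((DerivedCategory.Bounded.ι.commShiftIso n).hom.app Y ≫ eY.hom⟦n⟧'),
    comp_zero, zero_comp]
  rcases hn with hn | hn
  · have h1 : DerivedCategory.TStructure.t.IsGE
        (((DerivedCategory.singleFunctor A 0).obj W)⟦n⟧) (-n) :=
      DerivedCategory.TStructure.t.isGE_shift _ 0 n (-n) (by omega)
    exact DerivedCategory.TStructure.t.zero _ 0 (-n) (by omega)
  · exact hA V W n hn _

/-- Every bounded object with `H^i = 0` outside `[a, a + k)` is a sum of shifts. -/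
theorem her_dec (hA : ExtVan A) (k : ℕ) : ∀ (a : ℤ) (X : DerivedCategory.Bounded A),
    (∀ i, i < a → IsZero (((Hb A).shift i).obj X)) →
    (∀ i, a + k ≤ i → IsZero (((Hb A).shift i).obj X)) →
    SS (Conc (Hb A)) (fun n => 1 - a - k ≤ n) X := by
  induction k with
  | zero =>
    intro a X h1 h2
    apply SS.zero
    have h3 : DerivedCategory.IsGE X.obj 1 → DerivedCategory.IsLE X.obj 0 → IsZero X.obj :=
      fun _ _ => DerivedCategory.TStructure.t.isZero X.obj 0 1
    have h4 : ∀ i, IsZero ((DerivedCategory.homologyFunctor A i).obj X.obj) := fun i => by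
      rcases lt_or_ge i a with h | h
      · exact h1 i h
      · exact h2 i (by simpa using h)
    have h5 : IsZero X.obj := h3
      ((DerivedCategory.isGE_iff X.obj 1).2 (fun i _ => h4 i))
      ((DerivedCategory.isLE_iff X.obj 0).2 (fun i _ => h4 i))
    rw [IsZero.iff_id_eq_zero]
    apply DerivedCategory.Bounded.ι.map_injective
    exact h5.eq_of_src _ _
  | succ k ih =>
    intro a X h1 h2
    obtain ⟨X', X'', hX', hX'', f, g, h, hd⟩ :=
      (DerivedCategory.TStructure.t (C := A)).onBounded.exists_triangle X (a + k - 1) (a + k)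
        (by omega)
    have hX'le : DerivedCategory.IsLE X'.obj (a + k - 1) := ⟨hX'⟩
    have hX''ge : DerivedCategory.IsGE X''.obj (a + k) := ⟨hX''⟩
    rw [DerivedCategory.isLE_iff] at hX'le
    rw [DerivedCategory.isGE_iff] at hX''ge
    have c1 : ∀ i, i < a → IsZero (((Hb A).shift i).obj X') := by
      intro i hi
      have e1 := (Hb A).homologySequence_exact₁ _ hd (i - 1) i (by omega)
      exact e1.isZero_of_both_zeros ((hX''ge (i - 1) (by omega)).eq_of_src _ _)
        ((h1 i hi).eq_of_tgt _ _)
    have c2 : ∀ i, a + k < i → IsZero (((Hb A).shift i).obj X'') := by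
      intro i hi
      have e1 := (Hb A).homologySequence_exact₃ _ hd i (i + 1) (by omega)
      exact e1.isZero_of_both_zeros ((h2 i (by push_cast; omega)).eq_of_src _ _)
        ((hX'le (i + 1) (by omega)).eq_of_tgt _ _)
    have s1 := ih a X' c1 (fun i hi => hX'le i (by omega))
    have hconc : Conc (Hb A) (X''⟦a + k⟧) := by
      intro n hn
      have e : ((Hb A).shift n).obj (X''⟦a + k⟧) ≅ ((Hb A).shift (a + k + n)).obj X'' :=
        ((Hb A).shiftIso (a + k) n (a + k + n) rfl).app X''
      refine IsZero.of_iso ?_ e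
      rcases lt_or_gt_of_ne hn with h | h
      · exact hX''ge _ (by omega)
      · exact c2 _ (by omega)
    let e2 : (X''⟦a + k⟧)⟦-(a + k)⟧ ≅ X'' :=
      (shiftFunctorCompIsoId (DerivedCategory.Bounded A) (a + k) (-(a + k)) (by omega)).app X''
    have s2 : ∀ u : X'' ⟶ X'⟦(1 : ℤ)⟧, u = 0 := by
      have h3 : SS (Conc (Hb A)) (fun n => 1 - a - k + 1 ≤ n) (X'⟦(1 : ℤ)⟧) := by
        clear hd
        clear c1 hX' hX'le f h
        induction s1 with
        | zero h => exact SS.zero ((shiftFunctor _ (1 : ℤ)).map_isZero h)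
        | @add X A Y n hn hA _ e ih =>
          refine SS.add (n := n + 1) (A := A) (by omega) hA ih ?_
          exact (shiftFunctor _ (1 : ℤ)).mapIso e ≪≫ (mapBiprod_iso 1 _ _).some ≪≫
            biprod.mapIso ((shiftFunctorAdd' _ n 1 (n + 1) rfl).app A).symm (Iso.refl _)
      refine h3.hom_right ?_
      intro B n hB hn u
      rw [← cancel_epi e2.hom, comp_zero]
      exact (her_van hA).shift hconc hB (-(a + k)) n (by omega) _
    obtain ⟨eX, -, -⟩ := Dist.split_of (f := f) (g := g) ⟨h, hd⟩ s2
    refine SS.add (n := -(a + k)) (A := X''⟦a + k⟧) (by push_cast; omega) hconc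
      (s1.mono (fun _ h => h) (fun n hn => by push_cast; omega))
      (eX ≪≫ biprod.braiding _ _ ≪≫ biprod.mapIso e2.symm (Iso.refl _))

/-- The bounded derived category of a hereditary abelian category. -/
theorem dbHer (hA : ExtVan A) : DbHer (Hb A) where
  her := ⟨her_bij, her_van hA⟩
  dec := by
    intro X
    obtain ⟨⟨a, ha⟩, ⟨b, hb⟩⟩ := X.property
    have ha' : DerivedCategory.IsGE X.obj a := ha
    have hb' : DerivedCategory.IsLE X.obj b := hb
    rw [DerivedCategory.isGE_iff] at ha'
    rw [DerivedCategory.isLE_iff] at hb'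
    exact (her_dec hA (b + 1 - a).toNat a X (fun i hi => ha' i hi)
      (fun i hi => hb' i (by omega))).mono (fun _ h => h) (fun _ _ => trivial)

end Pool.Agent.K4H54.BJ
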