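import Pool.Agent.K4H54.BJ.Mon

/-!
# Surjectivity for all motives and injectivity for pure motives
-/

set_option autoImplicit false
set_option linter.unusedSectionVars false

open CategoryTheory Limits Pretriangulated ZeroObject MonoidalCategory

universe v u v' u' v'' u''

namespace Pool.Agent.K4H54.BJ

section Gen

variable {T : Type u} [Category.{v} T] [Preadditive T] [HasZeroObject T] [HasShift T ℤ]
  [∀ n : ℤ, (shiftFunctor T n).Additive] [Pretriangulated T]
  {D : Type u'} [Category.{v'} D] [Preadditive D] [HasZeroObject D] [HasShift D ℤ]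
  [∀ n : ℤ, (shiftFunctor D n).Additive] [Pretriangulated D]
  {A : Type u''} [Category.{v''} A] [Abelian A]
  {R : T ⥤ D} [R.CommShift ℤ] [R.IsTriangulated]
  {H : D ⥤ A} [H.ShiftSequence ℤ] [H.IsHomological] {C : T → Prop}

theorem Lifts.retract {X X' Y Y' : T} (i : X ⟶ X') (p : X' ⟶ X) (h : i ≫ p = 𝟙 X)
    (j : Y ⟶ Y') (q : Y' ⟶ Y) (h' : j ≫ q = 𝟙 Y) (hl : Lifts R H X' Y') : Lifts R H X Y := by
  intro φ
  obtain ⟨f, hf⟩ := hl (fun n => ho R H n p ≫ φ n ≫ ho R H n j)
  refine ⟨i ≫ f ≫ q, fun n => ?_⟩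
  rw [ho_comp, ho_comp, hf]
  simp only [Category.assoc]
  rw [← ho_comp, h', ho_id, Category.comp_id, ← Category.assoc, ← ho_comp, h, ho_id,
    Category.id_comp]

theorem Inj0.retract {X X' Y Y' : T} (i : X ⟶ X') (p : X' ⟶ X) (h : i ≫ p = 𝟙 X)
    (j : Y ⟶ Y') (q : Y' ⟶ Y) (h' : j ≫ q = 𝟙 Y) (hl : Inj0 R X' Y') : Inj0 R X Y := by
  intro f hf
  have h1 : p ≫ f ≫ j = 0 := hl _ (by rw [R.map_comp, R.map_comp, hf, zero_comp, comp_zero])
  calc f = (i ≫ p) ≫ f ≫ (j ≫ q) := by rw [h, h', Category.comp_id, Category.id_comp]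
    _ = i ≫ (p ≫ f ≫ j) ≫ q := by simp only [Category.assoc]
    _ = 0 := by rw [h1, zero_comp, comp_zero]

/-- Shifting the source. -/
theorem inj0_shift {X Y W : T} (a : ℤ) (e : W⟦a⟧ ≅ Y) (h : Inj0 R (X⟦a⟧) Y) : Inj0 R X W := by
  intro f hf
  apply (shiftFunctor T a).map_injective
  rw [Functor.map_zero, ← cancel_mono e.hom, zero_comp]
  apply h
  rw [R.map_comp, map_shift, hf, Functor.map_zero]
  simp

theorem inj0_heart {X Y : T} (h : FF R X Y) (hvan : ∀ n : ℤ, (n < 0 ∨ 2 ≤ n) →
      ∀ f : X ⟶ Y⟦n⟧, f = 0) (n : ℤ) : Inj0 R X (Y⟦n⟧) := by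
  intro f hf
  by_cases h0 : n = 0
  · subst h0
    rw [← cancel_mono ((shiftFunctorZero T ℤ).hom.app Y), zero_comp]
    exact h.1 _ (by rw [R.map_comp, hf, zero_comp])
  by_cases h1 : n = 1
  · subst h1
    exact h.2.2 f hf
  exact hvan n (by omega) f

theorem inj0_sum {Q : T → Prop} {X Y : T} (hX : SS Q (fun _ => True) X)
    (hY : SS Q (fun _ => True) Y) (h : ∀ A B, Q A → Q B → ∀ n : ℤ, Inj0 R A (B⟦n⟧)) :
    Inj0 R X Y := by
  have h1 : ∀ (B : T) (n : ℤ), Q B → Inj0 R (B⟦n⟧) Y := by
    intro B n hB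
    induction hY with
    | zero h => exact fun f _ => h.eq_of_tgt _ _
    | @add Y B' Y₁ m _ hB' _ e ih =>
      intro f hf
      rw [← cancel_mono e.hom, zero_comp]
      apply biprod.hom_ext
      · rw [zero_comp]
        have h2 : Inj0 R (B⟦n⟧) (B'⟦m⟧) := by
          intro g hg
          obtain ⟨g', rfl⟩ : ∃ g' : B ⟶ B'⟦m - n⟧,
              g'⟦n⟧' ≫ ((shiftFunctorAdd' T (m - n) n m (by omega)).app B').inv = g := by
            obtain ⟨g', hg'⟩ := (shiftFunctor T n).map_surjective
              (g ≫ ((shiftFunctorAdd' T (m - n) n m (by omega)).app B').hom)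
            exact ⟨g', by rw [hg', Category.assoc, Iso.hom_inv_id, Category.comp_id]⟩
          have h3 : R.map g' = 0 := by
            rw [R.map_comp] at hg
            have h4 : R.map (g'⟦n⟧') = 0 := by
              rw [← cancel_mono (R.map ((shiftFunctorAdd' T (m - n) n m (by omega)).app B').inv),
                hg, zero_comp]
            rw [map_shift] at h4
            apply (shiftFunctor D n).map_injective
            rw [Functor.map_zero]
            have h5 : (R.commShiftIso n).inv.app B ≫ ((R.commShiftIso n).hom.app B ≫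
                (R.map g')⟦n⟧' ≫ (R.commShiftIso n).inv.app (B'⟦m - n⟧)) ≫
                (R.commShiftIso n).hom.app (B'⟦m - n⟧) = 0 := by
              rw [h4, zero_comp, comp_zero]
            simpa using h5
          rw [h B B' hB hB' (m - n) g' h3, Functor.map_zero, zero_comp]
        exact h2 _ (by rw [R.map_comp, R.map_comp, hf, zero_comp, zero_comp])
      · rw [zero_comp]
        exact ih _ (by rw [R.map_comp, R.map_comp, hf, zero_comp, zero_comp])
  induction hX with
  | zero h => exact fun f _ => h.eq_of_src _ _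
  | @add X B X₁ n _ hB _ e ih =>
    intro f hf
    rw [← cancel_epi e.inv, comp_zero]
    apply biprod.hom_ext'
    · rw [comp_zero]
      exact h1 B n hB _ (by rw [R.map_comp, R.map_comp, hf, comp_zero, comp_zero])
    · rw [comp_zero]
      exact ih _ (by rw [R.map_comp, R.map_comp, hf, comp_zero, comp_zero])

end Gen

section Eqv

variable {T : Type u} [Category.{v} T] [Preadditive T] [HasZeroObject T] [HasShift T ℤ]
  [∀ n : ℤ, (shiftFunctor T n).Additive] [Pretriangulated T]
  [MonoidalCategory T] [MonoidalPreadditive T]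
  {D : Type u'} [Category.{v'} D] [Preadditive D] [HasZeroObject D] [HasShift D ℤ]
  [∀ n : ℤ, (shiftFunctor D n).Additive] [Pretriangulated D]
  [MonoidalCategory D] [MonoidalPreadditive D]
  {A : Type u''} [Category.{v''} A] [Abelian A]
  (R : T ⥤ D) [R.CommShift ℤ] [R.IsTriangulated] [R.Monoidal]
  (H : D ⥤ A) [H.ShiftSequence ℤ] [H.IsHomological]

/-- The properties of the bounded derived category `D` of a hereditary abelian category (for
example of mixed Hodge structures), with cohomology functor `H`. -/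
structure DbHer : Prop where
  her : Hereditary H
  dec : ∀ X : D, SS (Conc H) (fun _ => True) X

/-- The unconditional properties of the class `C` of Chow motives. -/
structure ChowClass (C : T → Prop) : Prop where
  chow : Chow R H C
  tensor : ∀ {X Y : T}, C X → C Y → C (X ⊗ Y)
  dual : ∀ {X : T}, C X → ∃ X' : T, C X' ∧ Nonempty (ExactPairing X X')
  gen : ∀ X : T, ∃ (Y : T) (i : X ⟶ Y) (p : Y ⟶ X), Gen C Y ∧ i ≫ p = 𝟙 X

variable {R H} {C : T → Prop}

theorem ChowClass.lifts (hD : DbHer H) (ht : Tens R H) (hC : ChowClass R H C)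
    (hs : ∀ Y, C Y → HodgeSurj R H Y) {X Y : T} (hX : C X) (hY : C Y) : Lifts R H X Y := by
  obtain ⟨X', hX', ⟨e⟩⟩ := hC.dual hX
  exact lifts_of_surj hD.her ht (hD.dec _) (hD.dec _) (hs _ (hC.tensor hY hX'))

theorem ChowClass.faith (ht : Tens R H) (hC : ChowClass R H C)
    (hi : ∀ Y, C Y → RegInj R Y) {X Y : T} (hX : C X) (hY : C Y) : Faith R X Y := by
  obtain ⟨X', hX', ⟨e⟩⟩ := hC.dual hX
  exact faith_of_regInj ht (hi _ (hC.tensor hY hX'))

variable [IsTriangulated T] [IsIdempotentComplete T]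

theorem all_lifts (hD : DbHer H) (ht : Tens R H) (hC : ChowClass R H C)
    (hs : ∀ Y, C Y → HodgeSurj R H Y) (hi : ∀ Y, C Y → RegInj R Y) (X Y : T) :
    Lifts R H X Y := by
  obtain ⟨X', i, p, hX, hip⟩ := hC.gen X
  obtain ⟨Y', j, q, hY, hjq⟩ := hC.gen Y
  exact Lifts.retract i p hip j q hjq (lifts_of_chow hD.her hC.chow
    (fun X Y hX hY => hC.lifts hD ht hs hX hY) (fun X Y hX hY => hC.faith ht hi hX hY)
    (fun X _ => hD.dec _) hX hY)

/-- The surjectivity half of the conjecture for all motives is equivalent to the Hodge conjecture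
for pure motives together with the injectivity of the regulators for pure motives. -/
theorem surj_iff (hD : DbHer H) (ht : Tens R H) (hC : ChowClass R H C) :
    (∀ Y : T, HodgeSurj R H Y) ↔ ∀ Y : T, C Y → HodgeSurj R H Y ∧ RegInj R Y := by
  constructor
  · intro hs Y _
    exact ⟨hs Y, fun n f hf => regInj_of_surj ht.unit_end hs _ f hf⟩
  · intro h Y φ
    obtain ⟨f, hf⟩ := all_lifts hD ht hC (fun Y hY => (h Y hY).1) (fun Y hY => (h Y hY).2)
      (𝟙_ T) Y (Function.update (fun _ => 0) 0 φ)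
    exact ⟨f, by rw [hf, Function.update_self]⟩

end Eqv

end Pool.Agent.K4H54.BJ
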