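import Pool.Agent.K4H54.BJ.Tri

/-!
# The extension closure of a semisimple class of objects
-/

set_option autoImplicit false

open CategoryTheory Limits Pretriangulated ZeroObject

universe v u

namespace Pool.Agent.K4H54.BJ

variable {T : Type u} [Category.{v} T] [Preadditive T] [HasZeroObject T] [HasShift T ℤ]
  [∀ n : ℤ, (shiftFunctor T n).Additive] [Pretriangulated T]

/-- Iterated extensions of objects of `P`. -/
inductive MM (P : T → Prop) : T → Prop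
  | zero {X : T} (h : IsZero X) : MM P X
  | ext {X Y Z : T} (f : X ⟶ Y) (g : Y ⟶ Z) (hd : Dist f g) (hX : MM P X) (hZ : P Z) : MM P Y

/-- A semisimple class of objects: closed under direct summands and finite direct sums; every
morphism is a split epimorphism followed by a split monomorphism; no morphisms of negative
degree. -/
structure Semi (P : T → Prop) : Prop where
  ret : ∀ {X Y : T} (i : X ⟶ Y) (p : Y ⟶ X), i ≫ p = 𝟙 X → P Y → P X
  sum : ∀ {X Y : T}, P X → P Y → P (X ⊞ Y)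
  zero : ∀ {X : T}, IsZero X → P X
  fac : ∀ {X Y : T}, P X → P Y → ∀ γ : X ⟶ Y,
    ∃ (r : T) (a : X ⟶ r) (b : r ⟶ Y) (c : r ⟶ X) (d : Y ⟶ r),
      a ≫ b = γ ∧ c ≫ a = 𝟙 r ∧ b ≫ d = 𝟙 r
  neg : ∀ {X Y : T}, P X → P Y → ∀ f : X⟦(1 : ℤ)⟧ ⟶ Y, f = 0

variable {P : T → Prop}

theorem MM.of_iso {X Y : T} (e : X ≅ Y) (h : MM P X) : MM P Y := by
  cases h with
  | zero h => exact MM.zero (h.of_iso e.symm)
  | ext f g hd hX hZ =>
    exact MM.ext (f ≫ e.hom) (e.inv ≫ g) (hd.of_iso (Iso.refl _) e (Iso.refl _) (by simp)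
      (by simp)) hX hZ

theorem MM.of_P {X : T} (h : P X) : MM P X :=
  MM.ext (0 : 0 ⟶ X) (𝟙 X) (Dist.zero_id X (isZero_zero T)) (MM.zero (isZero_zero T)) h

variable [IsTriangulated T]

theorem MM.ext' {Z : T} (hZ : MM P Z) : ∀ {X Y : T} (f : X ⟶ Y) (g : Y ⟶ Z), Dist f g →
    MM P X → MM P Y := by
  induction hZ with
  | zero h =>
    intro X Y f g hd hX
    have := hd.isIso_of_isZero₃ h
    exact MM.of_iso (asIso f) hX
  | ext f' g' hd' _ hp ih =>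
    intro X Y f g hd hX
    obtain ⟨Y', c, hc⟩ := Dist.exists_fib (g ≫ g')
    obtain ⟨m, n, hmn, -, -⟩ := octF hd hd' hc
    exact MM.ext c (g ≫ g') hc (ih m n hmn hX) hp

theorem MM.sum {X Y : T} (hX : MM P X) (hY : MM P Y) : MM P (X ⊞ Y) :=
  MM.ext' hY _ _ (Dist.biprod X Y) hX

omit [IsTriangulated T] in
theorem MM.neg_left (hP : Semi P) {X : T} (hX : MM P X) {Y : T} (hY : P Y) :
    ∀ f : X⟦(1 : ℤ)⟧ ⟶ Y, f = 0 := by
  induction hX with
  | zero h => exact fun f => ((shiftFunctor T (1 : ℤ)).map_isZero h).eq_of_src _ _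
  | ext f' g' hd' _ hp ih =>
    intro f
    obtain ⟨ψ, rfl⟩ := (hd'.shift 1).desc f (ih _)
    rw [hP.neg hp hY ψ, comp_zero]

/-- A morphism from an iterated extension `A` to a member `q` of `P`: up to an object `A'` of the
same kind it is a split monomorphism. -/
theorem claim1 (hP : Semi P) {A : T} (hA : MM P A) : ∀ {q : T}, P q → ∀ g : A ⟶ q,
    ∃ (A' r : T) (u : A' ⟶ A) (a : A ⟶ r) (b : r ⟶ q) (d : q ⟶ r),
      MM P A' ∧ P r ∧ Dist u a ∧ a ≫ b = g ∧ b ≫ d = 𝟙 r := by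
  induction hA with
  | @zero X h =>
    intro q hq g
    refine ⟨X, 0, 𝟙 X, 0, 0, 0, MM.zero h, hP.zero (isZero_zero T),
      Dist.id_zero X (isZero_zero T), h.eq_of_src _ _, (isZero_zero T).eq_of_src _ _⟩
  | @ext A₁ A p f k hd _ hp ih =>
    intro q hq g
    obtain ⟨A', r₁, u₁, a₁, b₁, d₁, hA', hr₁, hd₁, hg₁, hbd₁⟩ := ih hq (f ≫ g)
    obtain ⟨Ab, κ, hκ⟩ := Dist.exists_cone (u₁ ≫ f)
    obtain ⟨m, n, hmn, c1, c2⟩ := octC hd₁ hd hκ
    obtain ⟨gb, hgb⟩ := hκ.desc g (by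
      rw [Category.assoc, ← hg₁, ← Category.assoc, hd₁.comp_zero, zero_comp])
    have hm : m ≫ gb = b₁ := by
      rw [← sub_eq_zero]
      apply hd₁.eq_zero_of_comp (MM.neg_left hP hA' hq)
      rw [Preadditive.comp_sub, ← Category.assoc, c1, Category.assoc, hgb, hg₁, sub_self]
    have hsp : m ≫ (gb ≫ d₁) = 𝟙 r₁ := by rw [← Category.assoc, hm, hbd₁]
    obtain ⟨e, -, -⟩ := hmn.split_mono _ hsp
    have hAb : P Ab := hP.ret e.hom e.inv e.hom_inv_id (hP.sum hr₁ hp)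
    obtain ⟨r, a₂, b₂, c₂, d₂, h1, h2, h3⟩ := hP.fac hAb hq gb
    obtain ⟨E', β, hβ⟩ := Dist.exists_fib a₂
    obtain ⟨A'', u, hu⟩ := Dist.exists_fib (κ ≫ a₂)
    obtain ⟨m', n', hmn', -, -⟩ := octF hκ hβ hu
    obtain ⟨ρ, hρ⟩ := hβ.retract_of_split_epi c₂ h2
    refine ⟨A'', r, u, κ ≫ a₂, b₂, d₂, MM.ext m' n' hmn' hA' (hP.ret β ρ hρ hAb),
      hP.ret c₂ a₂ h2 hAb, hu, ?_, h3⟩
    rw [Category.assoc, h1, hgb]

/-- `C` is an extension of an object `Q` by `K⟦1⟧`. -/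
def DecC (P : T → Prop) (C : T) : Prop :=
  ∃ (K Q : T) (i : K⟦(1 : ℤ)⟧ ⟶ C) (j : C ⟶ Q), MM P K ∧ MM P Q ∧ Dist i j

/-- The cone of a morphism between iterated extensions. -/
theorem claim2 (hP : Semi P) {B : T} (hB : MM P B) : ∀ {A : T}, MM P A → ∀ (f : A ⟶ B)
    {C : T} (f' : B ⟶ C), Dist f f' → DecC P C := by
  induction hB with
  | @zero B h =>
    intro A hA f C f' hd
    obtain ⟨w, hw⟩ := hd.rotate
    have := hw.isIso_of_isZero₁ h
    exact ⟨A, 0, inv w, 0, hA, MM.zero (isZero_zero T), Dist.of_isIso (inv w) (isZero_zero T)⟩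
  | @ext B₁ B q fB β hdB _ hq ih =>
    intro A hA f C f' hd
    obtain ⟨A', r, u, a, b, d, hA', hr, hua, hab, hbd⟩ := claim1 hP hA hq (f ≫ β)
    obtain ⟨B', b', hb'⟩ := Dist.exists_fib (β ≫ d)
    obtain ⟨q', ι, hι⟩ := Dist.exists_fib d
    obtain ⟨m, n, hmn, c1, c2⟩ := octF hdB hι hb'
    have hu' : Dist u (f ≫ (β ≫ d)) := by
      have : f ≫ (β ≫ d) = a := by
        rw [← Category.assoc, ← hab, Category.assoc, hbd, Category.comp_id]
      rw [this]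
      exact hua
    obtain ⟨m', hm', c3⟩ := octM hd hb' hu'
    obtain ⟨ρ, hρ⟩ := hι.retract_of_split_epi b hbd
    have hz : m' ≫ n = 0 := by
      have h1 : m' ≫ n ≫ ι = 0 := by
        rw [← c2, ← Category.assoc, c3, Category.assoc, ← hab, ← Category.assoc,
          hua.comp_zero, zero_comp]
      rw [← Category.comp_id n, ← hρ, ← Category.assoc n, ← Category.assoc m', h1, zero_comp]
    obtain ⟨f₁, hf₁⟩ := hmn.lift m' hz
    obtain ⟨C', k, hk⟩ := Dist.exists_cone f₁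
    obtain ⟨K, Q, i, j, hK, hQ, hij⟩ := ih hA' f₁ k hk
    have hm'' : Dist (f₁ ≫ m) (b' ≫ f') := by rw [hf₁]; exact hm'
    obtain ⟨μ, ν, hμν, -, -⟩ := octC hk hmn hm''
    obtain ⟨E, l, hl⟩ := Dist.exists_cone (i ≫ μ)
    obtain ⟨x, y, hxy, -, -⟩ := octC hij hμν hl
    exact ⟨K, E, i ≫ μ, l, hK, MM.ext x y hxy hQ (hP.ret ι ρ hρ hq), hl⟩

end Pool.Agent.K4H54.BJ
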