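import Pool.Agent.K4H54.BJ.Sub

/-!
# Sub-objects of the cohomology of motives are motivic
-/

set_option autoImplicit false
set_option linter.unusedSectionVars false

open CategoryTheory Limits Pretriangulated ZeroObject MonoidalCategory

universe v u v' u' v'' u''

namespace Pool.Agent.K4H54.BJ

section NoTensor

variable {T : Type u} [Category.{v} T] [Preadditive T] [HasZeroObject T] [HasShift T ℤ]
  [∀ n : ℤ, (shiftFunctor T n).Additive] [Pretriangulated T]
  {D : Type u'} [Category.{v'} D] [Preadditive D] [HasZeroObject D] [HasShift D ℤ]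
  [∀ n : ℤ, (shiftFunctor D n).Additive] [Pretriangulated D]
  {A : Type u''} [Category.{v''} A] [Abelian A]
  {R : T ⥤ D} [R.CommShift ℤ] [R.IsTriangulated]
  {H : D ⥤ A} [H.ShiftSequence ℤ] [H.IsHomological]

theorem MM.sub {C : T → Prop} (hC : Chow R H C)
    (hS : ∀ X : T, SS (fun B => Conc H (R.obj B)) (fun _ => True) X)
    (hb : ∀ X Y : T, Conc H (R.obj X) → Conc H (R.obj Y) →
      ∀ θ : Ho R H 0 X ⟶ Ho R H 0 Y, ∃ f : X ⟶ Y, ho R H 0 f = θ) {X : T}
    (hX : MM (PP (Pu R H C)) X) : ∀ {V : A} (m : V ⟶ Ho R H 0 X), Mono m → Mot R H V := by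
  induction hX with
  | zero h =>
    intro V m hm
    apply Mot.zero
    rw [IsZero.iff_id_eq_zero, ← cancel_mono m]
    exact ((H.shift (0 : ℤ)).map_isZero (R.map_isZero h)).eq_of_tgt _ _
  | @ext X Y P f g hd hX hP ih =>
    intro V m hm
    have hXc : Conc H (R.obj X) := MM.conc (fun X h => PP.conc h) hX
    have hPc : Conc H (R.obj P) := hP.conc
    obtain ⟨w, hw⟩ := hd.map R
    have hex := H.homologySequence_exact₂ _ hw 0
    have hmono : Mono (ho R H 0 f) :=
      (H.homologySequence_exact₁ _ hw (-1) 0 (by omega)).mono_g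
        ((hPc (-1) (by omega)).eq_of_src _ _)
    have hw0 : ho R H 0 f ≫ ho R H 0 g = 0 := by rw [← ho_comp, hd.comp_zero, ho_zero]
    have hex' : (ShortComplex.mk (ho R H 0 f) (ho R H 0 g) hw0).Exact := hex
    obtain ⟨I, π, ι, hπ, hι, h1⟩ := exists_image (m ≫ ho R H 0 g)
    have hMP : Mot R H (Ho R H 0 P) := mot_ho (hS P) 0
    have hI : Mot R H I := by
      obtain ⟨r, hr⟩ := hP.ssp hC _ ι hι
      have hz : ι ≫ (𝟙 _ - r ≫ ι) = 0 := by
        rw [Preadditive.comp_sub, Category.comp_id, ← Category.assoc, hr, Category.id_comp,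
          sub_self]
      refine Mot.of_iso ?_ (Mot.ker hS hb hMP hMP (𝟙 _ - r ≫ ι))
      refine (limit.isLimit _).conePointUniqueUpToIso (KernelFork.IsLimit.ofι' ι hz ?_)
      intro Z t ht
      refine ⟨t ≫ r, ?_⟩
      rw [Preadditive.comp_sub, Category.comp_id, sub_eq_zero] at ht
      rw [Category.assoc, ← ht]
    have hj : (kernel.ι π ≫ m) ≫ ho R H 0 g = 0 := by
      rw [Category.assoc, ← h1, ← Category.assoc, kernel.condition, zero_comp]
    have hn : hex'.lift _ hj ≫ ho R H 0 f = kernel.ι π ≫ m := hex'.lift_f _ hj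
    have hnm : Mono (hex'.lift _ hj) := mono_of_mono_fac hn
    exact chase (Φ := Mot R H) (fun e h => Mot.of_iso e h)
      (fun f h h' => Mot.ker hS hb h h' f) (fun f h h' => Mot.coker hS hb h h' f)
      (ho R H 0 f) (ho R H 0 g) hw0 hex' m π ι h1 (mot_ho (hS X) 0) (mot_ho (hS Y) 0) hMP hI
      (ih _ hnm)

theorem mono_fst {X X₁ X₂ : T} (e : X ≅ X₁ ⊞ X₂) (i : ℤ) (h : IsZero (Ho R H i X₂)) :
    Mono (ho R H i (e.hom ≫ biprod.fst)) := by
  have h1 : ho R H i (e.hom ≫ biprod.fst) ≫ ho R H i (biprod.inl ≫ e.inv) = 𝟙 _ := by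
    have h2 : ho R H i (e.hom ≫ biprod.snd) = 0 := h.eq_of_tgt _ _
    have h3 : ho R H i ((e.hom ≫ biprod.fst) ≫ (biprod.inl ≫ e.inv) +
      (e.hom ≫ biprod.snd) ≫ (biprod.inr ≫ e.inv)) = 𝟙 _ := by rw [total_iso, ho_id]
    rw [ho_add, ho_comp i (e.hom ≫ biprod.fst), ho_comp i (e.hom ≫ biprod.snd), h2, zero_comp,
      add_zero] at h3
    exact h3
  exact mono_of_mono_fac (h := 𝟙 _) h1

theorem SS.isZero_ho {Q : T → Prop} (hQ : ∀ X, Q X → Conc H (R.obj X)) {P : ℤ → Prop} {i : ℤ}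
    (hP : ¬ P (-i)) {X : T} (hX : SS Q P X) : IsZero (Ho R H i X) := by
  induction hX with
  | zero h => exact (H.shift i).map_isZero (R.map_isZero h)
  | @add X B Y m hm hB _ e ih =>
    refine ho_isZero_iso e.symm (isZero_of_dist H ((Dist.biprod (B⟦m⟧) Y).map R) i
      (isZero_shift (hQ _ hB) m i ?_) ih)
    rintro rfl
    exact hP (by simpa using hm)

end NoTensor

section Tensor

variable {T : Type u} [Category.{v} T] [Preadditive T] [HasZeroObject T] [HasShift T ℤ]
  [∀ n : ℤ, (shiftFunctor T n).Additive] [Pretriangulated T]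
  [MonoidalCategory T] [MonoidalPreadditive T]
  {D : Type u'} [Category.{v'} D] [Preadditive D] [HasZeroObject D] [HasShift D ℤ]
  [∀ n : ℤ, (shiftFunctor D n).Additive] [Pretriangulated D]
  [MonoidalCategory D] [MonoidalPreadditive D]
  {A : Type u''} [Category.{v''} A] [Abelian A]
  {R : T ⥤ D} [R.CommShift ℤ] [R.IsTriangulated] [R.Monoidal]
  {H : D ⥤ A} [H.ShiftSequence ℤ] [H.IsHomological] {C : T → Prop}

section Conv

theorem isIso_of_cons (hD : DbHer H) (hcons : ∀ X : T, IsZero (R.obj X) → IsZero X) {X Y : T}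
    (q : X ⟶ Y) (h : ∀ n : ℤ, IsIso (ho R H n q)) : IsIso q := by
  obtain ⟨Z, g, hg⟩ := Dist.exists_cone q
  have hz : ∀ n : ℤ, IsZero (Ho R H n Z) := by
    intro n
    obtain ⟨w, hw⟩ := hg.map R
    have h1 : Epi (ho R H n q) := inferInstance
    have h2 : Mono (ho R H (n + 1) q) := inferInstance
    have h3 := (H.homologySequence_epi_shift_map_mor₁_iff _ hw n).1 h1
    have h4 := (H.homologySequence_mono_shift_map_mor₁_iff _ hw n (n + 1) rfl).1 h2
    exact (H.homologySequence_exact₃ _ hw n (n + 1) rfl).isZero_of_both_zeros h3 h4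
  have h1 := SS.restrict hD.her (fun _ => False) (hD.dec (R.obj Z)) (fun i _ => hz i)
  have h2 : IsZero (R.obj Z) := by
    cases h1 with
    | zero h => exact h
    | add h => exact h.elim
  exact hg.isIso_of_isZero₃ (hcons Z h2)

/-- Surjectivity from the closure under subobjects. -/
theorem surj_of_sub (hD : DbHer H) (ht : Tens R H)
    (hcons : ∀ X : T, IsZero (R.obj X) → IsZero X)
    (hsub : ∀ (X : T) (V : A) (m : V ⟶ Ho R H 0 X), Mono m → ∃ (N : T) (f : N ⟶ X)
      (e : Ho R H 0 N ≅ V), (∀ j : ℤ, j ≠ 0 → IsZero (Ho R H j N)) ∧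
        ho R H 0 f = e.hom ≫ m) (Y : T) : HodgeSurj R H Y := by
  intro φ
  have hm1 : (ho R H 0 (biprod.inl : 𝟙_ T ⟶ 𝟙_ T ⊞ Y) + φ ≫ ho R H 0 biprod.inr) ≫
      ho R H 0 biprod.fst = 𝟙 _ := by
    rw [Preadditive.add_comp, Category.assoc, ← ho_comp, ← ho_comp, biprod.inl_fst,
      biprod.inr_fst, ho_zero, comp_zero, add_zero, ho_id]
  have hm2 : (ho R H 0 (biprod.inl : 𝟙_ T ⟶ 𝟙_ T ⊞ Y) + φ ≫ ho R H 0 biprod.inr) ≫
      ho R H 0 biprod.snd = φ := by
    rw [Preadditive.add_comp, Category.assoc, ← ho_comp, ← ho_comp, biprod.inl_snd,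
      biprod.inr_snd, ho_zero, zero_add, ho_id, Category.comp_id]
  obtain ⟨N, f, e, hN, hf⟩ := hsub (𝟙_ T ⊞ Y) _ _ (mono_of_mono_fac (h := 𝟙 _) hm1)
  have hq0 : ho R H 0 (f ≫ biprod.fst) = e.hom := by
    rw [ho_comp, hf, Category.assoc, hm1, Category.comp_id]
  have hq : IsIso (f ≫ biprod.fst) := by
    apply isIso_of_cons hD hcons
    intro n
    by_cases hn : n = 0
    · subst hn
      rw [hq0]
      infer_instance
    · exact ⟨0, (hN n hn).eq_of_src _ _, (ht.unit_conc n hn).eq_of_src _ _⟩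
  refine ⟨inv (f ≫ biprod.fst) ≫ f ≫ biprod.snd, ?_⟩
  rw [← cancel_epi (ho R H 0 (f ≫ biprod.fst)), ← ho_comp, IsIso.hom_inv_id_assoc, ho_comp, hf,
    Category.assoc, hm2, hq0]

end Conv

variable [IsTriangulated T] [IsIdempotentComplete T]

theorem all_inj0 (hD : DbHer H) (ht : Tens R H) (hC : ChowClass R H C)
    (hs : ∀ Y, C Y → HodgeSurj R H Y) (hi : ∀ Y, C Y → RegInj R Y) (X Y : T) :
    Inj0 R X Y := by
  have hl : ∀ X Y, C X → C Y → Lifts R H X Y := fun X Y hX hY => hC.lifts hD ht hs hX hY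
  have hf : ∀ X Y, C X → C Y → Faith R X Y := fun X Y hX hY => hC.faith ht hi hX hY
  obtain ⟨X', i, p, hX, hip⟩ := hC.gen X
  obtain ⟨Y', j, q, hY, hjq⟩ := hC.gen Y
  have h1 := gen_ss hD.her hC.chow hl hf (fun X _ => hD.dec _) hX
  have h2 := gen_ss hD.her hC.chow hl hf (fun X _ => hD.dec _) hY
  refine Inj0.retract i p hip j q hjq (inj0_sum h1 h2 ?_)
  intro B B' hB hB' n
  exact inj0_heart (MM.ff (fun X h => PP.conc h) hD.her.van
    (fun X Y => PP.ff hD.her (pu_ff hD.her hC.chow hl hf)) hB hB')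
    (fun n hn f => MM.van (PP.van (pu_van hD.her hf)) _ _ hB hB' n hn f) n

/-- The surjectivity half of the conjecture means that the realization is conservative and that
all subobjects of the cohomology of motives are motivic. -/
theorem surj_iff_sub (hD : DbHer H) (ht : Tens R H) (hC : ChowClass R H C) :
    (∀ Y : T, HodgeSurj R H Y) ↔ (∀ X : T, IsZero (R.obj X) → IsZero X) ∧
      ∀ (X : T) (i : ℤ) (V : A) (m : V ⟶ Ho R H i X), Mono m →
        ∃ (N : T) (f : N ⟶ X) (e : Ho R H i N ≅ V),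
          (∀ j : ℤ, j ≠ i → IsZero (Ho R H j N)) ∧ ho R H i f = e.hom ≫ m := by
  constructor
  · intro hs
    have hs' : ∀ Y, C Y → HodgeSurj R H Y := fun Y _ => hs Y
    have hi' : ∀ Y, C Y → RegInj R Y := fun Y hY => ((surj_iff hD ht hC).1 hs Y hY).2
    have hl : ∀ X Y, Lifts R H X Y := all_lifts hD ht hC hs' hi'
    have hin : ∀ X Y, Inj0 R X Y := all_inj0 hD ht hC hs' hi'
    refine ⟨fun X hX => ?_, fun X i V m hm => ?_⟩
    · rw [IsZero.iff_id_eq_zero]
      apply hin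
      rw [R.map_id]
      exact hX.eq_of_src _ _
    · have hS : ∀ X : T, SS (fun B => Conc H (R.obj B)) (fun _ => True) X := by
        intro X
        obtain ⟨s, h0⟩ := (hD.dec (R.obj X)).support
        exact (decompose (R := R) (Q := fun _ => True) hD.her (fun _ _ _ _ => trivial)
          (fun X _ => hl X X) (fun X _ => hin X X) (fun X _ => hD.dec _) s X trivial h0).mono
            (fun _ h => h.2) (fun _ h => h)
      have hb : ∀ X Y : T, Conc H (R.obj X) → Conc H (R.obj Y) →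
          ∀ θ : Ho R H 0 X ⟶ Ho R H 0 Y, ∃ f : X ⟶ Y, ho R H 0 f = θ := by
        intro X Y _ _ θ
        obtain ⟨f, hf⟩ := hl X Y (Function.update (fun _ => 0) 0 θ)
        exact ⟨f, by rw [hf, Function.update_self]⟩
      have hV : Mot R H V := by
        obtain ⟨X', j, p, hX, hjp⟩ := hC.gen X
        have h1 := gen_ss hD.her hC.chow (fun X Y _ _ => hl X Y)
          (fun X Y hX hY => hC.faith ht hi' hX hY) (fun X _ => hD.dec _) hX
        obtain ⟨B, B', X'', hB, hB', hX'', ⟨e⟩⟩ := extract h1 (fun _ _ => MM.sum) (-i)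
        have hc : ∀ X, MM (PP (Pu R H C)) X → Conc H (R.obj X) :=
          fun X h => MM.conc (fun X h => PP.conc h) h
        have m1 : Mono (ho R H i j) := by
          have : ho R H i j ≫ ho R H i p = 𝟙 _ := by rw [← ho_comp, hjp, ho_id]
          exact mono_of_mono_fac (h := 𝟙 _) this
        have m2 : Mono (ho R H i (e.hom ≫ biprod.fst)) :=
          mono_fst e i (SS.isZero_ho hc (i := i) (by simp) hX'')
        have m3 : Mono (ho R H i ((biprod.braiding (B⟦-i - 1⟧) (B'⟦-i⟧)).hom ≫ biprod.fst)) :=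
          mono_fst (biprod.braiding _ _) i (isZero_shift (hc _ hB) _ i (by omega))
        obtain ⟨γ, -⟩ := exists_gsh R H (-i) i 0 (by omega)
        refine MM.sub hC.chow hS hb hB' (m ≫ ho R H i j ≫ ho R H i (e.hom ≫ biprod.fst) ≫
          ho R H i ((biprod.braiding (B⟦-i - 1⟧) (B'⟦-i⟧)).hom ≫ biprod.fst) ≫ (γ B').hom) ?_
        infer_instance
      obtain ⟨N, hN, ⟨e⟩⟩ := hV
      obtain ⟨γ, -⟩ := exists_gsh R H (-i) i 0 (by omega)
      obtain ⟨f, hf⟩ := hl (N⟦-i⟧) X (Function.update (fun _ => 0) i (((γ N) ≪≫ e).hom ≫ m))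
      exact ⟨N⟦-i⟧, f, γ N ≪≫ e, fun j hj => isZero_shift hN (-i) j (by omega), by
        rw [hf, Function.update_self]⟩
  · rintro ⟨hcons, hsub⟩
    exact surj_of_sub hD ht hcons (fun X V m hm => hsub X 0 V m hm)

end Tensor

end Pool.Agent.K4H54.BJ
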