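import Pool.Agent.K4H54.BJ.Chow

/-!
# All motives are sums of shifts of iterated extensions of pure motives
-/

set_option autoImplicit false
set_option linter.unusedSectionVars false

open CategoryTheory Limits Pretriangulated ZeroObject

universe v u v' u' v'' u''

namespace Pool.Agent.K4H54.BJ

/-- Lifting idempotents. -/
theorem idem_lift {S : Type*} [Ring S] (x : S) (h : (x * x - x) * (x * x - x) = 0) :
    (x * x + x * x + x * x - x * x * x - x * x * x) *
      (x * x + x * x + x * x - x * x * x - x * x * x) =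
      x * x + x * x + x * x - x * x * x - x * x * x := by
  rw [← sub_eq_zero]
  have : (x * x + x * x + x * x - x * x * x - x * x * x) *
      (x * x + x * x + x * x - x * x * x - x * x * x) -
      (x * x + x * x + x * x - x * x * x - x * x * x) =
      ((x * x - x) * (x * x - x)) * (4 * (x * x) - 4 * x - 3) := by noncomm_ring
  rw [this, h, zero_mul]

variable {T : Type u} [Category.{v} T] [Preadditive T] [HasZeroObject T] [HasShift T ℤ]
  [∀ n : ℤ, (shiftFunctor T n).Additive] [Pretriangulated T]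
  {D : Type u'} [Category.{v'} D] [Preadditive D] [HasZeroObject D] [HasShift D ℤ]
  [∀ n : ℤ, (shiftFunctor D n).Additive] [Pretriangulated D]
  {A : Type u''} [Category.{v''} A] [Abelian A]
  {R : T ⥤ D} [R.CommShift ℤ] [R.IsTriangulated]
  {H : D ⥤ A} [H.ShiftSequence ℤ] [H.IsHomological] {C : T → Prop}

theorem ho_sub (n : ℤ) {X Y : T} (f g : X ⟶ Y) :
    ho R H n (f - g) = ho R H n f - ho R H n g := by
  have : (H.shift n).Additive := inferInstance
  simp [ho, Functor.map_sub]

/-- Injectivity of the realization after shifts. -/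
theorem faith_transfer {X Y W : T} (a b m : ℤ) (e : W⟦a⟧ ≅ (Y⟦b⟧)⟦m⟧)
    (hf : Faith R (X⟦a⟧) (Y⟦b⟧)) (f : X ⟶ W) (h : R.map f = 0) : f = 0 := by
  apply (shiftFunctor T a).map_injective
  rw [Functor.map_zero, ← cancel_mono e.hom, zero_comp]
  apply hf m
  rw [R.map_comp, map_shift, h, Functor.map_zero]
  simp

theorem Faith.inj0 {X Y : T} (hf : Faith R X Y) : Inj0 R X Y := by
  intro f h
  rw [← cancel_mono ((shiftFunctorZero T ℤ).inv.app Y), zero_comp]
  exact hf 0 (f ≫ (shiftFunctorZero T ℤ).inv.app Y) (by rw [R.map_comp, h, zero_comp])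

theorem pu_faith (hf : ∀ X Y, C X → C Y → Faith R X Y) {X Y : T} (hX : Pu R H C X)
    (hY : Pu R H C Y) (n : ℤ) (f : X ⟶ Y⟦n⟧) (h : R.map f = 0) : f = 0 := by
  obtain ⟨⟨a, ha⟩, -⟩ := hX
  obtain ⟨⟨b, hb⟩, -⟩ := hY
  exact faith_transfer a b (n + a - b)
    ((shiftFunctorAdd' T n a (n + a) rfl).symm.app Y ≪≫
      (shiftFunctorAdd' T b (n + a - b) (n + a) (by omega)).app Y) (hf _ _ ha hb) f h

theorem pu_van (hH : Hereditary H) (hf : ∀ X Y, C X → C Y → Faith R X Y) :
    Van (Pu R H C) := by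
  intro X Y hX hY n hn f
  apply pu_faith hf hX hY
  rw [← cancel_mono ((R.commShiftIso n).hom.app Y), zero_comp]
  exact hH.van _ _ hX.2 hY.2 n hn _

theorem pu_ff (hH : Hereditary H) (hC : Chow R H C)
    (hl : ∀ X Y, C X → C Y → Lifts R H X Y) (hf : ∀ X Y, C X → C Y → Faith R X Y) :
    ∀ X Y, Pu R H C X → Pu R H C Y → FF R X Y := by
  intro X Y hX hY
  have h0 : Inj0 R X Y := by
    intro f h
    obtain ⟨⟨a, ha⟩, -⟩ := hX
    obtain ⟨⟨b, hb⟩, -⟩ := hY
    exact faith_transfer a b (a - b) ((shiftFunctorAdd' T b (a - b) a (by omega)).app Y)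
      (hf _ _ ha hb) f h
  refine ⟨h0, ?_, fun f h => pu_faith hf hX hY 1 f h⟩
  intro φ
  have h1 : ∃ f : X ⟶ Y, ho R H 0 f = (H.shift (0 : ℤ)).map φ := by
    obtain ⟨⟨a, ha⟩, -⟩ := hX
    obtain ⟨⟨b, hb⟩, -⟩ := hY
    by_cases hab : a = b
    · subst hab
      exact lift_of_lifts_shift a (hl _ _ ha hb) _
    · obtain ⟨γ, -⟩ := exists_gsh R H a (-a) 0 (by omega)
      obtain ⟨δ, -⟩ := exists_gsh R H b (-b) 0 (by omega)
      refine ⟨0, ?_⟩
      rw [ho_zero]
      have h2 := hC.weight ha hb (-a) (-b) (by omega)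
        ((γ X).hom ≫ (H.shift (0 : ℤ)).map φ ≫ (δ Y).inv)
      rw [← cancel_epi (γ X).hom, ← cancel_mono (δ Y).inv]
      simp only [Category.assoc, comp_zero, zero_comp]
      exact h2.symm
  obtain ⟨f, hf'⟩ := h1
  refine ⟨f, ?_⟩
  rw [← sub_eq_zero]
  apply hH.eq_zero hX.2 hY.2
  have : (H.shift (0 : ℤ)).Additive := inferInstance
  rw [Functor.map_sub]
  exact sub_eq_zero.mpr hf'

/-- Splitting along an idempotent. -/
theorem split_two [IsIdempotentComplete T] {X : T} (e : X ⟶ X) (he : e ≫ e = e) :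
    ∃ (r r' : T) (c : r ⟶ X) (a : X ⟶ r) (c' : r' ⟶ X) (a' : X ⟶ r'), c ≫ a = 𝟙 r ∧
      c' ≫ a' = 𝟙 r' ∧ a ≫ c = e ∧ a' ≫ c' = 𝟙 X - e ∧ Nonempty (X ≅ r ⊞ r') := by
  obtain ⟨r, c, a, h1, h2⟩ := IsIdempotentComplete.idempotents_split X e he
  obtain ⟨r', c', a', h3, h4⟩ := IsIdempotentComplete.idempotents_split X (𝟙 X - e) (by
    simp only [Preadditive.sub_comp, Preadditive.comp_sub, Category.id_comp, Category.comp_id, he]
    abel)
  refine ⟨r, r', c, a, c', a', h1, h3, h2, h4, ⟨⟨biprod.lift a a', biprod.desc c c', ?_, ?_⟩⟩⟩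
  · rw [biprod.lift_desc, h2, h4]
    abel
  · have h5 : c ≫ a' = 0 := by
      calc c ≫ a' = (c ≫ a) ≫ c ≫ a' ≫ (c' ≫ a') := by
            rw [h1, h3, Category.comp_id, Category.id_comp]
        _ = c ≫ (a ≫ c) ≫ (a' ≫ c') ≫ a' := by simp only [Category.assoc]
        _ = 0 := by
          rw [h2, h4, ← Category.assoc e, Preadditive.comp_sub, Category.comp_id, he, sub_self,
            zero_comp, comp_zero]
    have h6 : c' ≫ a = 0 := by
      calc c' ≫ a = (c' ≫ a') ≫ c' ≫ a ≫ (c ≫ a) := by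
            rw [h1, h3, Category.comp_id, Category.id_comp]
        _ = c' ≫ (a' ≫ c') ≫ (a ≫ c) ≫ a := by simp only [Category.assoc]
        _ = 0 := by
          rw [h2, h4, ← Category.assoc (𝟙 X - e), Preadditive.sub_comp, Category.id_comp, he,
            sub_self, zero_comp, comp_zero]
    apply biprod.hom_ext'
    · apply biprod.hom_ext
      · simp [h1]
      · simp [h5]
    · apply biprod.hom_ext
      · simp [h6]
      · simp [h3]

/-- Decomposition according to the degree of the cohomology: `X` is a sum of shifts of objects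
with cohomology in degree `0`. -/
theorem decompose [IsIdempotentComplete T] (hH : Hereditary H) {Q : T → Prop}
    (hQ : ∀ {X Y : T} (i : X ⟶ Y) (p : Y ⟶ X), i ≫ p = 𝟙 X → Q Y → Q X)
    (hl : ∀ X, Q X → Lifts R H X X) (hf : ∀ X, Q X → Inj0 R X X)
    (hdec : ∀ X, Q X → SS (Conc H) (fun _ => True) (R.obj X)) (s : Finset ℤ) :
    ∀ X, Q X → (∀ n ∉ s, IsZero (Ho R H n X)) →
      SS (fun X => (∃ n : ℤ, Q (X⟦n⟧)) ∧ Conc H (R.obj X)) (fun _ => True) X := by
  have hsq : ∀ X, Q X → ∀ y : X ⟶ X, (∀ n, ho R H n y = 0) → y ≫ y = 0 := by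
    intro X hX y hy
    apply hf X hX
    rw [R.map_comp]
    exact hH.comp_eq_zero (hdec X hX) (hdec X hX) (hdec X hX) _ _ hy hy
  induction s using Finset.induction_on with
  | empty =>
    intro X hX h
    apply SS.zero
    rw [IsZero.iff_id_eq_zero, ← Category.id_comp (𝟙 X)]
    exact hsq X hX _ (fun n => (h n (by simp)).eq_of_src _ _)
  | insert i s hi ih =>
    intro X hX h
    obtain ⟨x, hx⟩ := hl X hX (Function.update (fun _ => 0) i (𝟙 _))
    have hxi : ho R H i x = 𝟙 _ := by rw [hx, Function.update_self]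
    have hxn : ∀ n, n ≠ i → ho R H n x = 0 := by
      intro n hn
      rw [hx, Function.update_of_ne hn]
    have hy := hsq X hX (x ≫ x - x) (by
      intro n
      rw [ho_sub, ho_comp]
      by_cases hn : n = i
      · subst hn
        rw [hxi, Category.comp_id, sub_self]
      · rw [hxn n hn, zero_comp, sub_self])
    set e : X ⟶ X := x ≫ x + x ≫ x + x ≫ x - x ≫ x ≫ x - x ≫ x ≫ x with he
    have hee : e ≫ e = e := idem_lift (S := End X) x hy
    have hei : ho R H i e = 𝟙 _ := by
      rw [he, ho_sub, ho_sub, ho_add, ho_add, ho_comp, ho_comp, ho_comp, hxi]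
      simp
    have hen : ∀ n, n ≠ i → ho R H n e = 0 := by
      intro n hn
      rw [he, ho_sub, ho_sub, ho_add, ho_add, ho_comp, ho_comp, hxn n hn]
      simp
    obtain ⟨r, r', c, a, c', a', h1, h2, h3, h4, ⟨eX⟩⟩ := split_two e hee
    have hr : ∀ n, n ≠ i → IsZero (Ho R H n r) := by
      intro n hn
      rw [IsZero.iff_id_eq_zero, ← ho_id, ← h1]
      calc ho R H n (c ≫ a) = ho R H n ((c ≫ a) ≫ (c ≫ a)) := by rw [h1, Category.id_comp]
        _ = ho R H n (c ≫ (a ≫ c) ≫ a) := by simp only [Category.assoc]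
        _ = 0 := by rw [h3, ho_comp, ho_comp, hen n hn, zero_comp, comp_zero]
    have hr' : ∀ n ∉ s, IsZero (Ho R H n r') := by
      intro n hn
      by_cases hni : n = i
      · subst hni
        rw [IsZero.iff_id_eq_zero, ← ho_id, ← h2]
        calc ho R H n (c' ≫ a') = ho R H n ((c' ≫ a') ≫ (c' ≫ a')) := by rw [h2, Category.id_comp]
          _ = ho R H n (c' ≫ (a' ≫ c') ≫ a') := by simp only [Category.assoc]
          _ = 0 := by rw [h4, ho_comp, ho_comp, ho_sub, hei, ho_id, sub_self, zero_comp, comp_zero]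
      · exact isZero_of_retract (ho R H n c') (ho R H n a') (by rw [← ho_comp, h2, ho_id])
          (h n (by rw [Finset.mem_insert, not_or]; exact ⟨hni, hn⟩))
    have hQr := hQ c a h1 hX
    have hQr' := hQ c' a' h2 hX
    let u := (shiftFunctorCompIsoId T i (-i) (by omega)).app r
    refine SS.add (n := -i) (A := r⟦i⟧) trivial ⟨⟨-i, ?_⟩, ?_⟩ (ih r' hQr' hr')
      (eX ≪≫ biprod.mapIso u.symm (Iso.refl _))
    · exact hQ u.hom u.inv u.hom_inv_id hQr
    · intro n hn
      obtain ⟨γ, -⟩ := exists_gsh R H i n (i + n) rfl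
      exact (hr (i + n) (by omega)).of_iso (γ r)

/-- Objects built from the shifts of the members of `C` by extensions. -/
inductive Gen (C : T → Prop) : T → Prop
  | zero {X : T} (h : IsZero X) : Gen C X
  | ext {X Y Q : T} {n : ℤ} (f : X ⟶ Y) (g : Y ⟶ Q⟦n⟧) (hd : Dist f g) (hX : Gen C X)
      (hQ : C Q) : Gen C Y

theorem SS.shift {Q : T → Prop} {X : T} (h : SS Q (fun _ => True) X) (k : ℤ) :
    SS Q (fun _ => True) (X⟦k⟧) := by
  induction h with
  | zero h => exact SS.zero ((shiftFunctor T k).map_isZero h)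
  | @add X B Y n _ hB _ e ih =>
    exact SS.add (n := n + k) (A := B) trivial hB ih
      ((shiftFunctor T k).mapIso e ≪≫ (mapBiprod_iso k _ _).some ≪≫
        biprod.mapIso ((shiftFunctorAdd' T n k (n + k) rfl).app B).symm (Iso.refl _))

variable [IsTriangulated T] [IsIdempotentComplete T]

/-- Every object built from Chow motives is a sum of shifts of iterated extensions of pure
objects. -/
theorem gen_ss (hH : Hereditary H) (hC : Chow R H C)
    (hl : ∀ X Y, C X → C Y → Lifts R H X Y) (hf : ∀ X Y, C X → C Y → Faith R X Y)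
    (hdec : ∀ X, C X → SS (Conc H) (fun _ => True) (R.obj X)) {X : T} (hX : Gen C X) :
    SS (MM (PP (Pu R H C))) (fun _ => True) X := by
  have hP := PP.semi hH hC (pu_ff hH hC hl hf) (pu_van hH hf)
  induction hX with
  | zero h => exact SS.zero h
  | @ext X Y Q n f g hd _ hQ ih =>
    obtain ⟨s, hs⟩ := (hdec Q hQ).support
    have h1 := decompose hH (fun i p h h' => hC.ret i p h h') (fun X h => hl X X h h)
      (fun X h => (hf X X h h).inj0) hdec s Q hQ hs
    have h2 : SS (MM (PP (Pu R H C))) (fun _ => True) (Q⟦n⟧) :=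
      (h1.mono (fun X h => MM.of_P (PP.of h)) (fun _ h => h)).shift n
    exact SS.ext hP (PP.van (pu_van hH hf)) h2 f g hd ih

/-- From pure motives to all motives. -/
theorem lifts_of_chow (hH : Hereditary H) (hC : Chow R H C)
    (hl : ∀ X Y, C X → C Y → Lifts R H X Y) (hf : ∀ X Y, C X → C Y → Faith R X Y)
    (hdec : ∀ X, C X → SS (Conc H) (fun _ => True) (R.obj X)) {X Y : T} (hX : Gen C X)
    (hY : Gen C Y) : Lifts R H X Y := by
  have h1 := gen_ss hH hC hl hf hdec hX
  have h2 := gen_ss hH hC hl hf hdec hY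
  have hc : ∀ X, MM (PP (Pu R H C)) X → Conc H (R.obj X) :=
    fun X h => MM.conc (fun X h => PP.conc h) h
  refine SS.lifts hc ?_ h1 h2
  intro X Y hX hY
  exact FF.lift hH (hc _ hX) (hc _ hY)
    (MM.ff (fun X h => PP.conc h) hH.van (fun X Y => PP.ff hH (pu_ff hH hC hl hf)) hX hY)

end Pool.Agent.K4H54.BJ
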