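import Pool.Agent.K4H54.BJ.Main

/-!
# Duality: from morphisms out of the unit to all morphisms
-/

set_option autoImplicit false
set_option linter.unusedSectionVars false

open CategoryTheory Limits Pretriangulated ZeroObject MonoidalCategory
open Functor.LaxMonoidal Functor.OplaxMonoidal

universe v u v' u' v'' u''

namespace Pool.Agent.K4H54.BJ

section Mon

variable {T : Type u} [Category.{v} T] [MonoidalCategory T]
  {D : Type u'} [Category.{v'} D] [MonoidalCategory D] (R : T ⥤ D) [R.Monoidal]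

/-- The morphism `R X ⟶ R Y` attached to a morphism `R 𝟙 ⟶ R (Y ⊗ X')`. -/
noncomputable def bk {X X' : T} [ExactPairing X X'] (Y : T)
    (f : R.obj (𝟙_ T) ⟶ R.obj (Y ⊗ X')) : R.obj X ⟶ R.obj Y :=
  R.map (λ_ X).inv ≫ δ R (𝟙_ T) X ≫ f ▷ R.obj X ≫ μ R (Y ⊗ X') X ≫
    R.map ((α_ Y X' X).hom ≫ Y ◁ ε_ X X' ≫ (ρ_ Y).hom)

/-- The morphism `R 𝟙 ⟶ R (Y ⊗ X')` attached to a morphism `R X ⟶ R Y`. -/
noncomputable def fw {X X' : T} [ExactPairing X X'] (Y : T)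
    (ψ : R.obj X ⟶ R.obj Y) : R.obj (𝟙_ T) ⟶ R.obj (Y ⊗ X') :=
  R.map (η_ X X') ≫ δ R X X' ≫ ψ ▷ R.obj X' ≫ μ R Y X'

theorem bk_map {X X' : T} [ExactPairing X X'] (Y : T) (f : 𝟙_ T ⟶ Y ⊗ X') :
    bk R Y (R.map f) = R.map ((λ_ X).inv ≫ (tensorRightHomEquiv (𝟙_ T) X X' Y).symm f) := by
  simp only [bk, tensorRightHomEquiv, Equiv.coe_fn_symm_mk, Functor.map_comp]
  rw [Functor.Monoidal.map_whiskerRight]
  simp only [Category.assoc]

theorem bk_fw {X X' : T} [ExactPairing X X'] (Y : T) (ψ : R.obj X ⟶ R.obj Y) :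
    bk R Y (fw R (X' := X') Y ψ) = ψ := by
  have h1 : δ R (𝟙_ T) X ≫ R.map (η_ X X') ▷ R.obj X = R.map (η_ X X' ▷ X) ≫ δ R (X ⊗ X') X :=
    (δ_natural_left R (η_ X X') X)
  have h2 : δ R (X ⊗ X') X ≫ δ R X X' ▷ R.obj X =
      R.map (α_ X X' X).hom ≫ δ R X (X' ⊗ X) ≫ R.obj X ◁ δ R X' X ≫ (α_ _ _ _).inv :=
    δ_comp_δ_whiskerRight R X X' X
  have h3 : μ R Y X' ▷ R.obj X ≫ μ R (Y ⊗ X') X =
      (α_ _ _ _).hom ≫ R.obj Y ◁ μ R X' X ≫ μ R Y (X' ⊗ X) ≫ R.map (α_ Y X' X).inv :=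
    μ_whiskerRight_comp_μ R Y X' X
  have h4 : μ R Y (X' ⊗ X) ≫ R.map (Y ◁ ε_ X X') = R.obj Y ◁ R.map (ε_ X X') ≫ μ R Y (𝟙_ T) :=
    (μ_natural_right R Y (ε_ X X')).symm
  have h5 : R.obj X ◁ δ R X' X ≫ ψ ▷ (R.obj X' ⊗ R.obj X) ≫ R.obj Y ◁ μ R X' X =
      ψ ▷ R.obj (X' ⊗ X) := by
    rw [whisker_exchange_assoc, Functor.Monoidal.whiskerLeft_δ_μ, Category.comp_id]
  have h6 : δ R X (X' ⊗ X) ≫ R.obj X ◁ R.map (ε_ X X') = R.map (X ◁ ε_ X X') ≫ δ R X (𝟙_ T) :=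
    δ_natural_right R X (ε_ X X')
  have h7 : (α_ (R.obj X) (R.obj X') (R.obj X)).inv ≫ (ψ ▷ R.obj X') ▷ R.obj X ≫
      (α_ (R.obj Y) (R.obj X') (R.obj X)).hom = ψ ▷ (R.obj X' ⊗ R.obj X) := by
    simp
  have h8 : R.map (ρ_ X).inv ≫ δ R X (𝟙_ T) ≫ ψ ▷ R.obj (𝟙_ T) ≫ μ R Y (𝟙_ T) ≫
      R.map (ρ_ Y).hom = ψ := by
    rw [Functor.Monoidal.map_rightUnitor, Functor.Monoidal.map_rightUnitor_inv]
    simp only [Category.assoc, Functor.Monoidal.μ_δ_assoc]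
    rw [whisker_exchange_assoc]
    simp
  simp only [bk, fw, comp_whiskerRight, Category.assoc, Functor.map_comp]
  rw [reassoc_of% h1, reassoc_of% h2, reassoc_of% h3, ← R.map_comp_assoc (α_ Y X' X).inv,
    Iso.inv_hom_id, R.map_id, Category.id_comp, reassoc_of% h4, reassoc_of% h7, reassoc_of% h5,
    ← whisker_exchange_assoc, reassoc_of% h6, ← R.map_comp_assoc, ← R.map_comp_assoc,
    ← R.map_comp_assoc]
  have h9 : (λ_ X).inv ≫ η_ X X' ▷ X ≫ (α_ X X' X).hom ≫ X ◁ ε_ X X' = (ρ_ X).inv := by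
    simp
  simp only [Category.assoc]
  rw [h9, h8]

end Mon

section Setting

variable {T : Type u} [Category.{v} T] [Preadditive T] [HasZeroObject T] [HasShift T ℤ]
  [∀ n : ℤ, (shiftFunctor T n).Additive] [Pretriangulated T]
  [MonoidalCategory T] [MonoidalPreadditive T]
  {D : Type u'} [Category.{v'} D] [Preadditive D] [HasZeroObject D] [HasShift D ℤ]
  [∀ n : ℤ, (shiftFunctor D n).Additive] [Pretriangulated D]
  [MonoidalCategory D] [MonoidalPreadditive D]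
  {A : Type u''} [Category.{v''} A] [Abelian A]
  (R : T ⥤ D) [R.CommShift ℤ] [R.IsTriangulated]
  (H : D ⥤ A) [H.ShiftSequence ℤ] [H.IsHomological]

/-- Every morphism `H⁰(𝟙) ⟶ H⁰(Y)` comes from a morphism `𝟙 ⟶ Y`. For `Y = M(X)^∨(j)[i]` this is
the surjectivity of motivic cohomology `H^i_M(X, ℚ(j))` onto `Hg^{i,j}(X)`. -/
def HodgeSurj (Y : T) : Prop :=
  ∀ φ : Ho R H 0 (𝟙_ T) ⟶ Ho R H 0 Y, ∃ f : 𝟙_ T ⟶ Y, ho R H 0 f = φ

/-- The regulators `Hom(𝟙, Y⟦n⟧) ⟶ Hom(R 𝟙, R (Y⟦n⟧))` are injective for all `n`. -/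
def RegInj (Y : T) : Prop := ∀ (n : ℤ) (f : 𝟙_ T ⟶ Y⟦n⟧), R.map f = 0 → f = 0

/-- The compatibilities of the tensor products, the shifts and the realization. -/
structure Tens : Prop where
  /-- the realization of the unit is concentrated in degree `0` -/
  unit_conc : Conc H (R.obj (𝟙_ T))
  /-- endomorphisms of the unit are detected by cohomology -/
  unit_end : ∀ e : 𝟙_ T ⟶ 𝟙_ T, ho R H 0 e = 0 → e = 0
  /-- Künneth: if `f` induces zero on cohomology, so does `f ⊗ W` -/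
  kunneth : ∀ {V Z : D} (f : V ⟶ Z), (∀ n : ℤ, (H.shift n).map f = 0) →
    ∀ (W : D) (n : ℤ), (H.shift n).map (f ▷ W) = 0
  /-- the tensor product commutes with shifts -/
  shift_tensor : ∀ (X Y : T) (n : ℤ), Nonempty ((X⟦n⟧) ⊗ Y ≅ (X ⊗ Y)⟦n⟧)

variable {R H}

/-- Surjectivity for all objects implies injectivity of all regulators. -/
theorem regInj_of_surj (hu : ∀ e : 𝟙_ T ⟶ 𝟙_ T, ho R H 0 e = 0 → e = 0)
    (hs : ∀ Y : T, HodgeSurj R H Y) (N : T) (x : 𝟙_ T ⟶ N) (hx : R.map x = 0) : x = 0 := by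
  obtain ⟨F, u, hu'⟩ := Dist.exists_fib x
  obtain ⟨σ, hσ⟩ := (hu'.map R).lift (𝟙 _) (by rw [hx, comp_zero])
  obtain ⟨s, hs'⟩ := hs F ((H.shift (0 : ℤ)).map σ)
  have h1 : s ≫ u - 𝟙 _ = 0 := by
    apply hu
    rw [ho_sub, ho_comp, hs', ho_id, ← Functor.map_comp, hσ, CategoryTheory.Functor.map_id,
      sub_self]
  rw [sub_eq_zero] at h1
  rw [← Category.id_comp x, ← h1, Category.assoc, hu'.comp_zero, comp_zero]

theorem map_whiskerRight_zero [R.Monoidal] {X Y : T} (f : X ⟶ Y) (h : R.map f = 0) (Z : T) :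
    R.map (f ▷ Z) = 0 := by
  rw [Functor.Monoidal.map_whiskerRight, h, MonoidalPreadditive.zero_whiskerRight, zero_comp,
    comp_zero]

/-- Injectivity on all morphisms from injectivity of the regulators. -/
theorem faith_of_regInj [R.Monoidal] (ht : Tens R H) {X X' Y : T} [ExactPairing X X']
    (h : RegInj R (Y ⊗ X')) : Faith R X Y := by
  intro n f hf
  obtain ⟨e⟩ := ht.shift_tensor Y X' n
  have h1 : tensorRightHomEquiv (𝟙_ T) X X' (Y⟦n⟧) ((λ_ X).hom ≫ f) = 0 := by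
    rw [← cancel_mono e.hom, zero_comp]
    apply h n
    simp only [tensorRightHomEquiv, Equiv.coe_fn_mk, R.map_comp]
    rw [map_whiskerRight_zero ((λ_ X).hom ≫ f) (by rw [R.map_comp, hf, comp_zero])]
    simp
  have h2 : (λ_ X).hom ≫ f = 0 := by
    apply (tensorRightHomEquiv (𝟙_ T) X X' (Y⟦n⟧)).injective
    rw [h1]
    simp [tensorRightHomEquiv]
  rwa [← cancel_epi (λ_ X).hom, comp_zero]

theorem bk_sub [R.Monoidal] {X X' : T} [ExactPairing X X'] (Y : T)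
    (f g : R.obj (𝟙_ T) ⟶ R.obj (Y ⊗ X')) : bk R (X := X) Y (f - g) =
      R.map (λ_ X).inv ≫ δ R (𝟙_ T) X ≫ (f - g) ▷ R.obj X ≫ μ R (Y ⊗ X') X ≫
    R.map ((α_ Y X' X).hom ≫ Y ◁ ε_ X X' ≫ (ρ_ Y).hom) := rfl

theorem sub_whiskerRight' {X Y Z : D} (f g : X ⟶ Y) : (f - g) ▷ Z = f ▷ Z - g ▷ Z := by
  rw [eq_sub_iff_add_eq, ← MonoidalPreadditive.add_whiskerRight, sub_add_cancel]

theorem bk_sub' [R.Monoidal] {X X' : T} [ExactPairing X X'] (Y : T)
    (f g : R.obj (𝟙_ T) ⟶ R.obj (Y ⊗ X')) :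
    bk R (X := X) Y (f - g) = bk R (X := X) Y f - bk R (X := X) Y g := by
  simp only [bk, sub_whiskerRight', Preadditive.sub_comp, Preadditive.comp_sub]

/-- In the target all morphisms between cohomologies lift. -/
theorem lifts_target (hH : Hereditary H) {X Y : D} (hX : SS (Conc H) (fun _ => True) X)
    (hY : SS (Conc H) (fun _ => True) Y)
    (φ : ∀ n : ℤ, (H.shift n).obj X ⟶ (H.shift n).obj Y) :
    ∃ ψ : X ⟶ Y, ∀ n, (H.shift n).map ψ = φ n :=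
  SS.lifts (R := 𝟭 D) (H := H) (Q := Conc H) (fun _ h => h)
    (fun X Y hX hY θ => (hH.bij X Y hX hY).2 θ) hX hY φ

/-- Lifting of all morphisms from surjectivity for morphisms out of the unit. -/
theorem lifts_of_surj [R.Monoidal] (hH : Hereditary H) (ht : Tens R H) {X X' Y : T}
    [ExactPairing X X'] (hX : SS (Conc H) (fun _ => True) (R.obj X))
    (hY : SS (Conc H) (fun _ => True) (R.obj Y)) (h : HodgeSurj R H (Y ⊗ X')) :
    Lifts R H X Y := by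
  intro φ
  obtain ⟨ψ, hψ⟩ := lifts_target hH hX hY φ
  obtain ⟨f, hf⟩ := h ((H.shift (0 : ℤ)).map (fw R (X' := X') Y ψ))
  have h1 : ∀ n : ℤ, (H.shift n).map (R.map f - fw R (X' := X') Y ψ) = 0 := by
    intro n
    by_cases hn : n = 0
    · subst hn
      have : (H.shift (0 : ℤ)).Additive := inferInstance
      rw [Functor.map_sub]
      exact sub_eq_zero.mpr hf
    · exact (ht.unit_conc n hn).eq_of_src _ _
  have h2 : ∀ n : ℤ, (H.shift n).map (bk R (X := X) Y (R.map f - fw R (X' := X') Y ψ)) = 0 := by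
    intro n
    have h3 := ht.kunneth _ h1 (R.obj X) n
    rw [bk_sub, Functor.map_comp, Functor.map_comp, Functor.map_comp, Functor.map_comp, h3]
    simp
  refine ⟨(λ_ X).inv ≫ (tensorRightHomEquiv (𝟙_ T) X X' Y).symm f, fun n => ?_⟩
  have h4 := h2 n
  have : (H.shift n).Additive := inferInstance
  rw [bk_sub', bk_fw, bk_map, Functor.map_sub, sub_eq_zero, hψ] at h4
  exact h4

end Setting

end Pool.Agent.K4H54.BJ
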