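import Pool.Agent.K4H54.BJ.Gal

/-!
# The motivic picture
-/

set_option autoImplicit false
set_option linter.unusedSectionVars false

open CategoryTheory Limits Pretriangulated ZeroObject MonoidalCategory Triangulated

universe v u v' u' v'' u''

namespace Pool.Agent.K4H54.BJ

variable {T : Type u} [Category.{v} T] [Preadditive T] [HasZeroObject T] [HasShift T ℤ]
  [∀ n : ℤ, (shiftFunctor T n).Additive] [Pretriangulated T]
  [MonoidalCategory T] [MonoidalPreadditive T]
  {D : Type u'} [Category.{v'} D] [Preadditive D] [HasZeroObject D] [HasShift D ℤ]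
  [∀ n : ℤ, (shiftFunctor D n).Additive] [Pretriangulated D]
  [MonoidalCategory D] [MonoidalPreadditive D]
  {A : Type u''} [Category.{v''} A] [Abelian A]
  (R : T ⥤ D) [R.CommShift ℤ] [R.IsTriangulated] [R.Monoidal]
  (H : D ⥤ A) [H.ShiftSequence ℤ] [H.IsHomological]

/-- The expected structure of the category of motives: a t-structure whose heart is a full
subcategory of `A`, of cohomological dimension at most one, such that every object is the sum of
its shifted cohomology objects and the realization is faithful. -/
structure MotivicPicture : Prop where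
  /-- the realization is faithful -/
  faithful : ∀ (X Y : T) (f : X ⟶ Y), R.map f = 0 → f = 0
  /-- `T` has a t-structure such that `X` is of degrees `≤ n` (`≥ n`) if and only if `H^i(X) = 0`
  for all `i > n` (`i < n`) -/
  tStructure : ∃ t : TStructure T,
    (∀ (n : ℤ) (X : T), t.le n X ↔ ∀ i, n < i → IsZero (Ho R H i X)) ∧
      (∀ (n : ℤ) (X : T), t.ge n X ↔ ∀ i, i < n → IsZero (Ho R H i X))
  /-- `H⁰` is fully faithful on the heart -/
  heart : ∀ X Y : T, Conc H (R.obj X) → Conc H (R.obj Y) →
    Function.Bijective (fun f : X ⟶ Y => ho R H 0 f)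
  /-- objects of the heart have no extensions of degree `≥ 2` -/
  dim : ∀ X Y : T, Conc H (R.obj X) → Conc H (R.obj Y) → ∀ n : ℤ, 2 ≤ n →
    ∀ f : X ⟶ Y⟦n⟧, f = 0
  /-- every object is a finite sum of shifts of objects of the heart -/
  split : ∀ X : T, SS (fun B => Conc H (R.obj B)) (fun _ => True) X

variable {R H}

/-- Surjectivity for all objects is equivalent to the expected structure. -/
theorem surj_iff_picture [IsIdempotentComplete T] (hD : DbHer H) (ht : Tens R H)
    (hrig : ∀ X : T, ∃ X' : T, Nonempty (ExactPairing X X')) :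
    (∀ Y : T, HodgeSurj R H Y) ↔ MotivicPicture R H := by
  constructor
  · intro hs
    have hf : ∀ (X Y : T) (f : X ⟶ Y), R.map f = 0 → f = 0 :=
      fun X Y f h => (faithful_of_surj ht hrig hs X Y).inj0 f h
    have hS := ss_of_surj hD ht hrig hs
    refine ⟨hf, exists_tStructure hD hf hS, bij_of_surj hD ht hrig hs, ?_, hS⟩
    intro X Y hX hY n hn f
    apply hf
    rw [← cancel_mono ((R.commShiftIso n).hom.app Y), zero_comp]
    exact hD.her.van _ _ hX hY n (Or.inr hn) _
  · intro h
    exact surj_of_struct h.split (fun X Y hX hY => (h.heart X Y hX hY).2)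

end Pool.Agent.K4H54.BJ
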