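import Pool.Agent.K4H54.BJ.Coh

/-!
# Pure motives
-/

set_option autoImplicit false
set_option linter.unusedSectionVars false

open CategoryTheory Limits Pretriangulated ZeroObject

universe v u v' u' v'' u''

namespace Pool.Agent.K4H54.BJ

variable {T : Type u} [Category.{v} T] [Preadditive T] [HasZeroObject T] [HasShift T ℤ]
  [∀ n : ℤ, (shiftFunctor T n).Additive] [Pretriangulated T]
  {D : Type u'} [Category.{v'} D] [Preadditive D] [HasZeroObject D] [HasShift D ℤ]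
  [∀ n : ℤ, (shiftFunctor D n).Additive] [Pretriangulated D]
  {A : Type u''} [Category.{v''} A] [Abelian A]
  (R : T ⥤ D) [R.CommShift ℤ] [R.IsTriangulated]
  (H : D ⥤ A) [H.ShiftSequence ℤ] [H.IsHomological]

/-- The `n`-th cohomology object of (the realization of) `X`. -/
abbrev Ho (n : ℤ) (X : T) : A := (H.shift n).obj (R.obj X)

/-- The map induced on cohomology. -/
abbrev ho (n : ℤ) {X Y : T} (f : X ⟶ Y) : Ho R H n X ⟶ Ho R H n Y := (H.shift n).map (R.map f)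

/-- Every morphism of graded objects `H^*(X) ⟶ H^*(Y)` comes from a morphism `X ⟶ Y`. -/
def Lifts (X Y : T) : Prop :=
  ∀ φ : ∀ n : ℤ, Ho R H n X ⟶ Ho R H n Y, ∃ f : X ⟶ Y, ∀ n, ho R H n f = φ n

/-- The realization is injective on morphisms of all degrees `X ⟶ Y⟦n⟧`. -/
def Faith (X Y : T) : Prop := ∀ (n : ℤ) (f : X ⟶ Y⟦n⟧), R.map f = 0 → f = 0

omit [HasZeroObject T] [∀ n : ℤ, (shiftFunctor T n).Additive] [Pretriangulated T]
  [HasZeroObject D] [∀ n : ℤ, (shiftFunctor D n).Additive] [Pretriangulated D]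
  [R.IsTriangulated] [H.IsHomological] [Preadditive T] [Preadditive D] [Abelian A] in
/-- Cohomology and shifts. -/
theorem exists_gsh (a n m : ℤ) (h : a + n = m) :
    ∃ γ : ∀ X : T, Ho R H n (X⟦a⟧) ≅ Ho R H m X, ∀ (X Y : T) (f : X ⟶ Y),
      ho R H n (f⟦a⟧') ≫ (γ Y).hom = (γ X).hom ≫ ho R H m f := by
  refine ⟨fun X => (H.shift n).mapIso ((R.commShiftIso a).app X) ≪≫
    (H.shiftIso a n m h).app (R.obj X), fun X Y f => ?_⟩
  have h1 : R.map (f⟦a⟧') ≫ (R.commShiftIso a).hom.app Y =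
    (R.commShiftIso a).hom.app X ≫ (R.map f)⟦a⟧' := (R.commShiftIso a).hom.naturality f
  have h2 := H.shiftIso_hom_naturality a n m h (R.map f)
  simp only [Iso.trans_hom, Functor.mapIso_hom, Iso.app_hom, Category.assoc]
  rw [← h2, ← Functor.map_comp_assoc, h1, Functor.map_comp_assoc]

variable {R H}

section Basic

theorem ho_comp (n : ℤ) {X Y Z : T} (f : X ⟶ Y) (g : Y ⟶ Z) :
    ho R H n (f ≫ g) = ho R H n f ≫ ho R H n g := by
  simp [ho]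

theorem ho_id (n : ℤ) (X : T) : ho R H n (𝟙 X) = 𝟙 _ := by
  simp [ho]

theorem ho_zero (n : ℤ) (X Y : T) : ho R H n (0 : X ⟶ Y) = 0 := by
  simp [ho]

theorem ho_add (n : ℤ) {X Y : T} (f g : X ⟶ Y) :
    ho R H n (f + g) = ho R H n f + ho R H n g := by
  have : (H.shift n).Additive := inferInstance
  simp [ho, Functor.map_add]

theorem total_iso {X X₁ X₂ : T} (e : X ≅ X₁ ⊞ X₂) :
    (e.hom ≫ biprod.fst) ≫ (biprod.inl ≫ e.inv) + (e.hom ≫ biprod.snd) ≫ (biprod.inr ≫ e.inv) =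
      𝟙 X := by
  have h4 : (biprod.fst ≫ biprod.inl + biprod.snd ≫ biprod.inr : X₁ ⊞ X₂ ⟶ X₁ ⊞ X₂) = 𝟙 _ :=
    biprod.total
  calc _ = e.hom ≫ (biprod.fst ≫ biprod.inl + biprod.snd ≫ biprod.inr) ≫ e.inv := by
        simp only [Preadditive.add_comp, Preadditive.comp_add, Category.assoc]
    _ = 𝟙 X := by rw [h4]; simp

theorem Lifts.sum_left {X X₁ X₂ Y : T} (e : X ≅ X₁ ⊞ X₂) (h₁ : Lifts R H X₁ Y)
    (h₂ : Lifts R H X₂ Y) : Lifts R H X Y := by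
  intro φ
  obtain ⟨f₁, hf₁⟩ := h₁ (fun n => ho R H n (biprod.inl ≫ e.inv) ≫ φ n)
  obtain ⟨f₂, hf₂⟩ := h₂ (fun n => ho R H n (biprod.inr ≫ e.inv) ≫ φ n)
  refine ⟨(e.hom ≫ biprod.fst) ≫ f₁ + (e.hom ≫ biprod.snd) ≫ f₂, fun n => ?_⟩
  rw [ho_add, ho_comp n (e.hom ≫ biprod.fst) f₁, ho_comp n (e.hom ≫ biprod.snd) f₂, hf₁, hf₂,
    ← Category.assoc, ← Category.assoc, ← Preadditive.add_comp, ← ho_comp, ← ho_comp, ← ho_add,
    total_iso, ho_id, Category.id_comp]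

theorem Lifts.sum_right {X Y Y₁ Y₂ : T} (e : Y ≅ Y₁ ⊞ Y₂) (h₁ : Lifts R H X Y₁)
    (h₂ : Lifts R H X Y₂) : Lifts R H X Y := by
  intro φ
  obtain ⟨f₁, hf₁⟩ := h₁ (fun n => φ n ≫ ho R H n (e.hom ≫ biprod.fst))
  obtain ⟨f₂, hf₂⟩ := h₂ (fun n => φ n ≫ ho R H n (e.hom ≫ biprod.snd))
  refine ⟨f₁ ≫ (biprod.inl ≫ e.inv) + f₂ ≫ (biprod.inr ≫ e.inv), fun n => ?_⟩
  rw [ho_add, ho_comp n f₁, ho_comp n f₂, hf₁, hf₂, Category.assoc, Category.assoc,
    ← Preadditive.comp_add, ← ho_comp, ← ho_comp, ← ho_add, total_iso, ho_id, Category.comp_id]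

theorem Lifts.zero_left {X Y : T} (h : IsZero X) : Lifts R H X Y :=
  fun _ => ⟨0, fun n => ((H.shift n).map_isZero (R.map_isZero h)).eq_of_src _ _⟩

theorem Lifts.zero_right {X Y : T} (h : IsZero Y) : Lifts R H X Y :=
  fun _ => ⟨0, fun n => ((H.shift n).map_isZero (R.map_isZero h)).eq_of_tgt _ _⟩

theorem isZero_shift {X : T} (hX : Conc H (R.obj X)) (m n : ℤ) (h : n ≠ -m) :
    IsZero (Ho R H n (X⟦m⟧)) := by
  obtain ⟨γ, -⟩ := exists_gsh R H m n (m + n) rfl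
  exact (hX (m + n) (by omega)).of_iso (γ X)

theorem lifts_shift {X Y : T} (hX : Conc H (R.obj X)) (n : ℤ)
    (h : ∀ θ : Ho R H 0 X ⟶ Ho R H 0 Y, ∃ f : X ⟶ Y, ho R H 0 f = θ) :
    Lifts R H (X⟦n⟧) (Y⟦n⟧) := by
  intro φ
  obtain ⟨γ, hγ⟩ := exists_gsh R H n (-n) 0 (by omega)
  obtain ⟨f, hf⟩ := h ((γ X).inv ≫ φ (-n) ≫ (γ Y).hom)
  refine ⟨f⟦n⟧', fun k => ?_⟩
  by_cases hk : k = -n
  · subst hk
    rw [← cancel_mono (γ Y).hom, hγ, hf, Iso.hom_inv_id_assoc]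
  · exact (isZero_shift hX n k hk).eq_of_src _ _

theorem lift_of_lifts_shift {X Y : T} (n : ℤ) (h : Lifts R H (X⟦n⟧) (Y⟦n⟧)) :
    ∀ θ : Ho R H 0 X ⟶ Ho R H 0 Y, ∃ f : X ⟶ Y, ho R H 0 f = θ := by
  intro θ
  obtain ⟨γ, hγ⟩ := exists_gsh R H n (-n) 0 (by omega)
  obtain ⟨g, hg⟩ := h (Function.update (fun _ => 0) (-n) ((γ X).hom ≫ θ ≫ (γ Y).inv))
  obtain ⟨f, rfl⟩ := (shiftFunctor T n).map_surjective g
  refine ⟨f, ?_⟩
  have h1 := hg (-n)
  rw [Function.update_self] at h1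
  rw [← cancel_epi (γ X).hom, ← hγ, h1]
  simp

theorem lifts_shift_ne {X Y : T} (hX : Conc H (R.obj X)) (hY : Conc H (R.obj Y)) (n m : ℤ)
    (h : n ≠ m) : Lifts R H (X⟦n⟧) (Y⟦m⟧) := by
  intro φ
  refine ⟨0, fun k => ?_⟩
  by_cases hk : k = -n
  · exact (isZero_shift hY m k (by omega)).eq_of_tgt _ _
  · exact (isZero_shift hX n k hk).eq_of_src _ _

theorem FF.lift (hH : Hereditary H) {X Y : T} (hX : Conc H (R.obj X)) (hY : Conc H (R.obj Y))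
    (h : FF R X Y) : ∀ θ : Ho R H 0 X ⟶ Ho R H 0 Y, ∃ f : X ⟶ Y, ho R H 0 f = θ := by
  intro θ
  obtain ⟨ψ, hψ⟩ := (hH.bij _ _ hX hY).2 θ
  obtain ⟨f, rfl⟩ := h.2.1 ψ
  exact ⟨f, hψ⟩

theorem FF.faith (hH : Hereditary H) {X Y : T} (hX : Conc H (R.obj X)) (hY : Conc H (R.obj Y))
    (h : FF R X Y) (f : X ⟶ Y) (hf : ho R H 0 f = 0) : f = 0 :=
  h.1 f (hH.eq_zero hX hY _ hf)

theorem FF.ext_of (hH : Hereditary H) {X Y : T} (hX : Conc H (R.obj X)) (hY : Conc H (R.obj Y))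
    (h : FF R X Y) (f g : X ⟶ Y) (hf : ho R H 0 f = ho R H 0 g) : f = g := by
  rw [← sub_eq_zero]
  apply h.faith hH hX hY
  have h1 : ho R H 0 (f - g) + ho R H 0 g = ho R H 0 f := by rw [← ho_add, sub_add_cancel]
  rw [hf] at h1
  exact add_eq_right.mp h1

/-- If cohomology is full and faithful on a class of objects of degree `0`, all morphisms between
cohomologies of sums of shifts lift. -/
theorem SS.lifts {Q : T → Prop} (hQ : ∀ X, Q X → Conc H (R.obj X))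
    (hl : ∀ X Y, Q X → Q Y → ∀ θ : Ho R H 0 X ⟶ Ho R H 0 Y, ∃ f : X ⟶ Y, ho R H 0 f = θ)
    {X Y : T} (hX : SS Q (fun _ => True) X) (hY : SS Q (fun _ => True) Y) : Lifts R H X Y := by
  have h1 : ∀ (B : T) (n : ℤ), Q B → Lifts R H (B⟦n⟧) Y := by
    intro B n hB
    induction hY with
    | zero h => exact Lifts.zero_right h
    | @add Y B' Y₁ m _ hB' _ e ih =>
      refine Lifts.sum_right e ?_ ih
      by_cases h : n = m
      · subst h
        exact lifts_shift (hQ _ hB) n (hl _ _ hB hB')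
      · exact lifts_shift_ne (hQ _ hB) (hQ _ hB') n m h
  induction hX with
  | zero h => exact Lifts.zero_left h
  | @add X B X₁ n _ hB _ e ih => exact Lifts.sum_left e (h1 B n hB) ih

end Basic

end Pool.Agent.K4H54.BJ
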