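import Pool.Agent.K4H54.BJ.Sum

/-!
# Fullness and faithfulness of a triangulated functor on iterated extensions
-/

set_option autoImplicit false

open CategoryTheory Limits Pretriangulated ZeroObject

universe v u v' u' v'' u''

namespace Pool.Agent.K4H54.BJ

section Hom

variable {D : Type u'} [Category.{v'} D] [Preadditive D] [HasZeroObject D] [HasShift D ℤ]
  [∀ n : ℤ, (shiftFunctor D n).Additive] [Pretriangulated D]
  {A : Type u''} [Category.{v''} A] [Abelian A]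

/-- The cohomology of `X` is concentrated in degree `0`. -/
def Conc (H : D ⥤ A) [H.ShiftSequence ℤ] (X : D) : Prop :=
  ∀ n : ℤ, n ≠ 0 → IsZero ((H.shift n).obj X)

theorem isZero_of_dist (H : D ⥤ A) [H.ShiftSequence ℤ] [H.IsHomological] {X Y Z : D} {f : X ⟶ Y}
    {g : Y ⟶ Z} (hd : Dist f g) (n : ℤ) (hX : IsZero ((H.shift n).obj X))
    (hZ : IsZero ((H.shift n).obj Z)) : IsZero ((H.shift n).obj Y) := by
  obtain ⟨h, hh⟩ := hd
  exact (H.homologySequence_exact₂ _ hh n).isZero_of_both_zeros (hX.eq_of_src _ _)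
    (hZ.eq_of_tgt _ _)

end Hom

variable {T : Type u} [Category.{v} T] [Preadditive T] [HasZeroObject T] [HasShift T ℤ]
  [∀ n : ℤ, (shiftFunctor T n).Additive] [Pretriangulated T]
  {D : Type u'} [Category.{v'} D] [Preadditive D] [HasZeroObject D] [HasShift D ℤ]
  [∀ n : ℤ, (shiftFunctor D n).Additive] [Pretriangulated D]
  (R : T ⥤ D) [R.CommShift ℤ] [R.IsTriangulated]

omit [Preadditive T] [HasZeroObject T] [∀ n : ℤ, (shiftFunctor T n).Additive]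
  [Pretriangulated T] [Preadditive D] [HasZeroObject D]
  [∀ n : ℤ, (shiftFunctor D n).Additive] [Pretriangulated D] [R.IsTriangulated] in
theorem map_shift {X Y : T} (f : X ⟶ Y) (n : ℤ) :
    R.map (f⟦n⟧') = (R.commShiftIso n).hom.app X ≫ (R.map f)⟦n⟧' ≫
      (R.commShiftIso n).inv.app Y := by
  have h := (R.commShiftIso n).hom.naturality f
  have h1 : R.map (f⟦n⟧') ≫ (R.commShiftIso n).hom.app Y =
    (R.commShiftIso n).hom.app X ≫ (R.map f)⟦n⟧' := h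
  rw [← Category.assoc, ← h1, Category.assoc, Iso.hom_inv_id_app]
  exact (Category.comp_id _).symm

theorem Dist.map {X Y Z : T} {f : X ⟶ Y} {g : Y ⟶ Z} (hd : Dist f g) :
    Dist (R.map f) (R.map g) := by
  obtain ⟨h, hh⟩ := hd
  exact ⟨_, R.map_distinguished _ hh⟩

/-- `R` is injective on `Hom(X, Y)`. -/
def Inj0 (X Y : T) : Prop := ∀ f : X ⟶ Y, R.map f = 0 → f = 0

/-- `R` is surjective on `Hom(X, Y)`. -/
def Sur0 (X Y : T) : Prop := ∀ φ : R.obj X ⟶ R.obj Y, ∃ f : X ⟶ Y, R.map f = φ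

/-- `R` is injective on `Hom(X, Y⟦1⟧)`. -/
def Inj1 (X Y : T) : Prop := ∀ f : X ⟶ Y⟦(1 : ℤ)⟧, R.map f = 0 → f = 0

/-- all three -/
def FF (X Y : T) : Prop := Inj0 R X Y ∧ Sur0 R X Y ∧ Inj1 R X Y

variable {R}

theorem map_isZero {X : T} (h : IsZero X) : IsZero (R.obj X) := R.map_isZero h

theorem FF.zero_right {X Y : T} (h : IsZero Y) : FF R X Y :=
  ⟨fun _ _ => h.eq_of_tgt _ _, fun _ => ⟨0, (R.map_isZero h).eq_of_tgt _ _⟩,
    fun _ _ => ((shiftFunctor T (1 : ℤ)).map_isZero h).eq_of_tgt _ _⟩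

theorem FF.zero_left {X Y : T} (h : IsZero X) : FF R X Y :=
  ⟨fun _ _ => h.eq_of_src _ _, fun _ => ⟨0, (R.map_isZero h).eq_of_src _ _⟩,
    fun _ _ => h.eq_of_src _ _⟩

/-- Dévissage in the second variable. -/
theorem FF.ext_right {X B₁ B q : T} {f' : B₁ ⟶ B} {g' : B ⟶ q} (hd : Dist f' g')
    (h₁ : FF R X B₁) (h₂ : FF R X q) (hv : ∀ ψ : R.obj X ⟶ (R.obj q)⟦(-1 : ℤ)⟧, ψ = 0) :
    FF R X B := by
  obtain ⟨i₁, s₁, j₁⟩ := h₁
  obtain ⟨i₂, s₂, j₂⟩ := h₂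
  have hdR := hd.map R
  obtain ⟨h, hh⟩ := hd
  have r1 : Triangle.mk g' h (-f'⟦(1 : ℤ)⟧') ∈ distTriang T := rot_of_distTriang _ hh
  have r2 : Triangle.mk h (-f'⟦(1 : ℤ)⟧') (-g'⟦(1 : ℤ)⟧') ∈ distTriang T :=
    rot_of_distTriang _ r1
  have hgh : g' ≫ h = 0 := Dist.comp_zero ⟨_, r1⟩
  have hhf : h ≫ f'⟦(1 : ℤ)⟧' = 0 := by
    have := Dist.comp_zero ⟨_, r2⟩
    rwa [Preadditive.comp_neg, neg_eq_zero] at this
  refine ⟨?_, ?_, ?_⟩
  · intro f hf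
    obtain ⟨f₁, rfl⟩ := Dist.lift (g := g') (f := f') ⟨h, hh⟩ f (i₂ _ (by rw [R.map_comp, hf, zero_comp]))
    rw [R.map_comp] at hf
    obtain ⟨k, hk⟩ := hdR.rotate_neg
    obtain ⟨ψ, hψ⟩ := hk.lift _ hf
    rw [hv ψ, zero_comp] at hψ
    rw [i₁ f₁ hψ.symm, zero_comp]
  · intro φ
    obtain ⟨g, hg⟩ := s₂ (φ ≫ R.map g')
    have h0 : g ≫ h = 0 := by
      apply j₁
      rw [R.map_comp, hg, Category.assoc, ← R.map_comp, hgh, R.map_zero, comp_zero]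
    obtain ⟨f, hf⟩ := Dist.lift (f := g') (g := h) ⟨_, r1⟩ g h0
    obtain ⟨ψ, hψ⟩ := hdR.lift (φ - R.map f) (by
      rw [Preadditive.sub_comp, ← R.map_comp, hf, hg, sub_self])
    obtain ⟨f₁, rfl⟩ := s₁ ψ
    refine ⟨f + f₁ ≫ f', ?_⟩
    rw [R.map_add, R.map_comp, hψ]
    abel
  · intro f hf
    obtain ⟨f₁, rfl⟩ := (Dist.shift (f := f') (g := g') ⟨h, hh⟩ 1).lift f
      (j₂ _ (by rw [R.map_comp, hf, zero_comp]))
    have r3 : Dist (R.map h) (R.map (-f'⟦(1 : ℤ)⟧')) := Dist.map R ⟨_, r2⟩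
    obtain ⟨ψ, hψ⟩ := r3.lift (R.map f₁) (by
      rw [R.map_neg, Preadditive.comp_neg, ← R.map_comp, hf, neg_zero])
    obtain ⟨g, rfl⟩ := s₂ ψ
    have h0 : f₁ - g ≫ h = 0 := by
      apply j₁
      rw [R.map_sub, R.map_comp, hψ, sub_self]
    rw [sub_eq_zero] at h0
    rw [h0, Category.assoc, hhf, comp_zero]

/-- Dévissage in the first variable. -/
theorem FF.ext_left {Y A₁ A p : T} {f' : A₁ ⟶ A} {g' : A ⟶ p} (hd : Dist f' g')
    (h₁ : FF R A₁ Y) (h₂ : FF R p Y) (hv : ∀ ψ : (R.obj A₁)⟦(1 : ℤ)⟧ ⟶ R.obj Y, ψ = 0) :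
    FF R A Y := by
  obtain ⟨i₁, s₁, j₁⟩ := h₁
  obtain ⟨i₂, s₂, j₂⟩ := h₂
  have hdR := hd.map R
  obtain ⟨h, hh⟩ := hd
  have hd : Dist f' g' := ⟨h, hh⟩
  have r1 : Triangle.mk g' h (-f'⟦(1 : ℤ)⟧') ∈ distTriang T := rot_of_distTriang _ hh
  have r2 : Triangle.mk h (-f'⟦(1 : ℤ)⟧') (-g'⟦(1 : ℤ)⟧') ∈ distTriang T :=
    rot_of_distTriang _ r1
  have hgh : g' ≫ h = 0 := Dist.comp_zero ⟨_, r1⟩
  have hhf : h ≫ f'⟦(1 : ℤ)⟧' = 0 := by
    have := Dist.comp_zero ⟨_, r2⟩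
    rwa [Preadditive.comp_neg, neg_eq_zero] at this
  have hRhf : R.map h ≫ (R.commShiftIso (1 : ℤ)).hom.app A₁ ≫ (R.map f')⟦(1 : ℤ)⟧' = 0 := by
    have h1 : R.map h ≫ R.map (f'⟦(1 : ℤ)⟧') = 0 := by rw [← R.map_comp, hhf, R.map_zero]
    rw [map_shift] at h1
    rw [← cancel_mono ((R.commShiftIso (1 : ℤ)).inv.app A)]
    simp only [Category.assoc, zero_comp]
    exact h1
  refine ⟨?_, ?_, ?_⟩
  · intro f hf
    obtain ⟨f₁, rfl⟩ := hd.desc f (i₁ _ (by rw [R.map_comp, hf, comp_zero]))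
    rw [R.map_comp] at hf
    rw [i₂ f₁ (hdR.eq_zero_of_comp hv _ hf), comp_zero]
  · intro φ
    obtain ⟨g, hg⟩ := s₁ (R.map f' ≫ φ)
    have h0 : h ≫ g⟦(1 : ℤ)⟧' = 0 := by
      apply j₂
      rw [R.map_comp, map_shift, hg, Functor.map_comp]
      have : R.map h ≫ (R.commShiftIso (1 : ℤ)).hom.app A₁ ≫ ((R.map f')⟦(1 : ℤ)⟧' ≫ φ⟦(1 : ℤ)⟧') ≫
          (R.commShiftIso (1 : ℤ)).inv.app Y =
          (R.map h ≫ (R.commShiftIso (1 : ℤ)).hom.app A₁ ≫ (R.map f')⟦(1 : ℤ)⟧') ≫ φ⟦(1 : ℤ)⟧' ≫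
          (R.commShiftIso (1 : ℤ)).inv.app Y := by simp only [Category.assoc]
      rw [this, hRhf, zero_comp]
    obtain ⟨ψ, hψ⟩ := Dist.desc (f := h) (g := -f'⟦(1 : ℤ)⟧') ⟨_, r2⟩ _ h0
    obtain ⟨χ, rfl⟩ := (shiftFunctor T (1 : ℤ)).map_surjective ψ
    have hgχ : f' ≫ (-χ) = g := by
      apply (shiftFunctor T (1 : ℤ)).map_injective
      rw [Functor.map_comp, Functor.map_neg, Preadditive.comp_neg, ← Preadditive.neg_comp, hψ]
    obtain ⟨ψ', hψ'⟩ := hdR.desc (φ - R.map (-χ)) (by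
      rw [Preadditive.comp_sub, ← R.map_comp, hgχ, hg, sub_self])
    obtain ⟨f₁, rfl⟩ := s₂ ψ'
    refine ⟨-χ + g' ≫ f₁, ?_⟩
    rw [R.map_add, R.map_comp, hψ']
    abel
  · intro f hf
    obtain ⟨f₁, rfl⟩ := hd.desc f (j₁ _ (by rw [R.map_comp, hf, comp_zero]))
    rw [R.map_comp] at hf
    have hex : ∃ ψ : (R.obj A₁)⟦(1 : ℤ)⟧ ⟶ R.obj (Y⟦(1 : ℤ)⟧),
        R.map f₁ = (R.map h ≫ (R.commShiftIso (1 : ℤ)).hom.app A₁) ≫ ψ :=
      Triangle.yoneda_exact₃ _ (R.map_distinguished _ hh) (R.map f₁) hf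
    obtain ⟨ψ, hψ⟩ := hex
    obtain ⟨χ, hχ⟩ := (shiftFunctor D (1 : ℤ)).map_surjective
      (ψ ≫ (R.commShiftIso (1 : ℤ)).hom.app Y)
    obtain ⟨g, rfl⟩ := s₁ χ
    have h0 : f₁ - h ≫ g⟦(1 : ℤ)⟧' = 0 := by
      apply j₂
      rw [R.map_sub, R.map_comp, map_shift, hχ, hψ]
      simp
    rw [sub_eq_zero] at h0
    rw [h0, ← Category.assoc, hgh, zero_comp]

section Heart

variable {A : Type u''} [Category.{v''} A] [Abelian A] {H : D ⥤ A} [H.ShiftSequence ℤ]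
  [H.IsHomological] {P : T → Prop}

theorem MM.conc (hP : ∀ X, P X → Conc H (R.obj X)) {X : T} (hX : MM P X) :
    Conc H (R.obj X) := by
  induction hX with
  | zero h => exact fun n _ => (H.shift n).map_isZero (R.map_isZero h)
  | ext f g hd _ hZ ih =>
    exact fun n hn => isZero_of_dist H (hd.map R) n (ih n hn) (hP _ hZ n hn)

theorem MM.ff (hP : ∀ X, P X → Conc H (R.obj X)) (hv : Van (Conc H))
    (hff : ∀ X Y, P X → P Y → FF R X Y) {X Y : T} (hX : MM P X) (hY : MM P Y) : FF R X Y := by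
  have h1 : ∀ {p : T}, P p → FF R p Y := by
    intro p hp
    induction hY with
    | zero h => exact FF.zero_right h
    | ext f g hd hX' hZ ih =>
      exact FF.ext_right hd ih (hff _ _ hp hZ)
        (hv _ _ (hP _ hp) (hP _ hZ) (-1) (by omega))
  induction hX with
  | zero h => exact FF.zero_left h
  | @ext X' Y' Z' f g hd hX' hZ ih =>
    refine FF.ext_left hd ih (h1 hZ) ?_
    intro ψ
    have h2 := hv.shift (MM.conc hP hX') (MM.conc hP hY) 1 0 (by omega)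
    rw [← cancel_mono ((shiftFunctorZero D ℤ).inv.app (R.obj Y)), zero_comp]
    exact h2 _

end Heart

end Pool.Agent.K4H54.BJ
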