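import Pool.Agent.K4H54.BJ.Der

/-!
# The motivic t-structure
-/

set_option autoImplicit false
set_option linter.unusedSectionVars false

open CategoryTheory Limits Pretriangulated ZeroObject MonoidalCategory Triangulated

universe v u v' u' v'' u''

namespace Pool.Agent.K4H54.BJ

section Restrict

variable {D : Type u'} [Category.{v'} D] [Preadditive D] [HasZeroObject D] [HasShift D ℤ]
  [∀ n : ℤ, (shiftFunctor D n).Additive] [Pretriangulated D]
  {A : Type u''} [Category.{v''} A] [Abelian A]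
  {H : D ⥤ A} [H.ShiftSequence ℤ] [H.IsHomological]

theorem isZero_of_conc (hH : Hereditary H) {X : D} (hX : Conc H X)
    (h0 : IsZero ((H.shift (0 : ℤ)).obj X)) : IsZero X := by
  rw [IsZero.iff_id_eq_zero]
  exact hH.eq_zero hX hX _ (h0.eq_of_src _ _)

/-- The shifts which occur in a sum are bounded by the cohomology. -/
theorem SS.restrict (hH : Hereditary H) (P : ℤ → Prop) {X : D}
    (hX : SS (Conc H) (fun _ => True) X) :
    (∀ i, ¬ P i → IsZero ((H.shift i).obj X)) → SS (Conc H) (fun n => P (-n)) X := by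
  induction hX with
  | zero h => exact fun _ => SS.zero h
  | @add X B Y m _ hB _ e ih =>
    intro h
    have hY : ∀ i, ¬ P i → IsZero ((H.shift i).obj Y) := fun i hi =>
      isZero_of_retract ((H.shift i).map (biprod.inr ≫ e.inv)) ((H.shift i).map
        (e.hom ≫ biprod.snd)) (by rw [← Functor.map_comp]; simp) (h i hi)
    by_cases hm : P (-m)
    · exact SS.add hm hB (ih hY) e
    · have h1 : IsZero ((H.shift (-m)).obj (B⟦m⟧)) :=
        isZero_of_retract ((H.shift (-m)).map (biprod.inl ≫ e.inv)) ((H.shift (-m)).map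
          (e.hom ≫ biprod.fst)) (by rw [← Functor.map_comp]; simp) (h (-m) hm)
      have h2 : IsZero B := isZero_of_conc hH hB
        (h1.of_iso ((H.shiftIso m (-m) 0 (by omega)).app B).symm)
      exact SS.of_iso ((zero_biprod ((shiftFunctor D m).map_isZero h2)).some ≪≫ e.symm) (ih hY)

/-- No morphisms from degrees `≤ 0` to degrees `≥ 1`. -/
theorem zero_of_degrees (hD : DbHer H) {X Y : D}
    (hX : ∀ i : ℤ, 0 < i → IsZero ((H.shift i).obj X))
    (hY : ∀ i : ℤ, i < 1 → IsZero ((H.shift i).obj Y)) (f : X ⟶ Y) : f = 0 := by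
  have h1 := SS.restrict hD.her (fun i => i ≤ 0) (hD.dec X) (fun i hi => hX i (by omega))
  have h2 := SS.restrict hD.her (fun i => 1 ≤ i) (hD.dec Y) (fun i hi => hY i (by omega))
  refine h1.hom_left ?_ f
  intro B n hB hn g
  refine h2.hom_right ?_ g
  intro B' n' hB' hn' k
  exact hD.her.van.shift hB hB' n n' (by omega) _

end Restrict

section Str

variable {T : Type u} [Category.{v} T] [Preadditive T] [HasZeroObject T] [HasShift T ℤ]
  [∀ n : ℤ, (shiftFunctor T n).Additive] [Pretriangulated T]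
  {D : Type u'} [Category.{v'} D] [Preadditive D] [HasZeroObject D] [HasShift D ℤ]
  [∀ n : ℤ, (shiftFunctor D n).Additive] [Pretriangulated D]
  {A : Type u''} [Category.{v''} A] [Abelian A]
  {R : T ⥤ D} [R.CommShift ℤ] [R.IsTriangulated]
  {H : D ⥤ A} [H.ShiftSequence ℤ] [H.IsHomological]

theorem ho_isZero_iso {X Y : T} (e : X ≅ Y) {i : ℤ} (h : IsZero (Ho R H i X)) :
    IsZero (Ho R H i Y) := h.of_iso ((H.shift i).mapIso (R.mapIso e.symm))

theorem split_degrees {X : T} (hX : SS (fun B => Conc H (R.obj B)) (fun _ => True) X) :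
    ∃ X₁ X₂ : T, (∀ i : ℤ, 0 < i → IsZero (Ho R H i X₁)) ∧
      (∀ i : ℤ, i < 1 → IsZero (Ho R H i X₂)) ∧
      Nonempty (X ≅ X₁ ⊞ X₂) := by
  induction hX with
  | @zero X h =>
    refine ⟨0, 0, fun i _ => (H.shift i).map_isZero (R.map_isZero (isZero_zero T)),
      fun i _ => (H.shift i).map_isZero (R.map_isZero (isZero_zero T)),
      ⟨h.iso ((biprod_isZero_iff _ _).2 ⟨isZero_zero T, isZero_zero T⟩)⟩⟩
  | @add X B Y m _ hB _ e ih =>
    obtain ⟨X₁, X₂, h1, h2, ⟨e'⟩⟩ := ih
    have hs : ∀ (U V : T) (i : ℤ), IsZero (Ho R H i U) → IsZero (Ho R H i V) →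
        IsZero (Ho R H i (U ⊞ V)) := fun U V i hU hV =>
      isZero_of_dist H ((Dist.biprod U V).map R) i hU hV
    by_cases hm : 0 ≤ m
    · refine ⟨(B⟦m⟧) ⊞ X₁, X₂, fun i hi => hs _ _ i (isZero_shift hB m i (by omega)) (h1 i hi),
        h2, ⟨e ≪≫ biprod.mapIso (Iso.refl _) e' ≪≫ (biprod.associator _ _ _).symm⟩⟩
    · refine ⟨X₁, (B⟦m⟧) ⊞ X₂, h1, fun i hi => hs _ _ i (isZero_shift hB m i (by omega)) (h2 i hi),
        ⟨e ≪≫ biprod.mapIso (Iso.refl _) (e' ≪≫ biprod.braiding _ _) ≪≫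
          (biprod.associator _ _ _).symm ≪≫ biprod.braiding _ _⟩⟩

/-- The t-structure whose objects of degrees `≤ n` (`≥ n`) are those with realization in degrees
`≤ n` (`≥ n`). -/
theorem exists_tStructure (hD : DbHer H) (hR : ∀ (X Y : T) (f : X ⟶ Y), R.map f = 0 → f = 0)
    (hS : ∀ X : T, SS (fun B => Conc H (R.obj B)) (fun _ => True) X) :
    ∃ t : TStructure T, (∀ (n : ℤ) (X : T), t.le n X ↔ ∀ i, n < i → IsZero (Ho R H i X)) ∧
      (∀ (n : ℤ) (X : T), t.ge n X ↔ ∀ i, i < n → IsZero (Ho R H i X)) := by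
  refine ⟨{
    le := fun n X => ∀ i, n < i → IsZero (Ho R H i X)
    ge := fun n X => ∀ i, i < n → IsZero (Ho R H i X)
    le_isClosedUnderIsomorphisms := fun n =>
      { of_iso := fun e h i hi => ho_isZero_iso e (h i hi) }
    ge_isClosedUnderIsomorphisms := fun n =>
      { of_iso := fun e h i hi => ho_isZero_iso e (h i hi) }
    le_shift := by
      intro n a n' h X hX i hi
      obtain ⟨γ, -⟩ := exists_gsh R H a i (a + i) rfl
      exact (hX (a + i) (by omega)).of_iso (γ X)
    ge_shift := by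
      intro n a n' h X hX i hi
      obtain ⟨γ, -⟩ := exists_gsh R H a i (a + i) rfl
      exact (hX (a + i) (by omega)).of_iso (γ X)
    zero' := by
      intro X Y f hX hY
      exact hR _ _ f (zero_of_degrees hD hX hY _)
    le_zero_le := fun X hX i hi => hX i (by omega)
    ge_one_le := fun X hX i hi => hX i (by omega)
    exists_triangle_zero_one := by
      intro X
      obtain ⟨X₁, X₂, h1, h2, ⟨e⟩⟩ := split_degrees (hS X)
      obtain ⟨h, hh⟩ := (Dist.biprod X₁ X₂).of_iso (Iso.refl _) e.symm (Iso.refl _)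
        (f' := biprod.inl ≫ e.inv) (g' := e.hom ≫ biprod.snd) (by simp) (by simp)
      exact ⟨X₁, X₂, h1, h2, _, _, h, hh⟩ }, fun _ _ => Iff.rfl, fun _ _ => Iff.rfl⟩

end Str

section Main

variable {T : Type u} [Category.{v} T] [Preadditive T] [HasZeroObject T] [HasShift T ℤ]
  [∀ n : ℤ, (shiftFunctor T n).Additive] [Pretriangulated T]
  [MonoidalCategory T] [MonoidalPreadditive T]
  {D : Type u'} [Category.{v'} D] [Preadditive D] [HasZeroObject D] [HasShift D ℤ]
  [∀ n : ℤ, (shiftFunctor D n).Additive] [Pretriangulated D]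
  [MonoidalCategory D] [MonoidalPreadditive D]
  {A : Type u''} [Category.{v''} A] [Abelian A]
  {R : T ⥤ D} [R.CommShift ℤ] [R.IsTriangulated] [R.Monoidal]
  {H : D ⥤ A} [H.ShiftSequence ℤ] [H.IsHomological]

/-- Surjectivity for all objects makes the realization faithful. -/
theorem faithful_of_surj (ht : Tens R H)
    (hrig : ∀ X : T, ∃ X' : T, Nonempty (ExactPairing X X'))
    (hs : ∀ Y : T, HodgeSurj R H Y) (X Y : T) : Faith R X Y := by
  obtain ⟨X', ⟨e⟩⟩ := hrig X
  exact faith_of_regInj (X' := X') ht (fun n f hf => regInj_of_surj ht.unit_end hs _ f hf)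

theorem ss_of_surj [IsIdempotentComplete T] (hD : DbHer H) (ht : Tens R H)
    (hrig : ∀ X : T, ∃ X' : T, Nonempty (ExactPairing X X'))
    (hs : ∀ Y : T, HodgeSurj R H Y) (X : T) :
    SS (fun B => Conc H (R.obj B)) (fun _ => True) X := by
  obtain ⟨s, h0⟩ := (hD.dec (R.obj X)).support
  refine (decompose (R := R) (Q := fun _ => True) hD.her (fun _ _ _ _ => trivial) ?_
    (fun X _ => (faithful_of_surj ht hrig hs X X).inj0) (fun X _ => hD.dec _) s X trivial h0).mono
      (fun _ h => h.2) (fun _ h => h)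
  intro X _
  obtain ⟨X', ⟨e⟩⟩ := hrig X
  exact lifts_of_surj hD.her ht (hD.dec _) (hD.dec _) (hs (X ⊗ X'))

theorem bij_of_surj (hD : DbHer H) (ht : Tens R H)
    (hrig : ∀ X : T, ∃ X' : T, Nonempty (ExactPairing X X'))
    (hs : ∀ Y : T, HodgeSurj R H Y) (X Y : T) (hX : Conc H (R.obj X)) (hY : Conc H (R.obj Y)) :
    Function.Bijective (fun f : X ⟶ Y => ho R H 0 f) := by
  constructor
  · intro f g hfg
    rw [← sub_eq_zero]
    apply (faithful_of_surj ht hrig hs X Y).inj0
    apply hD.her.eq_zero hX hY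
    exact (ho_sub 0 f g).trans (sub_eq_zero.mpr hfg)
  · intro θ
    obtain ⟨X', ⟨e⟩⟩ := hrig X
    obtain ⟨f, hf⟩ := lifts_of_surj hD.her ht (hD.dec _) (hD.dec _) (hs (Y ⊗ X'))
      (X := X) (Y := Y) (Function.update (fun _ => 0) 0 θ)
    exact ⟨f, by
      change ho R H 0 f = θ
      rw [hf, Function.update_self]⟩

/-- Surjectivity from the decomposition and the fullness on the heart. -/
theorem surj_of_struct
    (hS : ∀ X : T, SS (fun B => Conc H (R.obj B)) (fun _ => True) X)
    (hb : ∀ X Y : T, Conc H (R.obj X) → Conc H (R.obj Y) →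
      Function.Surjective (fun f : X ⟶ Y => ho R H 0 f)) (Y : T) : HodgeSurj R H Y := by
  intro φ
  obtain ⟨f, hf⟩ := SS.lifts (R := R) (H := H) (Q := fun B => Conc H (R.obj B)) (fun _ h => h)
    (fun X Y hX hY θ => hb X Y hX hY θ) (hS (𝟙_ T)) (hS Y) (Function.update (fun _ => 0) 0 φ)
  exact ⟨f, by rw [hf, Function.update_self]⟩

end Main

end Pool.Agent.K4H54.BJ
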