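import Pool.Agent.K4H54.BJ.Str

/-!
# Subobjects of the cohomology of motives
-/

set_option autoImplicit false
set_option linter.unusedSectionVars false

open CategoryTheory Limits Pretriangulated ZeroObject

universe v u v' u' v'' u''

namespace Pool.Agent.K4H54.BJ

variable {T : Type u} [Category.{v} T] [Preadditive T] [HasZeroObject T] [HasShift T ℤ]
  [∀ n : ℤ, (shiftFunctor T n).Additive] [Pretriangulated T]
  {D : Type u'} [Category.{v'} D] [Preadditive D] [HasZeroObject D] [HasShift D ℤ]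
  [∀ n : ℤ, (shiftFunctor D n).Additive] [Pretriangulated D]
  {A : Type u''} [Category.{v''} A] [Abelian A]
  (R : T ⥤ D) [R.CommShift ℤ] [R.IsTriangulated]
  (H : D ⥤ A) [H.ShiftSequence ℤ] [H.IsHomological]

/-- Objects of `A` which are the cohomology of an object of `T` with cohomology in degree `0`. -/
def Mot (V : A) : Prop := ∃ N : T, Conc H (R.obj N) ∧ Nonempty (Ho R H 0 N ≅ V)

variable {R H}

theorem Mot.of_iso {V W : A} (e : V ≅ W) (h : Mot R H V) : Mot R H W := by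
  obtain ⟨N, hN, ⟨e'⟩⟩ := h
  exact ⟨N, hN, ⟨e' ≪≫ e⟩⟩

theorem Mot.zero {V : A} (h : IsZero V) : Mot R H V :=
  ⟨0, fun n _ => (H.shift n).map_isZero (R.map_isZero (isZero_zero T)),
    ⟨((H.shift (0 : ℤ)).map_isZero (R.map_isZero (isZero_zero T))).iso h⟩⟩

theorem ho_biprod (i : ℤ) (X Y : T) : Nonempty (Ho R H i (X ⊞ Y) ≅ Ho R H i X ⊞ Ho R H i Y) :=
  ⟨{ hom := biprod.lift (ho R H i biprod.fst) (ho R H i biprod.snd)
     inv := biprod.desc (ho R H i biprod.inl) (ho R H i biprod.inr)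
     hom_inv_id := by
      rw [biprod.lift_desc, ← ho_comp, ← ho_comp, ← ho_add, biprod.total, ho_id]
     inv_hom_id := by
      apply biprod.hom_ext'
      · apply biprod.hom_ext
        · simp only [biprod.inl_desc_assoc, Category.assoc, biprod.lift_fst, Category.comp_id,
            biprod.inl_fst, ← ho_comp, ho_id]
        · simp only [biprod.inl_desc_assoc, Category.assoc, biprod.lift_snd, Category.comp_id,
            biprod.inl_snd, ← ho_comp, ho_zero]
      · apply biprod.hom_ext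
        · simp only [biprod.inr_desc_assoc, Category.assoc, biprod.lift_fst, Category.comp_id,
            biprod.inr_fst, ← ho_comp, ho_zero]
        · simp only [biprod.inr_desc_assoc, Category.assoc, biprod.lift_snd, Category.comp_id,
            biprod.inr_snd, ← ho_comp, ho_id] }⟩

theorem Mot.sum {V W : A} (hV : Mot R H V) (hW : Mot R H W) : Mot R H (V ⊞ W) := by
  obtain ⟨N, hN, ⟨e⟩⟩ := hV
  obtain ⟨M, hM, ⟨e'⟩⟩ := hW
  exact ⟨N ⊞ M, fun n hn => isZero_of_dist H ((Dist.biprod N M).map R) n (hN n hn) (hM n hn),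
    ⟨(ho_biprod 0 N M).some ≪≫ biprod.mapIso e e'⟩⟩

/-- All cohomology objects are motivic. -/
theorem mot_ho {X : T} (hX : SS (fun B => Conc H (R.obj B)) (fun _ => True) X) (i : ℤ) :
    Mot R H (Ho R H i X) := by
  induction hX with
  | zero h => exact Mot.zero ((H.shift i).map_isZero (R.map_isZero h))
  | @add X B Y m _ hB _ e ih =>
    refine Mot.of_iso ((ho_biprod i (B⟦m⟧) Y).some.symm ≪≫
      (H.shift i).mapIso (R.mapIso e.symm)) (Mot.sum ?_ ih)
    by_cases h : i = -m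
    · subst h
      obtain ⟨γ, -⟩ := exists_gsh R H m (-m) 0 (by omega)
      exact ⟨B, hB, ⟨(γ B).symm⟩⟩
    · exact Mot.zero (isZero_shift hB m i h)

section KerCoker

variable (hS : ∀ X : T, SS (fun B => Conc H (R.obj B)) (fun _ => True) X)
  (hb : ∀ X Y : T, Conc H (R.obj X) → Conc H (R.obj Y) →
    ∀ θ : Ho R H 0 X ⟶ Ho R H 0 Y, ∃ f : X ⟶ Y, ho R H 0 f = θ)

include hS hb

theorem Mot.ker {V W : A} (hV : Mot R H V) (hW : Mot R H W) (f : V ⟶ W) :
    Mot R H (kernel f) := by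
  obtain ⟨N, hN, ⟨eV⟩⟩ := hV
  obtain ⟨M, hM, ⟨eW⟩⟩ := hW
  obtain ⟨g, hg⟩ := hb N M hN hM (eV.hom ≫ f ≫ eW.inv)
  obtain ⟨C, c, hc⟩ := Dist.exists_cone g
  obtain ⟨w, hw⟩ := hc.map R
  have e1 := H.homologySequence_exact₃ _ hw (-1) 0 (by omega)
  have e2 := H.homologySequence_exact₁ _ hw (-1) 0 (by omega)
  have hmono : Mono (H.homologySequenceδ (Triangle.mk (R.map g) (R.map c) w) (-1) 0
      (by omega)) :=
    e1.mono_g ((hM (-1) (by omega)).eq_of_src _ _)
  let k1 : Ho R H (-1) C ≅ kernel (ho R H 0 g) :=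
    e2.fIsKernel.conePointUniqueUpToIso (limit.isLimit _)
  let k2 : kernel (ho R H 0 g) ≅ kernel f := kernelIsoOfEq hg ≪≫
    kernelIsIsoComp eV.hom (f ≫ eW.inv) ≪≫ kernelCompMono f eW.inv
  exact Mot.of_iso (k1 ≪≫ k2) (mot_ho (hS C) (-1))

theorem Mot.coker {V W : A} (hV : Mot R H V) (hW : Mot R H W) (f : V ⟶ W) :
    Mot R H (cokernel f) := by
  obtain ⟨N, hN, ⟨eV⟩⟩ := hV
  obtain ⟨M, hM, ⟨eW⟩⟩ := hW
  obtain ⟨g, hg⟩ := hb N M hN hM (eV.hom ≫ f ≫ eW.inv)
  obtain ⟨C, c, hc⟩ := Dist.exists_cone g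
  obtain ⟨w, hw⟩ := hc.map R
  have e1 := H.homologySequence_exact₂ _ hw 0
  have e2 := H.homologySequence_exact₃ _ hw 0 1 (by omega)
  have hepi : Epi ((H.shift (0 : ℤ)).map (Triangle.mk (R.map g) (R.map c) w).mor₂) :=
    e2.epi_f ((hN 1 (by omega)).eq_of_tgt _ _)
  let k1 : Ho R H 0 C ≅ cokernel (ho R H 0 g) :=
    e1.gIsCokernel.coconePointUniqueUpToIso (colimit.isColimit _)
  let k2 : cokernel (ho R H 0 g) ≅ cokernel f := cokernelIsoOfEq hg ≪≫
    cokernelEpiComp eV.hom (f ≫ eW.inv) ≪≫ cokernelCompIsIso f eW.inv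
  exact Mot.of_iso (k1 ≪≫ k2) (mot_ho (hS C) 0)

end KerCoker

/-- A diagram chase: a subobject `V` of `Y` lies in a class closed under kernels and cokernels as
soon as its image `I` in `P` and its intersection `kernel π` with `X = ker(Y ⟶ P)` do. -/
theorem chase {Φ : A → Prop} (hi : ∀ {V W : A}, (V ≅ W) → Φ V → Φ W)
    (hk : ∀ {V W : A} (f : V ⟶ W), Φ V → Φ W → Φ (kernel f))
    (hc : ∀ {V W : A} (f : V ⟶ W), Φ V → Φ W → Φ (cokernel f))
    {X Y P V I : A} (a : X ⟶ Y) (g : Y ⟶ P) (w : a ≫ g = 0) [Mono a]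
    (hex : (ShortComplex.mk a g w).Exact) (m : V ⟶ Y) [Mono m] (π : V ⟶ I) (ι : I ⟶ P)
    [Epi π] [Mono ι] (hπ : π ≫ ι = m ≫ g) (hX : Φ X) (hY : Φ Y) (hP : Φ P) (hI : Φ I)
    (hV' : Φ (kernel π)) : Φ V := by
  have hQ : Φ (cokernel ι) := hc ι hI hP
  have hK : Φ (kernel (g ≫ cokernel.π ι)) := hk _ hY hQ
  obtain ⟨k, hkdef⟩ : ∃ k : kernel (g ≫ cokernel.π ι) ⟶ Y, k = kernel.ι _ := ⟨_, rfl⟩
  have hkm : Mono k := by rw [hkdef]; infer_instance
  have hkg : (k ≫ g) ≫ cokernel.π ι = 0 := by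
    rw [hkdef, Category.assoc]
    exact kernel.condition _
  have hlift : ∀ {Z : A} (t : Z ⟶ Y), t ≫ g ≫ cokernel.π ι = 0 → ∃ s, s ≫ k = t := by
    intro Z t ht
    refine ⟨kernel.lift _ t ht, ?_⟩
    rw [hkdef, kernel.lift_ι]
  obtain ⟨v, hv⟩ := hlift m (by
    rw [← Category.assoc, ← hπ, Category.assoc, cokernel.condition, comp_zero])
  obtain ⟨a', ha'⟩ := hlift a (by rw [← Category.assoc, w, zero_comp])
  have hvm : Mono v := mono_of_mono_fac hv
  have ham : Mono a' := mono_of_mono_fac ha'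
  obtain ⟨p, hp⟩ : ∃ p : kernel (g ≫ cokernel.π ι) ⟶ I, p ≫ ι = k ≫ g :=
    ⟨(ShortComplex.exact_cokernel ι).lift (k ≫ g) hkg,
      (ShortComplex.exact_cokernel ι).lift_f (k ≫ g) hkg⟩
  have hvp : v ≫ p = π := by
    rw [← cancel_mono ι, Category.assoc, hp, ← Category.assoc, hv, hπ]
  have hap : a' ≫ p = 0 := by
    rw [← cancel_mono ι, Category.assoc, hp, ← Category.assoc, ha', w, zero_comp]
  have hpe : Epi p := epi_of_epi_fac hvp
  have hj : (kernel.ι π ≫ m) ≫ g = 0 := by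
    rw [Category.assoc, ← hπ, ← Category.assoc, kernel.condition, zero_comp]
  obtain ⟨n, hn⟩ : ∃ n : kernel π ⟶ X, n ≫ a = kernel.ι π ≫ m :=
    ⟨hex.lift _ hj, hex.lift_f _ hj⟩
  have hnm : Mono n := mono_of_mono_fac hn
  have hnv : n ≫ a' = kernel.ι π ≫ v := by
    rw [← cancel_mono k, Category.assoc, Category.assoc, ha', hv, hn]
  have hz : n ≫ (a' ≫ cokernel.π v) = 0 := by
    rw [← Category.assoc, hnv, Category.assoc, cokernel.condition, comp_zero]
  have hex1 : (ShortComplex.mk n (a' ≫ cokernel.π v) hz).Exact := by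
    refine ShortComplex.exact_of_f_is_kernel _ (KernelFork.IsLimit.ofι' n hz ?_)
    intro Z t ht
    have ht' : (t ≫ a') ≫ cokernel.π v = 0 := by rw [Category.assoc]; exact ht
    have hs := (ShortComplex.exact_cokernel v).lift_f (t ≫ a') ht'
    have hs' : (ShortComplex.exact_cokernel v).lift (t ≫ a') ht' ≫ v = t ≫ a' := hs
    have hsπ : (ShortComplex.exact_cokernel v).lift (t ≫ a') ht' ≫ π = 0 := by
      rw [← hvp, ← Category.assoc, hs', Category.assoc, hap, comp_zero]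
    refine ⟨kernel.lift π _ hsπ, ?_⟩
    rw [← cancel_mono a, Category.assoc, hn, ← Category.assoc, kernel.lift_ι, ← hv,
      ← Category.assoc, hs', Category.assoc, ha']
  have hex2 : (ShortComplex.mk a' p hap).Exact := by
    refine ShortComplex.exact_of_f_is_kernel _ (KernelFork.IsLimit.ofι' a' hap ?_)
    intro Z t ht
    have ht' : (t ≫ k) ≫ g = 0 := by
      rw [Category.assoc, ← hp, ← Category.assoc, ht, zero_comp]
    refine ⟨hex.lift _ ht', ?_⟩
    rw [← cancel_mono k, Category.assoc, ha']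
    exact hex.lift_f _ ht'
  have hepi : Epi (a' ≫ cokernel.π v) := by
    apply Preadditive.epi_of_cancel_zero
    intro Z t ht
    have h1 : a' ≫ (cokernel.π v ≫ t) = 0 := by rw [← Category.assoc]; exact ht
    have h2 : p ≫ hex2.desc _ h1 = cokernel.π v ≫ t := hex2.g_desc _ h1
    have h3 : π ≫ hex2.desc _ h1 = 0 := by
      rw [← hvp, Category.assoc, h2, ← Category.assoc, cokernel.condition, zero_comp]
    have h4 : hex2.desc _ h1 = 0 := by rwa [← cancel_epi π, comp_zero]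
    rw [h4, comp_zero] at h2
    rw [← cancel_epi (cokernel.π v), ← h2, comp_zero]
  have hW : Φ (cokernel v) := by
    refine hi ?_ (hc n hV' hX)
    exact (colimit.isColimit _).coconePointUniqueUpToIso hex1.gIsCokernel
  refine hi ?_ (hk (cokernel.π v) hK hW)
  exact (limit.isLimit _).conePointUniqueUpToIso (ShortComplex.exact_cokernel v).fIsKernel

end Pool.Agent.K4H54.BJ
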