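import Pool.Agent.K4H54.BJ.Ext

/-!
# Finite sums of shifts of iterated extensions are closed under extensions
-/

set_option autoImplicit false

open CategoryTheory Limits Pretriangulated ZeroObject

universe v u

namespace Pool.Agent.K4H54.BJ

variable {T : Type u} [Category.{v} T] [Preadditive T] [HasZeroObject T] [HasShift T ℤ]
  [∀ n : ℤ, (shiftFunctor T n).Additive] [Pretriangulated T]

/-- Finite direct sums of objects `A⟦n⟧` with `Q A` and `D n`. -/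
inductive SS (Q : T → Prop) (D : ℤ → Prop) : T → Prop
  | zero {X : T} (h : IsZero X) : SS Q D X
  | add {X A Y : T} {n : ℤ} (hn : D n) (hA : Q A) (hY : SS Q D Y) (e : X ≅ (A⟦n⟧) ⊞ Y) : SS Q D X

variable {Q : T → Prop} {D : ℤ → Prop}

theorem SS.of_iso {X Y : T} (e : X ≅ Y) (h : SS Q D X) : SS Q D Y := by
  cases h with
  | zero h => exact SS.zero (h.of_iso e.symm)
  | add hn hA hY e' => exact SS.add hn hA hY (e.symm ≪≫ e')

theorem SS.mono {Q' : T → Prop} {D' : ℤ → Prop} (hQ : ∀ X, Q X → Q' X) (hD : ∀ n, D n → D' n)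
    {X : T} (h : SS Q D X) : SS Q' D' X := by
  induction h with
  | zero h => exact SS.zero h
  | add hn hA _ e ih => exact SS.add (hD _ hn) (hQ _ hA) ih e

theorem zero_biprod {X Y : T} (h : IsZero X) : Nonempty (Y ≅ X ⊞ Y) :=
  ⟨{ hom := biprod.inr, inv := biprod.snd, inv_hom_id := by
      apply biprod.hom_ext'
      · exact h.eq_of_src _ _
      · simp }⟩

theorem SS.sum {X Y : T} (hX : SS Q D X) (hY : SS Q D Y) : SS Q D (X ⊞ Y) := by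
  induction hX with
  | zero h => exact SS.of_iso (zero_biprod h).some hY
  | add hn hA _ e ih =>
    exact SS.add hn hA ih (biprod.mapIso e (Iso.refl _) ≪≫ biprod.associator _ _ _)

theorem SS.single {A : T} (n : ℤ) (hn : D n) (hA : Q A) : SS Q D (A⟦n⟧) :=
  SS.add hn hA (SS.zero (isZero_zero T))
    ((zero_biprod (isZero_zero T)).some ≪≫ biprod.braiding _ _)

theorem SS.hom_left {X W : T} (h : SS Q D X)
    (hv : ∀ (A : T) (n : ℤ), Q A → D n → ∀ f : A⟦n⟧ ⟶ W, f = 0) : ∀ f : X ⟶ W, f = 0 := by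
  induction h with
  | zero h => exact fun f => h.eq_of_src _ _
  | add hn hA _ e ih =>
    intro f
    rw [← cancel_epi e.inv, comp_zero]
    apply biprod.hom_ext'
    · rw [hv _ _ hA hn (biprod.inl ≫ e.inv ≫ f), comp_zero]
    · rw [ih (biprod.inr ≫ e.inv ≫ f), comp_zero]

theorem SS.hom_right {X W : T} (h : SS Q D X)
    (hv : ∀ (A : T) (n : ℤ), Q A → D n → ∀ f : W ⟶ A⟦n⟧, f = 0) : ∀ f : W ⟶ X, f = 0 := by
  induction h with
  | zero h => exact fun f => h.eq_of_tgt _ _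
  | add hn hA _ e ih =>
    intro f
    rw [← cancel_mono e.hom, zero_comp]
    apply biprod.hom_ext
    · rw [hv _ _ hA hn ((f ≫ e.hom) ≫ biprod.fst), zero_comp]
    · rw [ih ((f ≫ e.hom) ≫ biprod.snd), zero_comp]

omit [HasZeroObject T] [Pretriangulated T] in
/-- Vanishing of morphisms is invariant under shifts. -/
theorem hom_shift {X Y : T} (l n m : ℤ) (h : m + l = n) (hv : ∀ f : X ⟶ Y⟦m⟧, f = 0) :
    ∀ f : X⟦l⟧ ⟶ Y⟦n⟧, f = 0 := by
  intro f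
  have e := (shiftFunctorAdd' T m l n h).app Y
  obtain ⟨g, hg⟩ := (shiftFunctor T l).map_surjective (f ≫ e.hom)
  rw [hv g, Functor.map_zero] at hg
  rw [← cancel_mono e.hom, ← hg, zero_comp]

omit [HasZeroObject T] [∀ n : ℤ, (shiftFunctor T n).Additive] [Pretriangulated T] in
theorem hom_shift_one {X Y : T} (n : ℤ) (hv : ∀ f : X ⟶ Y⟦n + 1⟧, f = 0) :
    ∀ f : X ⟶ (Y⟦n⟧)⟦(1 : ℤ)⟧, f = 0 := by
  intro f
  have e := (shiftFunctorAdd' T n 1 (n + 1) rfl).app Y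
  rw [← cancel_mono e.inv, zero_comp]
  exact hv _

variable {P : T → Prop}

/-- No morphisms of degree `n < 0` or `n ≥ 2`. -/
def Van (P : T → Prop) : Prop :=
  ∀ X Y : T, P X → P Y → ∀ n : ℤ, (n < 0 ∨ 2 ≤ n) → ∀ f : X ⟶ Y⟦n⟧, f = 0

theorem MM.van (hv : Van P) : Van (MM P) := by
  intro X Y hX hY n hn
  have h1 : ∀ {p : T}, P p → ∀ f : p ⟶ Y⟦n⟧, f = 0 := by
    intro p hp
    induction hY with
    | zero h => exact fun f => ((shiftFunctor T n).map_isZero h).eq_of_tgt _ _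
    | ext f' g' hd _ hq ih =>
      intro f
      obtain ⟨ψ, rfl⟩ := (hd.shift n).lift f (hv _ _ hp hq n hn _)
      rw [ih ψ, zero_comp]
  induction hX with
  | zero h => exact fun f => h.eq_of_src _ _
  | ext f' g' hd _ hq ih =>
    intro f
    obtain ⟨ψ, rfl⟩ := hd.desc f (ih _)
    rw [h1 hq ψ, comp_zero]

omit [HasZeroObject T] [Pretriangulated T] in
theorem Van.shift {Q : T → Prop} (hv : Van Q) {X Y : T} (hX : Q X) (hY : Q Y) (l n : ℤ)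
    (hn : n - l < 0 ∨ 2 ≤ n - l) : ∀ f : X⟦l⟧ ⟶ Y⟦n⟧, f = 0 :=
  hom_shift l n (n - l) (by omega) (hv _ _ hX hY (n - l) hn)

theorem Dist.cone_unique {X Y Z Z' : T} {f : X ⟶ Y} {g : Y ⟶ Z} {g' : Y ⟶ Z'} (h : Dist f g)
    (h' : Dist f g') : ∃ e : Z ≅ Z', g ≫ e.hom = g' := by
  obtain ⟨w, h⟩ := h
  obtain ⟨w', h'⟩ := h'
  obtain ⟨e, h1, h2⟩ := exists_iso_of_arrow_iso _ _ h h' (Iso.refl _)
  have h3 : g ≫ e.hom.hom₃ = e.hom.hom₂ ≫ g' := e.hom.comm₂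
  have h4 : e.hom.hom₂ = 𝟙 Y := h2
  rw [h4] at h3
  exact ⟨⟨e.hom.hom₃, e.inv.hom₃, congrArg TriangleMorphism.hom₃ e.hom_inv_id,
    congrArg TriangleMorphism.hom₃ e.inv_hom_id⟩, h3.trans (Category.id_comp _)⟩

theorem mapBiprod_iso (n : ℤ) (A B : T) : Nonempty ((A ⊞ B)⟦n⟧ ≅ (A⟦n⟧) ⊞ (B⟦n⟧)) :=
  ⟨{ hom := biprod.lift ((biprod.fst : A ⊞ B ⟶ A)⟦n⟧') ((biprod.snd : A ⊞ B ⟶ B)⟦n⟧')
     inv := biprod.desc ((biprod.inl : A ⟶ A ⊞ B)⟦n⟧') ((biprod.inr : B ⟶ A ⊞ B)⟦n⟧')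
     hom_inv_id := by
      rw [biprod.lift_desc, ← Functor.map_comp, ← Functor.map_comp, ← Functor.map_add,
        biprod.total, CategoryTheory.Functor.map_id]
     inv_hom_id := by
      apply biprod.hom_ext'
      · apply biprod.hom_ext <;> simp [← Functor.map_comp]
      · apply biprod.hom_ext <;> simp [← Functor.map_comp] }⟩

/-- The components of degrees `-l` and `1 - l` of a sum of shifts. -/
theorem extract {X : T} (h : SS (MM P) (fun _ => True) X) (hs : ∀ X Y, MM P X → MM P Y →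
    MM P (X ⊞ Y)) (l : ℤ) :
    ∃ (A A' X' : T), MM P A ∧ MM P A' ∧ SS (MM P) (fun n => n ≠ l - 1 ∧ n ≠ l) X' ∧
      Nonempty (X ≅ ((A⟦l - 1⟧) ⊞ (A'⟦l⟧)) ⊞ X') := by
  induction h with
  | zero h =>
    refine ⟨0, 0, 0, MM.zero (isZero_zero T), MM.zero (isZero_zero T), SS.zero (isZero_zero T), ?_⟩
    have h1 : ∀ n : ℤ, IsZero ((0 : T)⟦n⟧) := fun n =>
      (shiftFunctor T n).map_isZero (isZero_zero T)
    exact ⟨(zero_biprod h).some.symm.symm ≪≫ (h.iso ((biprod_isZero_iff _ _).2 ⟨h, h⟩)).symm ≪≫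
      h.iso ((biprod_isZero_iff _ _).2 ⟨(biprod_isZero_iff _ _).2 ⟨h1 _, h1 _⟩, isZero_zero T⟩)⟩
  | @add X B Y n _ hB _ e ih =>
    obtain ⟨A, A', X', hA, hA', hX', ⟨e'⟩⟩ := ih
    by_cases h1 : n = l - 1
    · subst h1
      refine ⟨B ⊞ A, A', X', hs _ _ hB hA, hA', hX', ⟨?_⟩⟩
      exact e ≪≫ biprod.mapIso (Iso.refl _) e' ≪≫ (biprod.associator _ _ _).symm ≪≫
        biprod.mapIso ((biprod.associator _ _ _).symm ≪≫
          biprod.mapIso (mapBiprod_iso (l - 1) B A).some.symm (Iso.refl _)) (Iso.refl _)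
    · by_cases h2 : n = l
      · subst h2
        refine ⟨A, B ⊞ A', X', hA, hs _ _ hB hA', hX', ⟨?_⟩⟩
        exact e ≪≫ biprod.mapIso (Iso.refl _) e' ≪≫ (biprod.associator _ _ _).symm ≪≫
          biprod.mapIso ((biprod.associator _ _ _).symm ≪≫
            biprod.mapIso (biprod.braiding _ _) (Iso.refl _) ≪≫ biprod.associator _ _ _ ≪≫
            biprod.mapIso (Iso.refl _) (mapBiprod_iso n B A').some.symm) (Iso.refl _)
      · refine ⟨A, A', (B⟦n⟧) ⊞ X', hA, hA', SS.add ⟨h1, h2⟩ hB hX' (Iso.refl _), ⟨?_⟩⟩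
        exact e ≪≫ biprod.mapIso (Iso.refl _) e' ≪≫ (biprod.associator _ _ _).symm ≪≫
          biprod.mapIso (biprod.braiding _ _) (Iso.refl _) ≪≫ biprod.associator _ _ _

variable [IsTriangulated T]

/-- If there are no morphisms `V ⟶ X'⟦1⟧`, the summand `X'` of the first object of a triangle is
a summand of the second one. -/
theorem split_off {X Y V Z X' : T} {f : X ⟶ Y} {g : Y ⟶ V} (hd : Dist f g) (e : X ≅ Z ⊞ X')
    (hv : ∀ h : V ⟶ X'⟦(1 : ℤ)⟧, h = 0) :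
    ∃ (W : T) (f₁ : Z ⟶ W) (g₁ : W ⟶ V), Dist f₁ g₁ ∧ Nonempty (Y ≅ W ⊞ X') := by
  obtain ⟨h', hd'⟩ := hd.rotate_neg
  have h0 : h' ≫ (e.hom ≫ biprod.snd) = 0 := by
    apply (shiftFunctor T (1 : ℤ)).map_injective
    rw [Functor.map_zero, ← cancel_epi ((shiftFunctorCompIsoId T (-1 : ℤ) 1 (by omega)).app V).inv,
      comp_zero]
    exact hv _
  obtain ⟨ρ, hρ⟩ := hd'.desc (e.hom ≫ biprod.snd) h0
  obtain ⟨W, b, hb⟩ := Dist.exists_fib ρ
  have hsec : ((biprod.inr ≫ e.inv) ≫ f) ≫ ρ = 𝟙 X' := by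
    rw [Category.assoc, hρ]
    simp
  obtain ⟨eY, -, -⟩ := hb.split_epi _ hsec
  have hc : Dist (biprod.inl ≫ e.inv) (f ≫ ρ) := by
    rw [hρ]
    exact (Dist.biprod Z X').of_iso (Iso.refl _) e.symm (Iso.refl _) (by simp) (by simp)
  obtain ⟨m, hm, -⟩ := octM hd hb hc
  exact ⟨W, m, b ≫ g, hm, ⟨eY⟩⟩

/-- An extension of `Z⟦l⟧` by `X⟦l⟧` is a shift of an extension. -/
theorem ext_shift {X Y Z : T} (l : ℤ) (hX : MM P X) (hZ : MM P Z) {f : X⟦l⟧ ⟶ Y} {g : Y ⟶ Z⟦l⟧}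
    (hd : Dist f g) : ∃ E, MM P E ∧ Nonempty (Y ≅ E⟦l⟧) := by
  have h1 := hd.shift (-l)
  have h2 : Dist (((shiftFunctorCompIsoId T l (-l) (by omega)).app X).inv ≫ f⟦-l⟧')
      (g⟦-l⟧' ≫ ((shiftFunctorCompIsoId T l (-l) (by omega)).app Z).hom) :=
    h1.of_iso ((shiftFunctorCompIsoId T l (-l) (by omega)).app X) (Iso.refl _)
      ((shiftFunctorCompIsoId T l (-l) (by omega)).app Z) (by simp) (by simp)
  exact ⟨_, MM.ext' hZ _ _ h2 hX, ⟨((shiftFunctorCompIsoId T (-l) l (by omega)).app Y).symm⟩⟩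

/-- Extensions of `B⟦l⟧` by `A⟦l - 1⟧ ⊞ A'⟦l⟧`. -/
theorem two_degrees (hP : Semi P) (hv : Van P) {A A' B W : T} (l : ℤ) (hA : MM P A)
    (hA' : MM P A') (hB : MM P B) {f : (A⟦l - 1⟧) ⊞ (A'⟦l⟧) ⟶ W} {g : W ⟶ B⟦l⟧}
    (hd : Dist f g) : SS (MM P) (fun _ => True) W := by
  obtain ⟨U, κ, hκ⟩ := Dist.exists_cone (biprod.inr ≫ f : A'⟦l⟧ ⟶ W)
  obtain ⟨m, n, hmn, -, -⟩ := octC (Dist.biprod' (A⟦l - 1⟧) (A'⟦l⟧)) hd hκ
  obtain ⟨h, hh⟩ := hmn.rotate_neg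
  let eB : B⟦l - 1⟧ ≅ (B⟦l⟧)⟦(-1 : ℤ)⟧ := (shiftFunctorAdd' T l (-1) (l - 1) (by omega)).app B
  have h1 : Dist (eB.hom ≫ h) m :=
    hh.of_iso eB.symm (Iso.refl _) (Iso.refl _) (by simp) (by simp)
  obtain ⟨φ, hφ⟩ := (shiftFunctor T (l - 1)).map_surjective (eB.hom ≫ h)
  rw [← hφ] at h1
  obtain ⟨C, ψ, hψ⟩ := Dist.exists_cone φ
  obtain ⟨K, Q, i, j, hK, hQ, hij⟩ := claim2 hP hA hB φ ψ hψ
  obtain ⟨eU, -⟩ := (hψ.shift (l - 1)).cone_unique h1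
  let eK : K⟦l⟧ ≅ (K⟦(1 : ℤ)⟧)⟦l - 1⟧ := (shiftFunctorAdd' T 1 (l - 1) l (by omega)).app K
  have h2 : Dist (eK.hom ≫ i⟦l - 1⟧' ≫ eU.hom) (eU.inv ≫ j⟦l - 1⟧') :=
    (hij.shift (l - 1)).of_iso eK.symm eU (Iso.refl _) (by simp) (by simp)
  obtain ⟨W', w, hw⟩ := Dist.exists_fib (κ ≫ (eU.inv ≫ j⟦l - 1⟧'))
  obtain ⟨m', n', hmn', -, -⟩ := octF hκ h2 hw
  obtain ⟨E, hE, ⟨eE⟩⟩ := ext_shift l hA' hK hmn'
  obtain ⟨eW, -, -⟩ := hw.split_of (by
    intro h'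
    have h3 : ∀ f : Q⟦l - 1⟧ ⟶ (E⟦l⟧)⟦(1 : ℤ)⟧, f = 0 :=
      hom_shift_one l ((MM.van hv).shift hQ hE (l - 1) (l + 1) (by omega))
    rw [← cancel_mono ((shiftFunctor T (1 : ℤ)).map eE.hom), zero_comp]
    exact h3 _)
  exact SS.of_iso eW.symm (SS.sum (SS.of_iso eE.symm (SS.single l trivial hE))
    (SS.single (l - 1) trivial hQ))

theorem SS.ext_single (hP : Semi P) (hv : Van P) {X Y B : T} (l : ℤ)
    (hX : SS (MM P) (fun _ => True) X) (hB : MM P B) {f : X ⟶ Y} {g : Y ⟶ B⟦l⟧}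
    (hd : Dist f g) : SS (MM P) (fun _ => True) Y := by
  obtain ⟨A, A', X', hA, hA', hX', ⟨e⟩⟩ := extract hX (fun _ _ => MM.sum) l
  obtain ⟨W, f₁, g₁, hd₁, ⟨eY⟩⟩ := split_off hd e (by
    have h1 : SS (fun A => ∃ B, MM P B ∧ Nonempty (A ≅ B)) (fun n => n ≠ l ∧ n ≠ l + 1)
        (X'⟦(1 : ℤ)⟧) := by
      clear e hd
      induction hX' with
      | zero h => exact SS.zero ((shiftFunctor T (1 : ℤ)).map_isZero h)
      | @add X A Y n hn hA _ e ih =>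
        refine SS.add (n := n + 1) (A := A) (by omega) ⟨A, hA, ⟨Iso.refl _⟩⟩ ih ?_
        exact (shiftFunctor T (1 : ℤ)).mapIso e ≪≫ (mapBiprod_iso 1 _ _).some ≪≫
          biprod.mapIso ((shiftFunctorAdd' T n 1 (n + 1) rfl).app A).symm (Iso.refl _)
    exact h1.hom_right (by
      rintro C n ⟨C', hC', ⟨eC⟩⟩ hn f
      rw [← cancel_mono ((shiftFunctor T n).map eC.hom), zero_comp]
      exact (MM.van hv).shift hB hC' l n (by omega) _))
  have hW := two_degrees hP hv l hA hA' hB hd₁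
  exact SS.of_iso eY.symm (SS.sum hW (hX'.mono (fun _ h => h) (fun _ _ => trivial)))

/-- Finite sums of shifts of iterated extensions are closed under extensions. -/
theorem SS.ext (hP : Semi P) (hv : Van P) {V : T} (hV : SS (MM P) (fun _ => True) V) :
    ∀ {X Y : T} (f : X ⟶ Y) (g : Y ⟶ V), Dist f g → SS (MM P) (fun _ => True) X →
      SS (MM P) (fun _ => True) Y := by
  induction hV with
  | zero h =>
    intro X Y f g hd hX
    have := hd.isIso_of_isZero₃ h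
    exact SS.of_iso (asIso f) hX
  | @add V B V₁ n _ hB _ e ih =>
    intro X Y f g hd hX
    obtain ⟨Y₁, c, hc⟩ := Dist.exists_fib (g ≫ (e.hom ≫ biprod.snd))
    have hb : Dist (biprod.inl ≫ e.inv) (e.hom ≫ biprod.snd) :=
      (Dist.biprod (B⟦n⟧) V₁).of_iso (Iso.refl _) e.symm (Iso.refl _) (by simp) (by simp)
    obtain ⟨m, k, hmk, -, -⟩ := octF hd hb hc
    exact ih c _ hc (SS.ext_single hP hv n hX hB hmk)

end Pool.Agent.K4H54.BJ
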