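import Mathlib

/-!
# Distinguished triangles given by their first two maps
-/

set_option autoImplicit false

open CategoryTheory Limits Pretriangulated

universe v u

namespace Pool.Agent.K4H54.BJ

variable {T : Type u} [Category.{v} T] [Preadditive T] [HasZeroObject T] [HasShift T ℤ]
  [∀ n : ℤ, (shiftFunctor T n).Additive] [Pretriangulated T]

/-- `X ⟶ Y ⟶ Z` is part of a distinguished triangle `X ⟶ Y ⟶ Z ⟶ X⟦1⟧`. -/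
def Dist {X Y Z : T} (f : X ⟶ Y) (g : Y ⟶ Z) : Prop :=
  ∃ h : Z ⟶ X⟦(1 : ℤ)⟧, Triangle.mk f g h ∈ distTriang T

namespace Dist

variable {X Y Z : T} {f : X ⟶ Y} {g : Y ⟶ Z}

theorem comp_zero (hd : Dist f g) : f ≫ g = 0 := by
  obtain ⟨h, hh⟩ := hd
  exact comp_distTriang_mor_zero₁₂ _ hh

theorem lift (hd : Dist f g) {W : T} (φ : W ⟶ Y) (hφ : φ ≫ g = 0) :
    ∃ ψ : W ⟶ X, ψ ≫ f = φ := by
  obtain ⟨h, hh⟩ := hd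
  obtain ⟨ψ, hψ⟩ := Triangle.coyoneda_exact₂ _ hh φ hφ
  exact ⟨ψ, hψ.symm⟩

theorem desc (hd : Dist f g) {W : T} (φ : Y ⟶ W) (hφ : f ≫ φ = 0) :
    ∃ ψ : Z ⟶ W, g ≫ ψ = φ := by
  obtain ⟨h, hh⟩ := hd
  obtain ⟨ψ, hψ⟩ := Triangle.yoneda_exact₂ _ hh φ hφ
  exact ⟨ψ, hψ.symm⟩

/-- A morphism out of the third object which vanishes on the second one comes from `X⟦1⟧`. -/
theorem eq_zero_of_comp (hd : Dist f g) {W : T} (hv : ∀ ψ : X⟦(1 : ℤ)⟧ ⟶ W, ψ = 0) (φ : Z ⟶ W)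
    (hφ : g ≫ φ = 0) : φ = 0 := by
  obtain ⟨h, hh⟩ := hd
  have hex : ∃ ψ : X⟦(1 : ℤ)⟧ ⟶ W, φ = h ≫ ψ := Triangle.yoneda_exact₃ _ hh φ hφ
  obtain ⟨ψ, h1⟩ := hex
  rw [h1, hv ψ, Limits.comp_zero]

theorem of_iso (hd : Dist f g) {X' Y' Z' : T} (eX : X ≅ X') (eY : Y ≅ Y') (eZ : Z ≅ Z')
    {f' : X' ⟶ Y'} {g' : Y' ⟶ Z'} (h1 : f ≫ eY.hom = eX.hom ≫ f')
    (h2 : g ≫ eZ.hom = eY.hom ≫ g') : Dist f' g' := by
  obtain ⟨h, hh⟩ := hd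
  refine ⟨eZ.inv ≫ h ≫ (eX.hom)⟦(1 : ℤ)⟧', isomorphic_distinguished _ hh _ ?_⟩
  refine (Triangle.isoMk (Triangle.mk f g h)
    (Triangle.mk f' g' (eZ.inv ≫ h ≫ (eX.hom)⟦(1 : ℤ)⟧')) eX eY eZ h1 h2 ?_).symm
  change h ≫ (eX.hom)⟦(1 : ℤ)⟧' = eZ.hom ≫ eZ.inv ≫ h ≫ (eX.hom)⟦(1 : ℤ)⟧'
  rw [Iso.hom_inv_id_assoc]

theorem exists_cone {X Y : T} (f : X ⟶ Y) : ∃ (Z : T) (g : Y ⟶ Z), Dist f g := by
  obtain ⟨Z, g, h, hh⟩ := distinguished_cocone_triangle f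
  exact ⟨Z, g, h, hh⟩

theorem exists_fib {Y Z : T} (g : Y ⟶ Z) : ∃ (X : T) (f : X ⟶ Y), Dist f g := by
  obtain ⟨X, f, h, hh⟩ := distinguished_cocone_triangle₁ g
  exact ⟨X, f, h, hh⟩

theorem id_zero (X : T) {Z : T} (hZ : IsZero Z) : Dist (𝟙 X) (0 : X ⟶ Z) :=
  Dist.of_iso ⟨0, contractible_distinguished X⟩ (Iso.refl _) (Iso.refl _)
    ((isZero_zero T).iso hZ) (by simp) (by simp)

theorem zero_id (X : T) {Z : T} (hZ : IsZero Z) : Dist (0 : Z ⟶ X) (𝟙 X) :=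
  Dist.of_iso ⟨0, contractible_distinguished₁ X⟩ ((isZero_zero T).iso hZ) (Iso.refl _)
    (Iso.refl _) (by simp) (by simp)

set_option backward.defeqAttrib.useBackward true in
theorem shift (hd : Dist f g) (n : ℤ) : Dist (f⟦n⟧') (g⟦n⟧') := by
  obtain ⟨h, hh⟩ := hd
  have h1 := Triangle.shift_distinguished _ hh n
  have h2 : Dist (n.negOnePow • f⟦n⟧') (n.negOnePow • g⟦n⟧') := ⟨_, h1⟩
  rcases Int.units_eq_one_or n.negOnePow with hu | hu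
  · rw [hu, one_smul, one_smul] at h2
    exact h2
  · rw [hu] at h2
    have h3 : ∀ {A B : T} (φ : A ⟶ B), (-1 : ℤˣ) • φ = -φ := by
      intro A B φ
      rw [Units.neg_smul, one_smul]
    rw [h3, h3] at h2
    refine h2.of_iso (Iso.refl _) (-(Iso.refl _) : Y⟦n⟧ ≅ Y⟦n⟧) (Iso.refl _) ?_ ?_
    · simp
    · simp

theorem unshift (n : ℤ) (hd : Dist (f⟦n⟧') (g⟦n⟧')) : Dist f g := by
  have h1 := hd.shift (-n)
  refine h1.of_iso ((shiftFunctorCompIsoId T n (-n) (by omega)).app X)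
    ((shiftFunctorCompIsoId T n (-n) (by omega)).app Y)
    ((shiftFunctorCompIsoId T n (-n) (by omega)).app Z) ?_ ?_
  · exact (shiftFunctorCompIsoId T n (-n) (by omega)).hom.naturality f
  · exact (shiftFunctorCompIsoId T n (-n) (by omega)).hom.naturality g

/-- If the first map has a retraction, the triangle splits. -/
theorem split_mono (hd : Dist f g) (r : Y ⟶ X) (hr : f ≫ r = 𝟙 X) :
    ∃ e : Y ≅ X ⊞ Z, f ≫ e.hom = biprod.inl ∧ e.hom ≫ biprod.snd = g := by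
  obtain ⟨h, hh⟩ := hd
  have h0 : h = 0 := by
    have h1 : h ≫ f⟦(1 : ℤ)⟧' = 0 := comp_distTriang_mor_zero₃₁ _ hh
    have h2 : f⟦(1 : ℤ)⟧' ≫ r⟦(1 : ℤ)⟧' = 𝟙 _ := by
      rw [← Functor.map_comp, hr, CategoryTheory.Functor.map_id]
    rw [← Category.comp_id h, ← h2, ← Category.assoc, h1, zero_comp]
  obtain ⟨e, h1, h2⟩ := exists_iso_binaryBiproduct_of_distTriang _ hh h0
  exact ⟨e, h1, h2.symm⟩

/-- If the second map has a section, the triangle splits. -/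
theorem split_epi (hd : Dist f g) (s : Z ⟶ Y) (hs : s ≫ g = 𝟙 Z) :
    ∃ e : Y ≅ X ⊞ Z, f ≫ e.hom = biprod.inl ∧ e.hom ≫ biprod.snd = g := by
  obtain ⟨h, hh⟩ := hd
  have h0 : h = 0 := by
    have h1 : g ≫ h = 0 := comp_distTriang_mor_zero₂₃ _ hh
    rw [← Category.id_comp h, ← hs, Category.assoc, h1, Limits.comp_zero]
  obtain ⟨e, h1, h2⟩ := exists_iso_binaryBiproduct_of_distTriang _ hh h0
  exact ⟨e, h1, h2.symm⟩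

/-- If there are no morphisms `Z ⟶ X⟦1⟧`, the triangle splits. -/
theorem split_of (hd : Dist f g) (hv : ∀ h : Z ⟶ X⟦(1 : ℤ)⟧, h = 0) :
    ∃ e : Y ≅ X ⊞ Z, f ≫ e.hom = biprod.inl ∧ e.hom ≫ biprod.snd = g := by
  obtain ⟨h, hh⟩ := hd
  obtain ⟨e, h1, h2⟩ := exists_iso_binaryBiproduct_of_distTriang _ hh (hv h)
  exact ⟨e, h1, h2.symm⟩

theorem biprod (X Z : T) : Dist (biprod.inl : X ⟶ X ⊞ Z) (biprod.snd : X ⊞ Z ⟶ Z) :=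
  ⟨0, binaryBiproductTriangle_distinguished X Z⟩

theorem biprod' (X Z : T) : Dist (biprod.inr : Z ⟶ X ⊞ Z) (biprod.fst : X ⊞ Z ⟶ X) := by
  refine (biprod Z X).of_iso (Iso.refl _) (biprod.braiding Z X) (Iso.refl _) ?_ ?_
  · ext <;> simp
  · simp

/-- The fibre of a split epimorphism is a retract. -/
theorem retract_of_split_epi (hd : Dist f g) (s : Z ⟶ Y) (hs : s ≫ g = 𝟙 Z) :
    ∃ r : Y ⟶ X, f ≫ r = 𝟙 X := by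
  obtain ⟨e, h1, h2⟩ := hd.split_epi s hs
  exact ⟨e.hom ≫ biprod.fst, by rw [← Category.assoc, h1, biprod.inl_fst]⟩

/-- Rotation: the map from the shifted third object. -/
theorem rotate_neg (hd : Dist f g) :
    ∃ h : Z⟦(-1 : ℤ)⟧ ⟶ X, Dist h f := by
  obtain ⟨h, hh⟩ := hd
  exact ⟨_, _, inv_rot_of_distTriang _ hh⟩

theorem rotate (hd : Dist f g) : ∃ h : Z ⟶ X⟦(1 : ℤ)⟧, Dist g h := by
  obtain ⟨h, hh⟩ := hd
  exact ⟨h, _, rot_of_distTriang _ hh⟩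

end Dist

namespace Dist

theorem isIso_of_isZero₁ {X Y Z : T} {f : X ⟶ Y} {g : Y ⟶ Z} (hd : Dist f g) (hX : IsZero X) :
    IsIso g := by
  obtain ⟨h, hh⟩ := hd
  exact (Triangle.isZero₁_iff_isIso₂ _ hh).1 hX

theorem isIso_of_isZero₃ {X Y Z : T} {f : X ⟶ Y} {g : Y ⟶ Z} (hd : Dist f g) (hZ : IsZero Z) :
    IsIso f := by
  obtain ⟨h, hh⟩ := hd
  exact (Triangle.isZero₃_iff_isIso₁ _ hh).1 hZ

theorem of_isIso {X Y Z : T} (i : X ⟶ Y) [IsIso i] (hZ : IsZero Z) : Dist i (0 : Y ⟶ Z) :=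
  (id_zero X hZ).of_iso (Iso.refl _) (asIso i) (Iso.refl _) (by simp) (by simp)

end Dist

section Oct

variable [IsTriangulated T]

theorem oct0 {X Y Z A B C : T} {f : X ⟶ Y} {g : Y ⟶ Z} {f' : Y ⟶ A} {g' : Z ⟶ B} {k : Z ⟶ C}
    {w1 : A ⟶ X⟦(1 : ℤ)⟧} {w2 : B ⟶ Y⟦(1 : ℤ)⟧} {w3 : C ⟶ X⟦(1 : ℤ)⟧}
    (h1 : Triangle.mk f f' w1 ∈ distTriang T) (h2 : Triangle.mk g g' w2 ∈ distTriang T)
    (h3 : Triangle.mk (f ≫ g) k w3 ∈ distTriang T) :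
    ∃ (m : A ⟶ C) (n : C ⟶ B), Triangle.mk m n (w2 ≫ f'⟦(1 : ℤ)⟧') ∈ distTriang T ∧
      f' ≫ m = g ≫ k ∧ m ≫ w3 = w1 ∧ k ≫ n = g' ∧ w3 ≫ f⟦(1 : ℤ)⟧' = n ≫ w2 := by
  let o := Triangulated.someOctahedron (rfl : f ≫ g = f ≫ g) h1 h2 h3
  exact ⟨o.m₁, o.m₃, o.mem, o.comm₁, o.comm₂, o.comm₃, o.comm₄⟩

/-- Octahedron, cones. -/
theorem octC {X Y Z A B C : T} {f : X ⟶ Y} {g : Y ⟶ Z} {f' : Y ⟶ A} {g' : Z ⟶ B} {k : Z ⟶ C}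
    (h1 : Dist f f') (h2 : Dist g g') (h3 : Dist (f ≫ g) k) :
    ∃ (m : A ⟶ C) (n : C ⟶ B), Dist m n ∧ f' ≫ m = g ≫ k ∧ k ≫ n = g' := by
  obtain ⟨w1, h1⟩ := h1
  obtain ⟨w2, h2⟩ := h2
  obtain ⟨w3, h3⟩ := h3
  obtain ⟨m, n, h, c1, _, c3, _⟩ := oct0 h1 h2 h3
  exact ⟨m, n, ⟨_, h⟩, c1, c3⟩

/-- Octahedron, fibres. -/
theorem octF {F1 F2 F3 Y Z W : T} {a : F1 ⟶ Y} {g : Y ⟶ Z} {b : F2 ⟶ Z} {h : Z ⟶ W}
    {c : F3 ⟶ Y} (h1 : Dist a g) (h2 : Dist b h) (h3 : Dist c (g ≫ h)) :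
    ∃ (m : F1 ⟶ F3) (n : F3 ⟶ F2), Dist m n ∧ m ≫ c = a ∧ c ≫ g = n ≫ b := by
  obtain ⟨w1, h1⟩ := h1
  obtain ⟨w2, h2⟩ := h2
  obtain ⟨w3, h3⟩ := h3
  have r1 : Triangle.mk g w1 (-a⟦(1 : ℤ)⟧') ∈ distTriang T := rot_of_distTriang _ h1
  have r2 : Triangle.mk h w2 (-b⟦(1 : ℤ)⟧') ∈ distTriang T := rot_of_distTriang _ h2
  have r3 : Triangle.mk (g ≫ h) w3 (-c⟦(1 : ℤ)⟧') ∈ distTriang T := rot_of_distTriang _ h3
  obtain ⟨m', n', h, _, c2, _, c4⟩ := oct0 r1 r2 r3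
  obtain ⟨m, rfl⟩ := (shiftFunctor T (1 : ℤ)).map_surjective m'
  obtain ⟨n, rfl⟩ := (shiftFunctor T (1 : ℤ)).map_surjective n'
  refine ⟨m, n, Dist.unshift 1 ⟨_, h⟩, ?_, ?_⟩
  · apply (shiftFunctor T (1 : ℤ)).map_injective
    rw [Functor.map_comp]
    rwa [Preadditive.comp_neg, neg_inj] at c2
  · apply (shiftFunctor T (1 : ℤ)).map_injective
    rw [Functor.map_comp, Functor.map_comp]
    rwa [Preadditive.comp_neg, Preadditive.neg_comp, neg_inj] at c4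

/-- Octahedron, mixed form. -/
theorem octM {X Y Z C F F3 : T} {f : X ⟶ Y} {f' : Y ⟶ C} {g : Y ⟶ Z} {b : F ⟶ Y} {c : F3 ⟶ X}
    (h1 : Dist f f') (h2 : Dist b g) (h3 : Dist c (f ≫ g)) :
    ∃ m : F3 ⟶ F, Dist m (b ≫ f') ∧ m ≫ b = c ≫ f := by
  obtain ⟨w1, h1⟩ := h1
  obtain ⟨w2, h2⟩ := h2
  obtain ⟨w3, h3⟩ := h3
  have r2 : Triangle.mk g w2 (-b⟦(1 : ℤ)⟧') ∈ distTriang T := rot_of_distTriang _ h2
  have r3 : Triangle.mk (f ≫ g) w3 (-c⟦(1 : ℤ)⟧') ∈ distTriang T := rot_of_distTriang _ h3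
  obtain ⟨m', n', h, _, _, _, c4⟩ := oct0 h1 r2 r3
  obtain ⟨n, rfl⟩ := (shiftFunctor T (1 : ℤ)).map_surjective n'
  have h5 : Dist (n⟦(1 : ℤ)⟧') (-(b ≫ f')⟦(1 : ℤ)⟧') := by
    rw [Functor.map_comp, ← Preadditive.neg_comp]
    exact ⟨_, rot_of_distTriang _ h⟩
  refine ⟨n, Dist.unshift 1 (h5.of_iso (Iso.refl _) (Iso.refl _)
    (-(Iso.refl _) : C⟦(1 : ℤ)⟧ ≅ C⟦(1 : ℤ)⟧) (by simp) (by simp)), ?_⟩
  apply (shiftFunctor T (1 : ℤ)).map_injective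
  rw [Functor.map_comp, Functor.map_comp]
  rw [Preadditive.comp_neg, Preadditive.neg_comp, neg_inj] at c4
  exact c4.symm

end Oct

end Pool.Agent.K4H54.BJ
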